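import Pool.Agent.Lib.G6.GDefs
import Pool.Agent.Lib.G3.Mert5

/-!
# G6, row Mt: the bad `Q` have small mass

PROOF IN WORDS. `mert5` of `G3/Mert5.lean` (`pi5 u v = PP u v` by definition) with `ε = 1` gives `z0 ≥ 3` (enlarge) and for `v ≥ u ≥ z0`: `sg1 u v ≤ log (log v/log u) + 1`. With
`B := z0 + 1` (trivial bound of `sg1 0 z0 ≤ z0`): `sg1 0 v ≤ B + log log v` for `v ≥ z0` (`log u ≥ 1`) and `sg1 0 v ≤ B` for `v < z0`. `W = log Y`, `LL = log log Y`.
`sg1 0 w ≤ B + log(c LL + 1)` hmm: `log w ≤ c LL`, so `sg1 0 w ≤ B + log (c LL + 3)`. `sg1 w' x`: `w' + 1 ≥ Y^(1/n)`, so `w' ≥ z0` and `log w' ≥ W/(2n)` for large `Y`,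
`log x ≤ 2 W`, so `sg1 w' x ≤ log (4 n) + 1` (if `x < w'` it is `0`). `sg1 0 x ≤ B + log (2 W) ≤ 2 LL` for large `Y`. So the left side is at most
`(2B + log (c LL + 3) + log (4n) + 1) (2 LL)^(k-2)`, and `2^(k-2) (2B + log (c LL + 3) + log (4n) + 1) ≤ ε LL` for large `Y`.
-/

set_option autoImplicit false

open Finset

namespace Pool.Agent.Lib.G6

open Pool.Agent.Lib.G5 (PP sg1)

private lemma mt_split {z v : ℕ} (h : z ≤ v) : sg1 0 v = sg1 0 z + sg1 z v := by
  unfold sg1 PP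
  rw [Finset.sum_filter, Finset.sum_filter, Finset.sum_filter, Finset.sum_Ioc_consecutive _ (Nat.zero_le z) h]

private lemma mt_triv (z : ℕ) : sg1 0 z ≤ z := by
  unfold sg1 PP
  calc ∑ p ∈ (Ioc 0 z).filter Nat.Prime, (1 : ℝ) / p ≤ ∑ _p ∈ (Ioc 0 z).filter Nat.Prime, (1 : ℝ) := by
        apply Finset.sum_le_sum
        intro p hp
        have h1 : 1 ≤ p := (mem_filter.mp hp).2.one_lt.le
        have h2 : (1 : ℝ) ≤ p := by exact_mod_cast h1
        rw [div_le_one (by linarith)]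
        exact h2
    _ = (((Ioc 0 z).filter Nat.Prime).card : ℝ) := by simp
    _ ≤ ((Ioc 0 z).card : ℝ) := by exact_mod_cast card_filter_le _ _
    _ = z := by simp

private lemma mt_mono {v z : ℕ} (h : v ≤ z) : sg1 0 v ≤ sg1 0 z := by
  unfold sg1 PP
  apply Finset.sum_le_sum_of_subset_of_nonneg
  · intro p hp
    rw [mem_filter, mem_Ioc] at hp ⊢
    exact ⟨⟨hp.1.1, hp.1.2.trans h⟩, hp.2⟩
  · intro p _ _
    positivity

private lemma mt_nonneg (u v : ℕ) : 0 ≤ sg1 u v := by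
  unfold sg1
  exact Finset.sum_nonneg fun p _ => by positivity

/-- the two bounds from Mertens' theorem -/
private lemma mt_mert : ∃ z : ℕ, 3 ≤ z ∧ (∀ u v : ℕ, z ≤ u → u ≤ v → sg1 u v ≤ Real.log (Real.log v / Real.log u) + 1) ∧
    ∀ (v : ℕ) (T : ℝ), 1 ≤ T → Real.log v ≤ T → sg1 0 v ≤ (z + 1) + Real.log T := by
  obtain ⟨z0, hz⟩ := Pool.Agent.Lib.G3.mert5 1 one_pos
  have hA : ∀ u v : ℕ, max z0 3 ≤ u → u ≤ v → sg1 u v ≤ Real.log (Real.log v / Real.log u) + 1 := by
    intro u v hu huv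
    have h := hz u v ((le_max_left _ _).trans hu) huv
    have h2 := (abs_le.mp h).2
    have h3 : sg1 u v = ∑ p ∈ Pool.Agent.Lib.G3.pi5 u v, (1 : ℝ) / p := rfl
    rw [h3]
    linarith
  refine ⟨max z0 3, le_max_right _ _, hA, fun v T hT hv => ?_⟩
  have hT0 : 0 ≤ Real.log T := Real.log_nonneg hT
  rcases le_total (max z0 3) v with h | h
  · have h1 := hA (max z0 3) v le_rfl h
    have h3 : (3 : ℝ) ≤ ((max z0 3 : ℕ) : ℝ) := by exact_mod_cast le_max_right z0 3
    have h4 : 1 ≤ Real.log ((max z0 3 : ℕ) : ℝ) := by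
      rw [Real.le_log_iff_exp_le (by linarith)]
      exact Real.exp_one_lt_three.le.trans h3
    have h5 : ((max z0 3 : ℕ) : ℝ) ≤ v := by exact_mod_cast h
    have h6 : 1 ≤ Real.log (v : ℝ) := h4.trans (Real.log_le_log (by linarith) h5)
    have h7 : Real.log (Real.log v / Real.log ((max z0 3 : ℕ) : ℝ)) ≤ Real.log T := by
      apply Real.log_le_log (by positivity)
      exact (div_le_self (by linarith) h4).trans hv
    rw [mt_split h]
    have := mt_triv (max z0 3)
    linarith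
  · have := (mt_mono h).trans (mt_triv (max z0 3))
    linarith

theorem mt (k c n : ℕ) (hk : 2 ≤ k) (hn : 1 ≤ n) (ε : ℝ) (hε : 0 < ε) : ∃ y0 : ℝ, ∀ Y w w' x : ℕ, y0 ≤ Y → (w : ℝ) ≤ (Real.log Y) ^ c →
    Y ≤ (w' + 1) ^ n → x ≤ 2 * Y →
      (sg1 0 w + sg1 w' x) * (sg1 0 x) ^ (k - 2) ≤ ε * (Real.log (Real.log Y)) ^ (k - 1) := by
  obtain ⟨z, hz3, hA, hB⟩ := mt_mert
  set D : ℝ := (z + 1) + Real.log (c + 3) + Real.log (4 * n) + 1 with hD
  have hn1 : (1 : ℝ) ≤ n := by exact_mod_cast hn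
  -- eventually
  have e1 : ∀ᶠ y : ℝ in Filter.atTop, (2 : ℝ) * n + n * Real.log (z + 1) ≤ Real.log y :=
    Real.tendsto_log_atTop.eventually_ge_atTop _
  have hLL : Filter.Tendsto (fun y : ℝ => Real.log (Real.log y)) Filter.atTop Filter.atTop :=
    Real.tendsto_log_atTop.comp Real.tendsto_log_atTop
  have e2 : ∀ᶠ y : ℝ in Filter.atTop, (z : ℝ) + 3 + 2 * (2 ^ (k - 2) * D) / ε ≤ Real.log (Real.log y) :=
    hLL.eventually_ge_atTop _
  have e3 : ∀ᶠ y : ℝ in Filter.atTop, ‖Real.log (Real.log (Real.log y))‖ ≤ (ε / (2 * 2 ^ (k - 2))) * ‖Real.log (Real.log y)‖ :=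
    hLL.eventually (Real.isLittleO_log_id_atTop.bound (by positivity))
  obtain ⟨y0, hy0⟩ := Filter.eventually_atTop.mp (e1.and (e2.and e3))
  refine ⟨max y0 2, fun Y w w' x hY hw hw' hx => ?_⟩
  obtain ⟨g1, g2, g3⟩ := hy0 Y ((le_max_left _ _).trans hY)
  have hY2 : (2 : ℝ) ≤ Y := (le_max_right _ _).trans hY
  set l : ℝ := Real.log Y with hl
  set LL : ℝ := Real.log l with hLLdef
  have hz3' : (3 : ℝ) ≤ z := by exact_mod_cast hz3
  have hlz : 0 ≤ Real.log ((z : ℝ) + 1) := Real.log_nonneg (by linarith)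
  have hc0 : (0 : ℝ) ≤ c := Nat.cast_nonneg _
  have hc3 : 0 ≤ Real.log ((c : ℝ) + 3) := Real.log_nonneg (by linarith)
  have h4n : 0 ≤ Real.log (4 * (n : ℝ)) := Real.log_nonneg (by linarith)
  have hD0 : 0 < D := by rw [hD]; linarith
  have hDε : 0 < 2 * (2 ^ (k - 2) * D) / ε := by positivity
  have hl2 : 2 ≤ l := by nlinarith
  have hLL3 : 3 ≤ LL := by linarith
  have hLL0 : 0 < LL := by linarith
  have hl0 : 0 < l := by linarith
  -- (a)
  have ha : sg1 0 w ≤ (z + 1) + Real.log (c + 3) + Real.log LL := by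
    have h1 : Real.log (w : ℝ) ≤ (c + 3) * LL := by
      rcases Nat.eq_zero_or_pos w with h | h
      · rw [h, Nat.cast_zero, Real.log_zero]; positivity
      · calc Real.log (w : ℝ) ≤ Real.log (l ^ c) := Real.log_le_log (by exact_mod_cast h) hw
          _ = c * LL := Real.log_pow _ _
          _ ≤ (c + 3) * LL := by gcongr; linarith
    have h2 := hB w ((c + 3) * LL) (by nlinarith) h1
    rw [Real.log_mul (by linarith) hLL0.ne'] at h2
    linarith
  -- (c)
  have hlx : Real.log (x : ℝ) ≤ 2 * l := by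
    rcases Nat.eq_zero_or_pos x with h | h
    · rw [h, Nat.cast_zero, Real.log_zero]; positivity
    · have h1 : (x : ℝ) ≤ 2 * Y := by exact_mod_cast hx
      calc Real.log (x : ℝ) ≤ Real.log (2 * Y) := Real.log_le_log (by exact_mod_cast h) h1
        _ ≤ Real.log (Y * Y) := Real.log_le_log (by linarith) (by gcongr)
        _ = 2 * l := by rw [Real.log_mul (by linarith) (by linarith)]; ring
  have hcx : sg1 0 x ≤ 2 * LL := by
    have h2 := hB x (2 * l) (by linarith) hlx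
    rw [Real.log_mul (by norm_num) hl0.ne'] at h2
    have h3 : Real.log 2 ≤ 1 := by linarith [Real.log_two_lt_d9]
    linarith
  -- (b)
  have hlw : l ≤ n * Real.log ((w' : ℝ) + 1) := by
    have h1 : (Y : ℝ) ≤ ((w' : ℝ) + 1) ^ n := by exact_mod_cast hw'
    calc l ≤ Real.log (((w' : ℝ) + 1) ^ n) := Real.log_le_log (by linarith) h1
      _ = n * Real.log ((w' : ℝ) + 1) := Real.log_pow _ _
  have hwz : z ≤ w' := by
    have h1 : n * Real.log ((z : ℝ) + 1) ≤ n * Real.log ((w' : ℝ) + 1) := by linarith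
    have h2 : Real.log ((z : ℝ) + 1) ≤ Real.log ((w' : ℝ) + 1) := le_of_mul_le_mul_left h1 (by linarith)
    have h3 : (z : ℝ) + 1 ≤ (w' : ℝ) + 1 := (Real.log_le_log_iff (by linarith) (by positivity)).mp h2
    have h4 : (z : ℝ) ≤ w' := by linarith
    exact_mod_cast h4
  have hw1 : (3 : ℝ) ≤ w' := hz3'.trans (by exact_mod_cast hwz)
  have hlw' : l / (2 * n) ≤ Real.log (w' : ℝ) := by
    have h1 : Real.log ((w' : ℝ) + 1) ≤ Real.log (w' : ℝ) + 1 := by
      calc Real.log ((w' : ℝ) + 1) ≤ Real.log (2 * w') := Real.log_le_log (by linarith) (by linarith)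
        _ = Real.log 2 + Real.log w' := Real.log_mul (by norm_num) (by linarith)
        _ ≤ Real.log (w' : ℝ) + 1 := by linarith [Real.log_two_lt_d9]
    rw [div_le_iff₀ (by linarith)]
    have h2 : l ≤ n * (Real.log (w' : ℝ) + 1) := hlw.trans (by gcongr)
    nlinarith
  have hb : sg1 w' x ≤ Real.log (4 * n) + 1 := by
    rcases le_total w' x with h | h
    · have h1 := hA w' x hwz h
      have hlw0 : 0 < l / (2 * n) := by positivity
      have hx3 : (3 : ℝ) ≤ x := hw1.trans (by exact_mod_cast h)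
      have h2 : Real.log x / Real.log w' ≤ 4 * n := by
        rw [div_le_iff₀ (by linarith)]
        calc Real.log (x : ℝ) ≤ 2 * l := hlx
          _ = 4 * n * (l / (2 * n)) := by field_simp; ring
          _ ≤ 4 * n * Real.log w' := by gcongr
      have h3 : 0 < Real.log x / Real.log w' := div_pos (Real.log_pos (by linarith)) (by linarith)
      have h4 := Real.log_le_log h3 h2
      linarith
    · have h0 : sg1 w' x = 0 := by
        unfold sg1 PP
        rw [Finset.Ioc_eq_empty (by omega)]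
        simp
      rw [h0]
      linarith
  -- end
  have hLg : Real.log LL ≤ ε / (2 * 2 ^ (k - 2)) * LL := by
    rw [Real.norm_of_nonneg hLL0.le] at g3
    exact (le_abs_self _).trans g3
  have hfin : 2 ^ (k - 2) * (D + Real.log LL) ≤ ε * LL := by
    have h1 : 2 ^ (k - 2) * Real.log LL ≤ ε / 2 * LL := by
      calc 2 ^ (k - 2) * Real.log LL ≤ 2 ^ (k - 2) * (ε / (2 * 2 ^ (k - 2)) * LL) := by gcongr
        _ = ε / 2 * LL := by field_simp
    have h2 : 2 ^ (k - 2) * D ≤ ε / 2 * LL := by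
      have h3 : 2 * (2 ^ (k - 2) * D) / ε ≤ LL := by linarith
      rw [div_le_iff₀ hε] at h3
      linarith
    linarith
  obtain ⟨j, rfl⟩ : ∃ j, k = j + 2 := ⟨k - 2, by omega⟩
  simp only [Nat.add_sub_cancel] at hfin ⊢
  have hs0 : 0 ≤ sg1 0 x := mt_nonneg _ _
  calc (sg1 0 w + sg1 w' x) * (sg1 0 x) ^ j ≤ (D + Real.log LL) * (2 * LL) ^ j := by
        have hlog0 : 0 ≤ Real.log LL := Real.log_nonneg (by linarith)
        have h1 : sg1 0 w + sg1 w' x ≤ D + Real.log LL := by rw [hD]; linarith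
        gcongr
    _ = (2 ^ j * (D + Real.log LL)) * LL ^ j := by rw [mul_pow]; ring
    _ ≤ (ε * LL) * LL ^ j := by gcongr
    _ = ε * LL ^ (j + 2 - 1) := by
        rw [show j + 2 - 1 = j + 1 by omega, pow_succ]; ring

end Pool.Agent.Lib.G6
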