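import Pool.Agent.Lib.G6.GDefs
import Pool.Agent.Lib.G5.Q8
import Pool.Agent.Lib.Sieve.SingularAverage

/-!
# G6, row Ph: `N/φ(N)` against the singular series

PROOF IN WORDS. ph: `N/φ(N) = ∏_{p ∣ N} p/(p-1) = 2 ∏_{p ∣ N, p > 2} p/(p-1)` (`Sieve.div_totient_eq_prod_inv` or `Nat.totient_eq_mul_prod_factors`), and
`p/(p-1) ≤ (p-1)/(p-2)` for `p ≥ 3` (`p(p-2) ≤ (p-1)^2`). `SS N = 2 C2 ∏_{p ∣ N, p > 2} (p-1)/(p-2)` with `C2 ≥ 1/4`: see the proof of `q8` in
`G5/Q8.lean` (`q8_C2`, also `C2 ≥ 1/2` is in `G3/C25.lean`). ph2: `Q/φ(Q) = ∏_{p ∣ Q} p/(p-1) ≤ 2^ω(Q) ≤ 2^Ω(Q)`.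
-/

set_option autoImplicit false

open Finset

namespace Pool.Agent.Lib.G6

open Pool.Agent.Lib.G3 (SS)

private theorem ph_C2 : (1 : ℝ) / 4 ≤ Pool.Agent.Lib.G3.C2 := by
  have h := Pool.Agent.Lib.G5.q8 2 even_two
  unfold Pool.Agent.Lib.G3.SS at h
  rw [if_pos even_two] at h
  have h1 : (Nat.primeFactors 2).filter (fun p => 2 < p) = ∅ := by
    rw [Nat.Prime.primeFactors Nat.prime_two]
    rw [Finset.filter_eq_empty_iff]
    intro x hx
    rw [Finset.mem_singleton] at hx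
    omega
  rw [h1, Finset.prod_empty, mul_one] at h
  linarith

theorem ph {N : ℕ} (hN : Even N) (h0 : 1 ≤ N) : (N : ℝ) / (Nat.totient N : ℝ) ≤ 4 * SS N := by
  have hC := ph_C2
  rw [Pool.Agent.Lib.Sieve.div_totient_eq_prod_inv N (by omega)]
  unfold Pool.Agent.Lib.G3.SS
  rw [if_pos hN, ← Finset.prod_filter_mul_prod_filter_not N.primeFactors (fun p => 2 < p)]
  have h2 : N.primeFactors.filter (fun p => ¬ 2 < p) = {2} := by
    ext x
    rw [Finset.mem_filter, Finset.mem_singleton]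
    constructor
    · rintro ⟨hx, h⟩
      have := (Nat.prime_of_mem_primeFactors hx).two_le
      omega
    · rintro rfl
      exact ⟨Nat.mem_primeFactors.mpr ⟨Nat.prime_two, hN.two_dvd, by omega⟩, by omega⟩
  rw [h2, Finset.prod_singleton]
  have h3 : ∏ p ∈ N.primeFactors.filter (fun p => 2 < p), (1 - (1 : ℝ) / p)⁻¹ ≤
      ∏ p ∈ N.primeFactors.filter (fun p => 2 < p), ((p : ℝ) - 1) / ((p : ℝ) - 2) := by
    refine Finset.prod_le_prod (fun p hp => ?_) (fun p hp => ?_)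
    · have hp2 : (2 : ℝ) < p := by exact_mod_cast (mem_filter.mp hp).2
      have : (1 : ℝ) / p ≤ 1 := by
        rw [div_le_one (by linarith)]; linarith
      exact inv_nonneg.mpr (by linarith)
    · have hp2 : (2 : ℝ) < p := by exact_mod_cast (mem_filter.mp hp).2
      have e1 : 1 - (1 : ℝ) / p = ((p : ℝ) - 1) / p := by field_simp
      rw [e1, inv_div, div_le_div_iff₀ (by linarith) (by linarith)]
      nlinarith
  have h4 : (0 : ℝ) ≤ ∏ p ∈ N.primeFactors.filter (fun p => 2 < p), ((p : ℝ) - 1) / ((p : ℝ) - 2) := by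
    refine Finset.prod_nonneg fun p hp => ?_
    have hp2 : (2 : ℝ) < p := by exact_mod_cast (mem_filter.mp hp).2
    exact div_nonneg (by linarith) (by linarith)
  have h5 : (1 - (1 : ℝ) / ((2 : ℕ) : ℝ))⁻¹ = 2 := by norm_num
  rw [h5]
  nlinarith [mul_nonneg h4 (sub_nonneg.mpr hC)]

theorem ph2 {Q j : ℕ} (hQ : 1 ≤ Q) (h : ArithmeticFunction.cardFactors Q = j) : (Q : ℝ) / (Nat.totient Q : ℝ) ≤ 2 ^ j := by
  rw [Pool.Agent.Lib.Sieve.div_totient_eq_prod_inv Q (by omega)]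
  have h1 : ∏ p ∈ Q.primeFactors, (1 - (1 : ℝ) / p)⁻¹ ≤ ∏ _p ∈ Q.primeFactors, (2 : ℝ) := by
    refine Finset.prod_le_prod (fun p hp => ?_) (fun p hp => ?_)
    · have hp2 : (2 : ℝ) ≤ p := by exact_mod_cast (Nat.prime_of_mem_primeFactors hp).two_le
      have : (1 : ℝ) / p ≤ 1 := by
        rw [div_le_one (by linarith)]; linarith
      exact inv_nonneg.mpr (by linarith)
    · have hp2 : (2 : ℝ) ≤ p := by exact_mod_cast (Nat.prime_of_mem_primeFactors hp).two_le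
      have e1 : 1 - (1 : ℝ) / p = ((p : ℝ) - 1) / p := by field_simp
      rw [e1, inv_div, div_le_iff₀ (by linarith)]
      linarith
  refine h1.trans ?_
  rw [Finset.prod_const]
  refine pow_le_pow_right₀ (by norm_num) ?_
  rw [← h, ArithmeticFunction.cardFactors_apply]
  exact List.toFinset_card_le _

end Pool.Agent.Lib.G6
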