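import Pool.Agent.Lib.G6.GDefs

/-!
# G6, row Rq: the sum of `1/Q` over `QB (j + 1) w w' x`

PROOF IN WORDS. (i) `∑_{Q ≤ x, Ω(Q) = j} 1/Q ≤ (∑_{p ≤ x} 1/p)^j` by induction on `j` (`j = 0`: only `Q = 1`; a `Q ≤ x` with `Ω(Q) = j + 1` is `p Q'` with `p`
prime, `p ≤ x`, `Q' ≤ x`, `Ω(Q') = j`: the sum over `Q` is at most the sum over the pairs `(p, Q')`, `sum_le_sum_of_injOn`-like:
each `Q` is the image of at least one pair). (ii) a `Q` in `QB (j+1) w w' x` is `q Q'` with `q ≤ w` or `w' < q ≤ x`, `Ω(Q') = j`, `Q' ≤ x`.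
-/

set_option autoImplicit false

open Finset

namespace Pool.Agent.Lib.G6

open Pool.Agent.Lib.G5 (PP sg1)

/-- the numbers of `[1, x]` with exactly `j` prime factors -/
private def OQ (j x : ℕ) : Finset ℕ := (Icc 1 x).filter fun Q => ArithmeticFunction.cardFactors Q = j

private theorem rq_mul (A B C : Finset ℕ) (h : ∀ Q ∈ A, ∃ q ∈ B, ∃ Q' ∈ C, Q = q * Q') :
    ∑ Q ∈ A, (1 : ℝ) / Q ≤ (∑ q ∈ B, (1 : ℝ) / q) * ∑ Q' ∈ C, (1 : ℝ) / Q' := by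
  have h1 : A ⊆ (B ×ˢ C).image fun p => p.1 * p.2 := by
    intro Q hQ
    obtain ⟨q, hq, Q', hQ', e⟩ := h Q hQ
    exact mem_image.2 ⟨(q, Q'), mem_product.2 ⟨hq, hQ'⟩, e.symm⟩
  have h2 : ∑ Q ∈ A, (1 : ℝ) / Q ≤ ∑ Q ∈ (B ×ˢ C).image fun p => p.1 * p.2, (1 : ℝ) / Q :=
    sum_le_sum_of_subset_of_nonneg h1 fun i _ _ => by positivity
  have h3 : ∑ Q ∈ (B ×ˢ C).image fun p => p.1 * p.2, (1 : ℝ) / Q
      ≤ ∑ p ∈ B ×ˢ C, (1 : ℝ) / ((p.1 * p.2 : ℕ) : ℝ) :=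
    sum_image_le_of_nonneg (f := fun Q : ℕ => (1 : ℝ) / Q) fun i _ => by positivity
  refine h2.trans (h3.trans (le_of_eq ?_))
  rw [sum_mul_sum, sum_product]
  refine sum_congr rfl fun q _ => sum_congr rfl fun Q' _ => ?_
  push_cast
  rw [one_div_mul_one_div]

/-- a number with a prime factor `q` is `q` times a number with one prime factor less -/
private theorem rq_div {j x Q q : ℕ} (h1 : 1 ≤ Q) (h2 : Q ≤ x) (h3 : ArithmeticFunction.cardFactors Q = j + 1)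
    (hq : q.Prime) (hd : q ∣ Q) : q ≤ x ∧ ∃ Q' ∈ OQ j x, Q = q * Q' := by
  obtain ⟨Q', rfl⟩ := hd
  have h4 : Q' ≠ 0 := by
    rintro rfl
    simp at h1
  have h5 : 1 ≤ Q' := Nat.one_le_iff_ne_zero.2 h4
  refine ⟨(Nat.le_mul_of_pos_right q h5).trans h2, Q', ?_, rfl⟩
  rw [ArithmeticFunction.cardFactors_mul hq.ne_zero h4, ArithmeticFunction.cardFactors_apply_prime hq] at h3
  unfold OQ
  rw [mem_filter, mem_Icc]
  exact ⟨⟨h5, (Nat.le_mul_of_pos_left Q' hq.pos).trans h2⟩, by omega⟩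

private theorem rq_sum (x : ℕ) : ∀ j : ℕ, ∑ Q ∈ OQ j x, (1 : ℝ) / Q ≤ (sg1 0 x) ^ j := by
  intro j
  induction j with
  | zero =>
    have h : OQ 0 x ⊆ {1} := by
      intro Q hQ
      unfold OQ at hQ
      rw [mem_filter, mem_Icc] at hQ
      rcases ArithmeticFunction.cardFactors_eq_zero_iff_eq_zero_or_one.1 hQ.2 with h | h
      · have := hQ.1.1
        omega
      · rw [h]
        exact mem_singleton_self 1
    refine (sum_le_sum_of_subset_of_nonneg h fun i _ _ => by positivity).trans ?_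
    simp
  | succ j ih =>
    have h : ∑ Q ∈ OQ (j + 1) x, (1 : ℝ) / Q ≤ (∑ q ∈ PP 0 x, (1 : ℝ) / q) * ∑ Q' ∈ OQ j x, (1 : ℝ) / Q' := by
      refine rq_mul _ _ _ ?_
      intro Q hQ
      unfold OQ at hQ
      rw [mem_filter, mem_Icc] at hQ
      have h1 : Q ≠ 1 := by
        rintro rfl
        have := hQ.2
        simp at this
      obtain ⟨q, hq, hd⟩ := Nat.exists_prime_and_dvd h1
      obtain ⟨h2, Q', h3, h4⟩ := rq_div hQ.1.1 hQ.1.2 hQ.2 hq hd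
      refine ⟨q, ?_, Q', h3, h4⟩
      unfold PP
      rw [mem_filter, mem_Ioc]
      exact ⟨⟨hq.pos, h2⟩, hq⟩
    rw [pow_succ, mul_comm]
    refine h.trans (mul_le_mul_of_nonneg_left ih ?_)
    exact sum_nonneg fun i _ => by positivity

theorem rq (j w w' x : ℕ) : ∑ Q ∈ QB (j + 1) w w' x, (1 : ℝ) / Q ≤ (sg1 0 w + sg1 w' x) * (sg1 0 x) ^ j := by
  classical
  have h : ∑ Q ∈ QB (j + 1) w w' x, (1 : ℝ) / Q
      ≤ (∑ q ∈ PP 0 w ∪ PP w' x, (1 : ℝ) / q) * ∑ Q' ∈ OQ j x, (1 : ℝ) / Q' := by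
    refine rq_mul _ _ _ ?_
    intro Q hQ
    unfold QB at hQ
    rw [mem_filter, mem_Icc] at hQ
    obtain ⟨⟨h1, h2⟩, h3, q, hq, hd, hw⟩ := hQ
    obtain ⟨h4, Q', h5, h6⟩ := rq_div h1 h2 h3 hq hd
    refine ⟨q, ?_, Q', h5, h6⟩
    unfold PP
    rw [mem_union, mem_filter, mem_filter, mem_Ioc, mem_Ioc]
    rcases hw with hw | hw
    · exact Or.inl ⟨⟨hq.pos, hw⟩, hq⟩
    · exact Or.inr ⟨⟨hw, h4⟩, hq⟩
  have h0 : ∀ a b : ℕ, 0 ≤ sg1 a b := fun a b => sum_nonneg fun i _ => by positivity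
  have h7 : ∑ q ∈ PP 0 w ∪ PP w' x, (1 : ℝ) / q ≤ sg1 0 w + sg1 w' x := by
    have h8 := sum_union_inter (s₁ := PP 0 w) (s₂ := PP w' x) (f := fun q : ℕ => (1 : ℝ) / q)
    have h9 : 0 ≤ ∑ q ∈ PP 0 w ∩ PP w' x, (1 : ℝ) / q := sum_nonneg fun i _ => by positivity
    unfold sg1
    linarith
  exact h.trans (mul_le_mul h7 (rq_sum x j) (sum_nonneg fun i _ => by positivity)
    (add_nonneg (h0 _ _) (h0 _ _)))

end Pool.Agent.Lib.G6
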