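import Pool.Agent.Lib.G6.GDefs
import Pool.Agent.Lib.MP_45349e_nt.LS.PairUp

/-!
# G6, row Sv: upper bound sieve for the primes `r ≤ x` with `N - Q r` prime, uniform in `Q` and `N`

As `pairUp` in `MP_45349e_nt/LS/PairUp.lean`: `GT.fund_lemma` with `b = 1`, `z = y := ⌊x^(1/(4K))⌋₊`, `P = GT.pr y`, `A = 1`,
`L = x` (so `A + k` runs over `Icc 1 x`), and for a prime `s ≤ y`: `Ω s = {0}` if `s ∣ Q N`, otherwise `Ω s = {0, t}` with
`0 < t < s`, `Q t ≡ N mod s`. If `r` and `N - Q r` are primes `> y` then `r % s ∉ Ω s` for all `s ≤ y`. The remaining `r` have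
`r ≤ y` or `N - Q r ≤ y`: at most `2 y`.
-/

set_option autoImplicit false

open Finset

namespace Pool.Agent.Lib.G6

/-- the sieving classes -/
private theorem sv_class (Q N : ℕ) (hN : Even N) (s : ℕ) (hs : s.Prime) :
    ∃ W : Finset ℕ, W.card ≤ 2 ∧ W.card < s ∧ (∀ u ∈ W, u < s) ∧ 1 ≤ W.card ∧
      (¬ s ∣ Q * N → W.card = 2) ∧
      ∀ r : ℕ, r % s ∈ W → s ∣ r ∨ (s : ℤ) ∣ (N : ℤ) - Q * r := by
  by_cases hd : s ∣ Q * N
  · refine ⟨{0}, by simp, ?_, ?_, by simp, fun h => absurd hd h, ?_⟩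
    · rw [card_singleton]; exact hs.one_lt
    · intro u hu
      rw [mem_singleton] at hu
      rw [hu]; exact hs.pos
    · intro r hr
      rw [mem_singleton] at hr
      exact Or.inl (Nat.dvd_of_mod_eq_zero hr)
  · have hs2 : s ≠ 2 := by
      rintro rfl
      exact hd (Dvd.dvd.mul_left hN.two_dvd Q)
    have hs3 : 2 < s := lt_of_le_of_ne hs.two_le (Ne.symm hs2)
    have hsQ : ¬ s ∣ Q := fun h => hd (Dvd.dvd.mul_right h N)
    have hsN : ¬ s ∣ N := fun h => hd (Dvd.dvd.mul_left h Q)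
    have hcop : Nat.Coprime Q s := ((Nat.Prime.coprime_iff_not_dvd hs).mpr hsQ).symm
    obtain ⟨v, hv⟩ := Nat.exists_mul_mod_eq_one_of_coprime hcop hs.one_lt
    obtain ⟨t, ht⟩ : ∃ t : ℕ, t = v * N % s := ⟨_, rfl⟩
    have htlt : t < s := by rw [ht]; exact Nat.mod_lt _ hs.pos
    have htQ : Q * t ≡ N [MOD s] := by
      have h1 : Q * t ≡ Q * (v * N) [MOD s] := by
        rw [ht]
        exact (Nat.ModEq.refl Q).mul (Nat.mod_modEq _ _)
      have h2 : Q * v ≡ 1 [MOD s] := by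
        unfold Nat.ModEq
        rw [hv.2, Nat.mod_eq_of_lt hs.one_lt]
      have h3 : Q * (v * N) ≡ N [MOD s] := by
        have := h2.mul_right N
        rwa [mul_assoc, one_mul] at this
      exact h1.trans h3
    have ht0 : t ≠ 0 := by
      intro h0
      rw [h0, mul_zero] at htQ
      exact hsN ((Nat.modEq_zero_iff_dvd).mp htQ.symm)
    refine ⟨{0, t}, card_le_two, ?_, ?_, ?_, ?_, ?_⟩
    · exact lt_of_le_of_lt card_le_two hs3
    · intro u hu
      rw [mem_insert, mem_singleton] at hu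
      rcases hu with rfl | rfl
      · exact hs.pos
      · exact htlt
    · exact Nat.one_le_iff_ne_zero.mpr (card_ne_zero_of_mem (mem_insert_self _ _))
    · intro _
      exact card_pair (Ne.symm ht0)
    · intro r hr
      rw [mem_insert, mem_singleton] at hr
      rcases hr with hr | hr
      · exact Or.inl (Nat.dvd_of_mod_eq_zero hr)
      · right
        have h1 : Q * r ≡ Q * t [MOD s] := by
          refine (Nat.ModEq.refl Q).mul ?_
          unfold Nat.ModEq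
          rw [hr, Nat.mod_eq_of_lt htlt]
        have h2 : Q * r ≡ N [MOD s] := h1.trans htQ
        have h3 := Nat.modEq_iff_dvd.mp h2
        push_cast at h3
        exact h3

/-- the count over the primes `≤ y` -/
private theorem sv_count : ∃ K : ℕ, 1 ≤ K ∧ ∀ y x Q N : ℕ, 2 ≤ y → 1 ≤ Q → 1 ≤ N → Even N →
    (((Icc 1 x).filter fun r => r.Prime ∧ Q * r < N ∧ (N - Q * r).Prime).card : ℝ) ≤
      (1 + (K : ℝ)) * (x * (Pool.Agent.Lib.GT.V y ^ 2 * (((Q * N : ℕ) : ℝ) / Nat.totient (Q * N)))) +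
        (y : ℝ) ^ K + 2 * y := by
  classical
  obtain ⟨K, hK1, hfl⟩ := Pool.Agent.Lib.GT.fund_lemma
  refine ⟨K, hK1, ?_⟩
  intro y x Q N hy hQ hN1 hN
  have hP : ∀ r ∈ Pool.Agent.Lib.GT.pr y, r.Prime ∧ r ≤ y := by
    intro r hr
    have := mem_filter.mp hr
    rw [mem_range] at this
    exact ⟨this.2, by omega⟩
  have hex : ∀ s : ℕ, ∃ W : Finset ℕ, s.Prime → (W.card ≤ 2 ∧ W.card < s ∧ (∀ u ∈ W, u < s) ∧
      1 ≤ W.card ∧ (¬ s ∣ Q * N → W.card = 2) ∧
      ∀ r : ℕ, r % s ∈ W → s ∣ r ∨ (s : ℤ) ∣ (N : ℤ) - Q * r) := by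
    intro s
    by_cases hs : s.Prime
    · obtain ⟨W, hW⟩ := sv_class Q N hN s hs
      exact ⟨W, fun _ => hW⟩
    · exact ⟨∅, fun h => absurd h hs⟩
  choose Ω hΩ using hex
  have hmain := hfl 1 le_rfl y hy (Pool.Agent.Lib.GT.pr y) hP Ω
    (fun r hr => ⟨(hΩ r (hP r hr).1).1, (hΩ r (hP r hr).1).2.1, (hΩ r (hP r hr).1).2.2.1⟩) 1 x
  have hQN : 0 < Q * N := Nat.mul_pos hQ hN1
  have hprod := Pool.Agent.Lib.MP_45349e_nt.LS.PairUp_prod y (Q * N) hQN (fun r => (Ω r).card)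
    (fun r hr _ => (hΩ r (hP r hr).1).2.2.2.1)
    (fun r hr hrd => (hΩ r (hP r hr).1).2.2.2.2.1 hrd)
    (fun r hr => (hΩ r (hP r hr).1).2.1)
  -- the covering
  obtain ⟨R, hR⟩ : ∃ R, R = (Icc 1 x).filter fun r => r.Prime ∧ Q * r < N ∧ (N - Q * r).Prime :=
    ⟨_, rfl⟩
  obtain ⟨T, hT⟩ : ∃ T, T = (Finset.range x).filter
      (fun k => ∀ r ∈ Pool.Agent.Lib.GT.pr y, (1 + k) % r ∉ Ω r) := ⟨_, rfl⟩
  rw [← hT] at hmain
  rw [← hR]
  have hcov : R ⊆ T.image (fun k => 1 + k) ∪ (Icc 1 y ∪ R.filter fun r => N - Q * r ≤ y) := by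
    intro r hr
    have hr0 := hr
    rw [hR, mem_filter, mem_Icc] at hr
    obtain ⟨⟨hr1, hrx⟩, hrp, hrN, hrNp⟩ := hr
    rw [mem_union, mem_union]
    by_cases h1 : r ≤ y
    · exact Or.inr (Or.inl (mem_Icc.mpr ⟨hr1, h1⟩))
    · by_cases h2 : N - Q * r ≤ y
      · exact Or.inr (Or.inr (mem_filter.mpr ⟨hr0, h2⟩))
      · left
        rw [mem_image]
        refine ⟨r - 1, ?_, by omega⟩
        rw [hT, mem_filter, mem_range]
        refine ⟨by omega, fun s hs hmem => ?_⟩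
        rw [show 1 + (r - 1) = r by omega] at hmem
        have hsp := (hP s hs).1
        have hsy := (hP s hs).2
        rcases (hΩ s hsp).2.2.2.2.2 r hmem with h3 | h3
        · have := (Nat.prime_dvd_prime_iff_eq hsp hrp).mp h3
          omega
        · have h4 : s ∣ N - Q * r := by
            have h5 : ((N - Q * r : ℕ) : ℤ) = (N : ℤ) - Q * r := by
              rw [Nat.cast_sub hrN.le]
              push_cast
              ring
            rw [← h5] at h3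
            exact_mod_cast h3
          have := (Nat.prime_dvd_prime_iff_eq hsp hrNp).mp h4
          omega
  have hcard3 : (R.filter fun r => N - Q * r ≤ y).card ≤ y := by
    have h1 : (R.filter fun r => N - Q * r ≤ y).card ≤ (Icc 1 y).card := by
      refine card_le_card_of_injOn (fun r => N - Q * r) ?_ ?_
      · intro r hr
        rw [mem_coe, mem_filter, hR, mem_filter] at hr
        have := hr.1.2.2.1
        show N - Q * r ∈ ((Icc 1 y : Finset ℕ) : Set ℕ)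
        rw [mem_coe, mem_Icc]
        omega
      · intro a ha b hb hab
        rw [mem_coe, mem_filter, hR, mem_filter] at ha hb
        have h1 := ha.1.2.2.1
        have h2 := hb.1.2.2.1
        have h3 : Q * a = Q * b := by
          have : N - Q * a = N - Q * b := hab
          omega
        exact Nat.eq_of_mul_eq_mul_left hQ h3
    simpa using h1
  have hcardR : (R.card : ℝ) ≤ T.card + 2 * y := by
    have h1 : R.card ≤ T.card + (y + y) := by
      refine (card_le_card hcov).trans ((card_union_le _ _).trans ?_)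
      refine Nat.add_le_add card_image_le ((card_union_le _ _).trans ?_)
      exact Nat.add_le_add (by simp) hcard3
    have h2 : (R.card : ℝ) ≤ ((T.card + (y + y) : ℕ) : ℝ) := by exact_mod_cast h1
    push_cast at h2
    linarith
  have h3 := (abs_le.mp hmain).2
  have hNr : (0 : ℝ) ≤ x := Nat.cast_nonneg x
  have h4 : (x : ℝ) * ∏ r ∈ Pool.Agent.Lib.GT.pr y, (1 - ((Ω r).card : ℝ) / r) ≤
      x * (Pool.Agent.Lib.GT.V y ^ 2 * (((Q * N : ℕ) : ℝ) / Nat.totient (Q * N))) :=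
    mul_le_mul_of_nonneg_left hprod hNr
  have h5 : 0 ≤ (x : ℝ) * ∏ r ∈ Pool.Agent.Lib.GT.pr y, (1 - ((Ω r).card : ℝ) / r) := by
    refine mul_nonneg hNr (Finset.prod_nonneg fun r hr => ?_)
    have h0 : (0 : ℝ) < r := by exact_mod_cast (hP r hr).1.pos
    rw [sub_nonneg, div_le_one h0]
    exact_mod_cast (hΩ r (hP r hr).1).2.1.le
  have hK0 : (0 : ℝ) ≤ K := Nat.cast_nonneg K
  have h6 : (K : ℝ) * (1 / 2) ^ 1 *
      (x * ∏ r ∈ Pool.Agent.Lib.GT.pr y, (1 - ((Ω r).card : ℝ) / r)) ≤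
      K * (x * (Pool.Agent.Lib.GT.V y ^ 2 * (((Q * N : ℕ) : ℝ) / Nat.totient (Q * N)))) := by
    have h7 : (K : ℝ) * (1 / 2) ^ 1 ≤ K := by
      rw [pow_one]
      linarith
    exact mul_le_mul h7 h4 h5 hK0
  rw [mul_one] at h3
  linarith

theorem sv : ∃ (C : ℝ) (x0 : ℕ), 0 < C ∧ ∀ x Q N : ℕ, x0 ≤ x → 1 ≤ Q → 1 ≤ N → Even N → Nat.Coprime Q N →
    (((Icc 1 x).filter fun r => r.Prime ∧ Q * r < N ∧ (N - Q * r).Prime).card : ℝ) ≤
      C * (x / (Real.log x) ^ 2) * (((Q * N : ℕ) : ℝ) / (Nat.totient (Q * N) : ℝ)) := by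
  obtain ⟨K, hK1, hcount⟩ := sv_count
  have hKr : (1 : ℝ) ≤ K := by exact_mod_cast hK1
  have hK0 : (0 : ℝ) < K := by linarith
  -- the conditions on `x`
  have hE1 : ∀ᶠ N : ℕ in Filter.atTop, (4 : ℝ) ≤ (N : ℝ) ^ (1 / (4 * K) : ℝ) := by
    have h1 : Filter.Tendsto (fun x : ℝ => x ^ (1 / (4 * K) : ℝ)) Filter.atTop Filter.atTop :=
      tendsto_rpow_atTop (by positivity)
    exact (h1.comp tendsto_natCast_atTop_atTop).eventually_ge_atTop 4
  have hE2 : ∀ᶠ N : ℕ in Filter.atTop, (Real.log N) ^ 2 ≤ (N : ℝ) ^ (3 / 4 : ℝ) := by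
    have h1 := (isLittleO_log_rpow_rpow_atTop (s := 3 / 4) (2 : ℝ) (by norm_num)).bound
      (show (0 : ℝ) < 1 by norm_num)
    have h2 := tendsto_natCast_atTop_atTop (R := ℝ) |>.eventually h1
    filter_upwards [h2, Filter.eventually_ge_atTop 1] with N hN hN1
    have hN1r : (1 : ℝ) ≤ N := by exact_mod_cast hN1
    have hl : 0 ≤ Real.log N := Real.log_nonneg hN1r
    rw [Real.norm_of_nonneg (by positivity), Real.norm_of_nonneg (by positivity), one_mul] at hN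
    rw [← Real.rpow_natCast]
    exact_mod_cast hN
  obtain ⟨x0, hx0⟩ := Filter.eventually_atTop.mp (hE1.and (hE2.and (Filter.eventually_ge_atTop 3)))
  refine ⟨(1 + (K : ℝ)) * (8 * K) ^ 2 + 3, x0, by positivity, ?_⟩
  intro N Q M hN hQ hM1 hM _
  obtain ⟨h4, hlog2, hN3⟩ := hx0 N hN
  have hN3r : (3 : ℝ) ≤ N := by exact_mod_cast hN3
  have hNpos : (0 : ℝ) < N := by linarith
  have hlogN : 0 < Real.log N := Real.log_pos (by linarith)
  obtain ⟨x, hx⟩ : ∃ x : ℝ, x = (N : ℝ) ^ (1 / (4 * K) : ℝ) := ⟨_, rfl⟩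
  rw [← hx] at h4
  obtain ⟨y, hy⟩ : ∃ y : ℕ, y = ⌊x⌋₊ := ⟨_, rfl⟩
  have hx0 : 0 ≤ x := by linarith
  have hyx : (y : ℝ) ≤ x := by rw [hy]; exact Nat.floor_le hx0
  have hxy : x - 1 < y := by rw [hy]; exact Nat.sub_one_lt_floor x
  have hy2 : 2 ≤ y := by
    have : (2 : ℝ) < y := by linarith
    exact_mod_cast this.le
  have hy0 : (0 : ℝ) < y := by
    have : (0 : ℝ) < ((2 : ℕ) : ℝ) := by norm_num
    exact lt_of_lt_of_le this (by exact_mod_cast hy2)
  -- powers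
  have hxK : x ^ K = (N : ℝ) ^ (1 / 4 : ℝ) := by
    rw [hx, ← Real.rpow_natCast, ← Real.rpow_mul hNpos.le]
    congr 1
    field_simp
  have hyK : (y : ℝ) ^ K ≤ (N : ℝ) ^ (1 / 4 : ℝ) := by
    rw [← hxK]
    exact pow_le_pow_left₀ hy0.le hyx K
  have hy1 : (1 : ℝ) ≤ y := by
    have : ((1 : ℕ) : ℝ) ≤ y := by exact_mod_cast (by omega : 1 ≤ y)
    simpa using this
  have hyN : (y : ℝ) ≤ (N : ℝ) ^ (1 / 4 : ℝ) := by
    refine le_trans ?_ hyK
    calc (y : ℝ) = (y : ℝ) ^ 1 := (pow_one _).symm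
      _ ≤ (y : ℝ) ^ K := pow_le_pow_right₀ hy1 hK1
  -- logarithms
  have hlogx : Real.log x = 1 / (4 * K) * Real.log N := by
    rw [hx, Real.log_rpow hNpos]
  have hlogy : Real.log N / (8 * K) ≤ Real.log y := by
    have h5 : x ≤ (y : ℝ) ^ 2 := by nlinarith
    have h6 : Real.log x ≤ 2 * Real.log y := by
      have := Real.log_le_log (by linarith) h5
      rwa [Real.log_pow, Nat.cast_ofNat] at this
    rw [hlogx] at h6
    have h7 : Real.log N / (8 * K) = 1 / (4 * K) * Real.log N / 2 := by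
      field_simp
      ring
    rw [h7]
    linarith
  have hlogy0 : 0 < Real.log y := lt_of_lt_of_le (by positivity) hlogy
  have hV : Pool.Agent.Lib.GT.V y ≤ 8 * K / Real.log N := by
    refine (Pool.Agent.Lib.GT.V_le y hy2).trans ?_
    rw [div_le_div_iff₀ hlogy0 hlogN]
    rw [div_le_iff₀ (by positivity)] at hlogy
    linarith
  have hV0 : 0 ≤ Pool.Agent.Lib.GT.V y := (Pool.Agent.Lib.GT.V_pos y).le
  have hV2 : Pool.Agent.Lib.GT.V y ^ 2 ≤ (8 * K) ^ 2 / (Real.log N) ^ 2 := by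
    rw [← div_pow]
    exact pow_le_pow_left₀ hV0 hV 2
  -- `d / φ(d) ≥ 1`
  obtain ⟨d, hd⟩ : ∃ d, d = Q * M := ⟨_, rfl⟩
  have hd0 : 0 < d := by rw [hd]; exact Nat.mul_pos hQ hM1
  have hφ0 : (0 : ℝ) < Nat.totient d := by exact_mod_cast Nat.totient_pos.mpr hd0
  have hdφ : 1 ≤ (d : ℝ) / Nat.totient d := by
    rw [le_div_iff₀ hφ0, one_mul]
    exact_mod_cast Nat.totient_le d
  refine (hcount y N Q M hy2 hQ hM1 hM).trans ?_
  rw [← hd]
  have h8 : (1 + (K : ℝ)) * (N * (Pool.Agent.Lib.GT.V y ^ 2 * ((d : ℝ) / Nat.totient d))) ≤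
      (1 + (K : ℝ)) * (N * ((8 * K) ^ 2 / (Real.log N) ^ 2 * ((d : ℝ) / Nat.totient d))) := by
    refine mul_le_mul_of_nonneg_left (mul_le_mul_of_nonneg_left
      (mul_le_mul_of_nonneg_right hV2 (by linarith)) hNpos.le) (by linarith)
  have h9 : (N : ℝ) ^ (1 / 4 : ℝ) ≤ N / (Real.log N) ^ 2 := by
    rw [le_div_iff₀ (by positivity)]
    calc (N : ℝ) ^ (1 / 4 : ℝ) * (Real.log N) ^ 2 ≤
          (N : ℝ) ^ (1 / 4 : ℝ) * (N : ℝ) ^ (3 / 4 : ℝ) :=
          mul_le_mul_of_nonneg_left hlog2 (by positivity)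
      _ = N := by
          rw [← Real.rpow_add hNpos]
          norm_num
  have h10 : (0 : ℝ) ≤ N / (Real.log N) ^ 2 := by positivity
  have h11 : (N : ℝ) ^ (1 / 4 : ℝ) ≤ N / (Real.log N) ^ 2 * ((d : ℝ) / Nat.totient d) := by
    refine h9.trans ?_
    calc (N : ℝ) / (Real.log N) ^ 2 = N / (Real.log N) ^ 2 * 1 := (mul_one _).symm
      _ ≤ _ := mul_le_mul_of_nonneg_left hdφ h10
  have h12 : (1 + (K : ℝ)) * (N * ((8 * K) ^ 2 / (Real.log N) ^ 2 * ((d : ℝ) / Nat.totient d))) =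
      (1 + (K : ℝ)) * (8 * K) ^ 2 * (N / (Real.log N) ^ 2 * ((d : ℝ) / Nat.totient d)) := by
    ring
  have h13 : ((1 + (K : ℝ)) * (8 * K) ^ 2 + 3) * (N / (Real.log N) ^ 2) *
      ((d : ℝ) / Nat.totient d) =
      (1 + (K : ℝ)) * (8 * K) ^ 2 * (N / (Real.log N) ^ 2 * ((d : ℝ) / Nat.totient d)) +
        3 * (N / (Real.log N) ^ 2 * ((d : ℝ) / Nat.totient d)) := by
    ring
  rw [h13]
  linarith

end Pool.Agent.Lib.G6
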