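import Pool.Agent.Lib.G6.Bd1
import Pool.Agent.Lib.G6.Sv
import Pool.Agent.Lib.G6.Ph
import Pool.Agent.Lib.G6.Rq
import Pool.Agent.Lib.G6.Mt
import Pool.Agent.Lib.G5.Q8

/-!
# G6, row Bd: almost all representations are counted by `TT`

PROOF IN WORDS. `l = log Y`, `bd1` with `Z = ⌊√Y⌋` (`Nat.sqrt Y`; `w'^(4k) ≤ Y` so `w'^k ≤ Z`) and `z = w'`. For `Q ∈ QB (k-1) w w' (N/w')`, `x = N/Q ≥ w'` (`Q ≤ N/w'`), `w' + 1 ≥ Y^(1/n)`, so
`log x ≥ l/(2n)` for large `Y`. `sv`: `|RR Q N| ≤ C x/(log x)^2 (QN)/φ(QN) ≤ C (N/Q) (4 n^2/l^2) (Q/φ(Q)) (N/φ(N))` (coprime: `Nat.totient_mul`) `≤ C (N/Q)(4n^2/l^2) 2^(k-1) 4 SS N` (ph, ph2).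
Sum over `Q` with `rq` (`j = k - 2`, `x = N/w' ≤ 2Y`; `sg1` is monotone, or apply `mt` with this `x`) and `mt` with `ε' = ε/(C 64 n^2 2^k)`: at most `ε/2 SS N (Y/l^2) LL^(k-1)` as `N ≤ 2Y`.
The other terms `√Y + 2Y/l^4 + log_2 (2Y) + 1 ≤ ε/4 Y/l^2 ≤ ε/2 SS N Y/l^2 LL^(k-1)` for large `Y` by `q8` (`SS N ≥ 1/2`), `LL ≥ 1`.
-/

set_option autoImplicit false
set_option maxHeartbeats 1000000

open Finset

namespace Pool.Agent.Lib.G6

open Pool.Agent.Lib.G3 (SS)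
open Pool.Agent.Lib.G5 (TT PP sg1)

/-- one `Q` -/
private lemma bd_term {C : ℝ} {x0 k n : ℕ} (hC : 0 < C)
    (hsv : ∀ x Q N : ℕ, x0 ≤ x → 1 ≤ Q → 1 ≤ N → Even N → Nat.Coprime Q N →
      (((Icc 1 x).filter fun r => r.Prime ∧ Q * r < N ∧ (N - Q * r).Prime).card : ℝ) ≤
        C * (x / (Real.log x) ^ 2) * (((Q * N : ℕ) : ℝ) / (Nat.totient (Q * N) : ℝ)))
    {Q N w' : ℕ} {l : ℝ} (hl : 0 < l) (hn : 1 ≤ n) (hx0 : x0 ≤ w') (hw' : l / (2 * n) ≤ Real.log w') (hw1 : 1 ≤ w')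
    (hQ1 : 1 ≤ Q) (hQ2 : Q ≤ N / w') (hΩ : ArithmeticFunction.cardFactors Q = k - 1) (hN1 : 1 ≤ N) (hNe : Even N)
    (hco : Nat.Coprime Q N) :
    ((RR Q N).card : ℝ) ≤ (C * 16 * n ^ 2 * 2 ^ (k - 1) * SS N * N / l ^ 2) * (1 / Q) := by
  have hn1 : (1 : ℝ) ≤ n := by exact_mod_cast hn
  have hSS := Pool.Agent.Lib.G5.q8 N hNe
  have hQr : (1 : ℝ) ≤ Q := by exact_mod_cast hQ1
  have hwx : w' ≤ N / Q := by
    rw [Nat.le_div_iff_mul_le (by omega)] at hQ2 ⊢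
    rwa [mul_comm]
  have h1 := hsv (N / Q) Q N (hx0.trans hwx) hQ1 hN1 hNe hco
  have hw1' : (1 : ℝ) ≤ w' := by exact_mod_cast hw1
  have hwx' : (w' : ℝ) ≤ ((N / Q : ℕ) : ℝ) := by exact_mod_cast hwx
  have hln : 0 < l / (2 * n) := by positivity
  have h2 : l / (2 * n) ≤ Real.log ((N / Q : ℕ) : ℝ) := hw'.trans (Real.log_le_log (by linarith) hwx')
  have h3 : ((N / Q : ℕ) : ℝ) / (Real.log ((N / Q : ℕ) : ℝ)) ^ 2 ≤ ((N : ℝ) / Q) / (l / (2 * n)) ^ 2 := by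
    have : ((N / Q : ℕ) : ℝ) ≤ (N : ℝ) / Q := Nat.cast_div_le
    gcongr
  have h4 : (((Q * N : ℕ) : ℝ) / (Nat.totient (Q * N) : ℝ)) ≤ 2 ^ (k - 1) * (4 * SS N) := by
    rw [Nat.totient_mul hco, Nat.cast_mul, Nat.cast_mul, ← div_mul_div_comm]
    have a1 := ph2 hQ1 hΩ
    have a2 := ph hNe hN1
    have a3 : (0 : ℝ) ≤ (N : ℝ) / (Nat.totient N : ℝ) := by positivity
    gcongr
  have h5 : (0 : ℝ) ≤ (((Q * N : ℕ) : ℝ) / (Nat.totient (Q * N) : ℝ)) := by positivity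
  have h6 : (0 : ℝ) ≤ ((N : ℝ) / Q) / (l / (2 * n)) ^ 2 := by positivity
  unfold RR
  calc _ ≤ C * (((N / Q : ℕ) : ℝ) / (Real.log ((N / Q : ℕ) : ℝ)) ^ 2) * (((Q * N : ℕ) : ℝ) / (Nat.totient (Q * N) : ℝ)) := h1
    _ ≤ C * (((N : ℝ) / Q) / (l / (2 * n)) ^ 2) * (2 ^ (k - 1) * (4 * SS N)) := by gcongr
    _ = (C * 16 * n ^ 2 * 2 ^ (k - 1) * SS N * N / l ^ 2) * (1 / Q) := by
        field_simp
        ring

/-- the small terms -/
private lemma bd_small {ε l : ℝ} {Y w N : ℕ} (hε : 0 < ε) (hl : 2 ≤ l) (hY : (2 : ℝ) ≤ Y) (hlY : l = Real.log Y)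
    (h1 : 16 * l ^ 2 ≤ ε * Real.sqrt Y) (h2 : 4 * l ≤ Real.sqrt Y) (h3 : 16 ≤ ε * l ^ 2) (hw : l ^ 4 ≤ w)
    (hYN : Y < N) (hN : N ≤ 2 * Y) :
    ((Nat.sqrt Y : ℕ) : ℝ) + (N : ℝ) / w + (Nat.log 2 N : ℕ) ≤ ε / 4 * (Y / l ^ 2) := by
  have hs0 : 0 < Real.sqrt Y := Real.sqrt_pos.mpr (by linarith)
  have hl0 : 0 < l := by linarith
  have hY0 : (0 : ℝ) < Y := by linarith
  have a1 : ((Nat.sqrt Y : ℕ) : ℝ) ≤ Real.sqrt Y := Real.nat_sqrt_le_real_sqrt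
  have a2 : (N : ℝ) / w ≤ 2 * Y / l ^ 4 := by
    have : (N : ℝ) ≤ 2 * Y := by exact_mod_cast hN
    gcongr
  have a3 : ((Nat.log 2 N : ℕ) : ℝ) ≤ Real.sqrt Y := by
    have b1 : 2 ^ (Nat.log 2 N) ≤ N := Nat.pow_log_le_self 2 (by omega)
    have b2 : ((2 : ℝ)) ^ (Nat.log 2 N) ≤ 2 * Y := by
      calc ((2 : ℝ)) ^ (Nat.log 2 N) ≤ N := by exact_mod_cast b1
        _ ≤ 2 * Y := by exact_mod_cast hN
    have b3 : (Nat.log 2 N : ℕ) * Real.log 2 ≤ 2 * l := by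
      rw [← Real.log_pow]
      calc Real.log ((2 : ℝ) ^ (Nat.log 2 N)) ≤ Real.log (Y * Y) := Real.log_le_log (by positivity) (b2.trans (by gcongr))
        _ = 2 * l := by rw [Real.log_mul (by linarith) (by linarith), hlY]; ring
    have b4 : (0.5 : ℝ) ≤ Real.log 2 := by linarith [Real.log_two_gt_d9]
    have b5 : (0 : ℝ) ≤ (Nat.log 2 N : ℕ) := Nat.cast_nonneg _
    nlinarith
  have a4 : Real.sqrt Y ≤ ε / 16 * (Y / l ^ 2) := by
    have b1 : Real.sqrt Y * Real.sqrt Y = Y := Real.mul_self_sqrt hY0.le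
    rw [← mul_div_assoc, le_div_iff₀ (by positivity)]
    nlinarith
  have a5 : 2 * Y / l ^ 4 ≤ ε / 8 * (Y / l ^ 2) := by
    rw [← mul_div_assoc, div_le_div_iff₀ (by positivity) (by positivity)]
    have b1 : 16 * (Y * l ^ 2) ≤ (ε * l ^ 2) * (Y * l ^ 2) := by gcongr
    nlinarith
  linarith

theorem bd (k c n : ℕ) (hk : 2 ≤ k) (hn : 1 ≤ n) (ε : ℝ) (hε : 0 < ε) : ∃ y0 : ℝ, ∀ Y w w' N : ℕ, y0 ≤ Y → (Real.log Y) ^ 4 ≤ w →
    (w : ℝ) ≤ (Real.log Y) ^ c → w ≤ w' → w' ^ (4 * k) ≤ Y → Y ≤ (w' + 1) ^ n → Y < N → N ≤ 2 * Y → Even N →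
      |(TK k N : ℝ) - TT k w w' N| ≤ ε * (SS N * (Y / (Real.log Y) ^ 2 * (Real.log (Real.log Y)) ^ (k - 1))) := by
  obtain ⟨C, x0, hC, hsv⟩ := sv
  have hn1 : (1 : ℝ) ≤ n := by exact_mod_cast hn
  set ε' : ℝ := ε / (C * 64 * n ^ 2 * 2 ^ (k - 1)) with hε'def
  have hε' : 0 < ε' := by positivity
  obtain ⟨y1, hmt⟩ := mt k c n hk hn ε' hε'
  have e1 : ∀ᶠ y : ℝ in Filter.atTop, (2 : ℝ) * n + n * Real.log (x0 + 3) + 16 / ε ≤ Real.log y :=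
    Real.tendsto_log_atTop.eventually_ge_atTop _
  have hLL : Filter.Tendsto (fun y : ℝ => Real.log (Real.log y)) Filter.atTop Filter.atTop :=
    Real.tendsto_log_atTop.comp Real.tendsto_log_atTop
  have e2 : ∀ᶠ y : ℝ in Filter.atTop, (1 : ℝ) ≤ Real.log (Real.log y) := hLL.eventually_ge_atTop _
  have e3 : ∀ᶠ y : ℝ in Filter.atTop, ‖(Real.log y) ^ 4‖ ≤ (min (ε ^ 2 / 256) (1 / 16)) * ‖y‖ :=
    (Real.isLittleO_pow_log_id_atTop (n := 4)).bound (by positivity)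
  obtain ⟨y2, hy2⟩ := Filter.eventually_atTop.mp (e1.and (e2.and e3))
  refine ⟨max (max y1 y2) 2, fun Y w w' N hY hw4 hwc hww hw'4 hw'n hYN hN hNe => ?_⟩
  have hY1 : y1 ≤ Y := (le_max_left _ _).trans ((le_max_left _ _).trans hY)
  obtain ⟨g1, g2, g3⟩ := hy2 Y ((le_max_right _ _).trans ((le_max_left _ _).trans hY))
  have hY2 : (2 : ℝ) ≤ Y := (le_max_right _ _).trans hY
  set l : ℝ := Real.log Y with hldef
  set LL : ℝ := Real.log l with hLLdef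
  have hx03 : 0 ≤ Real.log ((x0 : ℝ) + 3) := Real.log_nonneg (by have : (0 : ℝ) ≤ x0 := Nat.cast_nonneg _; linarith)
  have h16 : 0 < 16 / ε := by positivity
  have hl2 : 2 ≤ l := by nlinarith
  have hl0 : 0 < l := by linarith
  have hs0 : 0 < Real.sqrt Y := Real.sqrt_pos.mpr (by linarith)
  -- square root
  rw [Real.norm_of_nonneg (by positivity), Real.norm_of_nonneg (by linarith)] at g3
  have s1 : 16 * l ^ 2 ≤ ε * Real.sqrt Y := by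
    have h1 : l ^ 4 ≤ ε ^ 2 / 256 * Y := g3.trans (by gcongr; exact min_le_left _ _)
    have h2 : 16 * l ^ 2 / ε ≤ Real.sqrt Y := by
      apply Real.le_sqrt_of_sq_le
      calc (16 * l ^ 2 / ε) ^ 2 = 256 / ε ^ 2 * l ^ 4 := by ring
        _ ≤ 256 / ε ^ 2 * (ε ^ 2 / 256 * Y) := by gcongr
        _ = Y := by field_simp
    rw [div_le_iff₀ hε] at h2
    linarith
  have s2 : 4 * l ≤ Real.sqrt Y := by
    have h1 : l ^ 4 ≤ 1 / 16 * Y := g3.trans (by gcongr; exact min_le_right _ _)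
    apply Real.le_sqrt_of_sq_le
    have h2 : l ^ 2 ≤ l ^ 4 := pow_le_pow_right₀ (by linarith) (by norm_num)
    nlinarith
  have s3 : 16 ≤ ε * l ^ 2 := by
    have h1 : 16 / ε ≤ l := by
      have : 0 ≤ (n : ℝ) * Real.log (x0 + 3) := by positivity
      linarith
    rw [div_le_iff₀ hε] at h1
    nlinarith
  -- w' is large
  have hlw : l ≤ n * Real.log ((w' : ℝ) + 1) := by
    have h1 : (Y : ℝ) ≤ ((w' : ℝ) + 1) ^ n := by exact_mod_cast hw'n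
    calc l ≤ Real.log (((w' : ℝ) + 1) ^ n) := Real.log_le_log (by linarith) h1
      _ = n * Real.log ((w' : ℝ) + 1) := Real.log_pow _ _
  have hwx0 : x0 + 2 ≤ w' := by
    have h1 : n * Real.log ((x0 : ℝ) + 3) ≤ n * Real.log ((w' : ℝ) + 1) := by linarith
    have h2 : Real.log ((x0 : ℝ) + 3) ≤ Real.log ((w' : ℝ) + 1) := le_of_mul_le_mul_left h1 (by linarith)
    have h3 : (x0 : ℝ) + 3 ≤ (w' : ℝ) + 1 := (Real.log_le_log_iff (by positivity) (by positivity)).mp h2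
    have h4 : (x0 : ℝ) + 2 ≤ w' := by linarith
    exact_mod_cast h4
  have hw1 : 1 ≤ w' := by omega
  have hw1' : (1 : ℝ) ≤ w' := by exact_mod_cast hw1
  have hlw' : l / (2 * n) ≤ Real.log (w' : ℝ) := by
    have h1 : Real.log ((w' : ℝ) + 1) ≤ Real.log (w' : ℝ) + 1 := by
      calc Real.log ((w' : ℝ) + 1) ≤ Real.log (2 * w') := Real.log_le_log (by linarith) (by linarith)
        _ = Real.log 2 + Real.log w' := Real.log_mul (by norm_num) (by linarith)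
        _ ≤ Real.log (w' : ℝ) + 1 := by linarith [Real.log_two_lt_d9]
    rw [div_le_iff₀ (by linarith)]
    have h2 : l ≤ n * (Real.log (w' : ℝ) + 1) := hlw.trans (by gcongr)
    nlinarith
  have hwpos : 1 ≤ w := by
    have h1 : (0 : ℝ) < w := lt_of_lt_of_le (by positivity) hw4
    have h2 : 0 < w := by exact_mod_cast h1
    omega
  have hZ : w' ^ k ≤ Nat.sqrt Y := by
    rw [Nat.le_sqrt]
    calc w' ^ k * w' ^ k = w' ^ (k + k) := (pow_add _ _ _).symm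
      _ ≤ w' ^ (4 * k) := Nat.pow_le_pow_right hw1 (by omega)
      _ ≤ Y := hw'4
  obtain ⟨b1, b2⟩ := bd1 k w w' N (Nat.sqrt Y) w' hk hwpos hww hZ hZ hww
  have hSS := Pool.Agent.Lib.G5.q8 N hNe
  have hN1 : 1 ≤ N := by omega
  -- the sum over `Q`
  have hsum : ∑ Q ∈ (QB (k - 1) w w' (N / w')).filter (fun Q => Nat.Coprime Q N), ((RR Q N).card : ℝ) ≤
      ε / 2 * (SS N * (Y / l ^ 2 * LL ^ (k - 1))) := by
    have hb : (0 : ℝ) ≤ C * 16 * n ^ 2 * 2 ^ (k - 1) * SS N * N / l ^ 2 := by positivity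
    calc ∑ Q ∈ (QB (k - 1) w w' (N / w')).filter (fun Q => Nat.Coprime Q N), ((RR Q N).card : ℝ)
        ≤ ∑ Q ∈ (QB (k - 1) w w' (N / w')).filter (fun Q => Nat.Coprime Q N),
            (C * 16 * n ^ 2 * 2 ^ (k - 1) * SS N * N / l ^ 2) * (1 / Q) := by
          apply Finset.sum_le_sum
          classical
          intro Q hQ
          rw [mem_filter] at hQ
          obtain ⟨hQB, hco⟩ := hQ
          unfold QB at hQB
          rw [mem_filter, mem_Icc] at hQB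
          exact bd_term hC hsv hl0 hn (by omega) hlw' hw1 hQB.1.1 hQB.1.2 hQB.2.1 hN1 hNe hco
      _ ≤ ∑ Q ∈ QB (k - 1) w w' (N / w'), (C * 16 * n ^ 2 * 2 ^ (k - 1) * SS N * N / l ^ 2) * (1 / Q) := by
          apply Finset.sum_le_sum_of_subset_of_nonneg (filter_subset _ _)
          intro Q _ _
          positivity
      _ = (C * 16 * n ^ 2 * 2 ^ (k - 1) * SS N * N / l ^ 2) * ∑ Q ∈ QB (k - 1) w w' (N / w'), (1 : ℝ) / Q := by
          rw [Finset.mul_sum]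
      _ ≤ (C * 16 * n ^ 2 * 2 ^ (k - 1) * SS N * N / l ^ 2) * (ε' * LL ^ (k - 1)) := by
          have h1 := rq (k - 2) w w' (N / w')
          rw [show k - 2 + 1 = k - 1 by omega] at h1
          have h2 := hmt Y w w' (N / w') hY1 hwc hw'n ((Nat.div_le_self _ _).trans hN)
          exact mul_le_mul_of_nonneg_left (h1.trans h2) hb
      _ ≤ (C * 16 * n ^ 2 * 2 ^ (k - 1) * SS N * (2 * Y) / l ^ 2) * (ε' * LL ^ (k - 1)) := by
          have h1 : (N : ℝ) ≤ 2 * Y := by exact_mod_cast hN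
          have h2 : 0 ≤ LL := by linarith
          gcongr
      _ = ε / 2 * (SS N * (Y / l ^ 2 * LL ^ (k - 1))) := by
          rw [hε'def]
          field_simp
          ring
  have hsm := bd_small (Y := Y) (w := w) (N := N) hε hl2 hY2 hldef s1 s2 s3 hw4 hYN hN
  have hlow : ε / 4 * (Y / l ^ 2) ≤ ε / 2 * (SS N * (Y / l ^ 2 * LL ^ (k - 1))) := by
    have h1 : 1 ≤ LL ^ (k - 1) := one_le_pow₀ g2
    have h2 : 0 ≤ (Y : ℝ) / l ^ 2 := by positivity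
    have h3 : (1 / 2) * (Y / l ^ 2 * 1) ≤ SS N * (Y / l ^ 2 * LL ^ (k - 1)) := by gcongr
    calc ε / 4 * (Y / l ^ 2) = ε / 2 * ((1 / 2) * (Y / l ^ 2 * 1)) := by ring
      _ ≤ _ := mul_le_mul_of_nonneg_left h3 (by positivity)
  have b1' : (TT k w w' N : ℝ) ≤ TK k N := by exact_mod_cast b1
  rw [abs_of_nonneg (by linarith)]
  calc (TK k N : ℝ) - TT k w w' N ≤ ((Nat.sqrt Y : ℕ) : ℝ) + (N : ℝ) / w + (Nat.log 2 N : ℕ) +
        ∑ Q ∈ (QB (k - 1) w w' (N / w')).filter (fun Q => Nat.Coprime Q N), ((RR Q N).card : ℝ) := by linarith [b2]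
    _ ≤ ε / 4 * (Y / l ^ 2) + ε / 2 * (SS N * (Y / l ^ 2 * LL ^ (k - 1))) := add_le_add hsm hsum
    _ ≤ ε / 2 * (SS N * (Y / l ^ 2 * LL ^ (k - 1))) + ε / 2 * (SS N * (Y / l ^ 2 * LL ^ (k - 1))) := by gcongr
    _ = ε * (SS N * (Y / l ^ 2 * LL ^ (k - 1))) := by ring

end Pool.Agent.Lib.G6
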