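import Pool.Agent.Lib.G6.Bd1
import Pool.Agent.Lib.G6.Sv
import Pool.Agent.Lib.G6.Ph
import Pool.Agent.Lib.G6.Rq
import Pool.Agent.Lib.G6.Mt7
import Pool.Agent.Lib.G5.Q8

/-!
# G6, row Bd7 (variant of the landed Bd.lean for smaller `w'`): almost all representations are counted by `TT`

PROOF IN WORDS. Copy Bd.lean. Changes: in `bd1` take `z = ⌊Y^(1/(4k))⌋` (so `z^k ≤ Y^(1/4) ≤ Nat.sqrt Y = Z`, `w ≤ z` for large `Y`; `w'^k ≤ Z` from `w'^(4k) ≤ Y`), so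
`x = N/Q ≥ z` and `log x ≥ log Y/(8k)` for large `Y` (`n` of Bd.lean becomes `4k`), and `mt7` in the place of `mt` (with `ε` divided by the constant; `η` is the one of `mt7`).
-/

set_option autoImplicit false
set_option maxHeartbeats 1000000

open Finset

namespace Pool.Agent.Lib.G6

open Pool.Agent.Lib.G3 (SS)
open Pool.Agent.Lib.G5 (TT PP sg1)

/-- one `Q` -/
private lemma bd7_term {C : ℝ} {x0 k n : ℕ} (hC : 0 < C)
    (hsv : ∀ x Q N : ℕ, x0 ≤ x → 1 ≤ Q → 1 ≤ N → Even N → Nat.Coprime Q N →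
      (((Icc 1 x).filter fun r => r.Prime ∧ Q * r < N ∧ (N - Q * r).Prime).card : ℝ) ≤
        C * (x / (Real.log x) ^ 2) * (((Q * N : ℕ) : ℝ) / (Nat.totient (Q * N) : ℝ)))
    {Q N w' : ℕ} {l : ℝ} (hl : 0 < l) (hn : 1 ≤ n) (hx0 : x0 ≤ w') (hw' : l / (2 * n) ≤ Real.log w') (hw1 : 1 ≤ w')
    (hQ1 : 1 ≤ Q) (hQ2 : Q ≤ N / w') (hΩ : ArithmeticFunction.cardFactors Q = k - 1) (hN1 : 1 ≤ N) (hNe : Even N)
    (hco : Nat.Coprime Q N) :
    ((RR Q N).card : ℝ) ≤ (C * 16 * n ^ 2 * 2 ^ (k - 1) * SS N * N / l ^ 2) * (1 / Q) := by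
  have hn1 : (1 : ℝ) ≤ n := by exact_mod_cast hn
  have hSS := Pool.Agent.Lib.G5.q8 N hNe
  have hQr : (1 : ℝ) ≤ Q := by exact_mod_cast hQ1
  have hwx : w' ≤ N / Q := by
    rw [Nat.le_div_iff_mul_le (by omega)] at hQ2 ⊢
    rwa [mul_comm]
  have h1 := hsv (N / Q) Q N (hx0.trans hwx) hQ1 hN1 hNe hco
  have hw1' : (1 : ℝ) ≤ w' := by exact_mod_cast hw1
  have hwx' : (w' : ℝ) ≤ ((N / Q : ℕ) : ℝ) := by exact_mod_cast hwx
  have hln : 0 < l / (2 * n) := by positivity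
  have h2 : l / (2 * n) ≤ Real.log ((N / Q : ℕ) : ℝ) := hw'.trans (Real.log_le_log (by linarith) hwx')
  have h3 : ((N / Q : ℕ) : ℝ) / (Real.log ((N / Q : ℕ) : ℝ)) ^ 2 ≤ ((N : ℝ) / Q) / (l / (2 * n)) ^ 2 := by
    have : ((N / Q : ℕ) : ℝ) ≤ (N : ℝ) / Q := Nat.cast_div_le
    gcongr
  have h4 : (((Q * N : ℕ) : ℝ) / (Nat.totient (Q * N) : ℝ)) ≤ 2 ^ (k - 1) * (4 * SS N) := by
    rw [Nat.totient_mul hco, Nat.cast_mul, Nat.cast_mul, ← div_mul_div_comm]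
    have a1 := ph2 hQ1 hΩ
    have a2 := ph hNe hN1
    have a3 : (0 : ℝ) ≤ (N : ℝ) / (Nat.totient N : ℝ) := by positivity
    gcongr
  have h5 : (0 : ℝ) ≤ (((Q * N : ℕ) : ℝ) / (Nat.totient (Q * N) : ℝ)) := by positivity
  have h6 : (0 : ℝ) ≤ ((N : ℝ) / Q) / (l / (2 * n)) ^ 2 := by positivity
  unfold RR
  calc _ ≤ C * (((N / Q : ℕ) : ℝ) / (Real.log ((N / Q : ℕ) : ℝ)) ^ 2) * (((Q * N : ℕ) : ℝ) / (Nat.totient (Q * N) : ℝ)) := h1
    _ ≤ C * (((N : ℝ) / Q) / (l / (2 * n)) ^ 2) * (2 ^ (k - 1) * (4 * SS N)) := by gcongr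
    _ = (C * 16 * n ^ 2 * 2 ^ (k - 1) * SS N * N / l ^ 2) * (1 / Q) := by
        field_simp
        ring

/-- the small terms -/
private lemma bd7_small {ε l : ℝ} {Y w N : ℕ} (hε : 0 < ε) (hl : 2 ≤ l) (hY : (2 : ℝ) ≤ Y) (hlY : l = Real.log Y)
    (h1 : 16 * l ^ 2 ≤ ε * Real.sqrt Y) (h2 : 4 * l ≤ Real.sqrt Y) (h3 : 16 ≤ ε * l ^ 2) (hw : l ^ 4 ≤ w)
    (hYN : Y < N) (hN : N ≤ 2 * Y) :
    ((Nat.sqrt Y : ℕ) : ℝ) + (N : ℝ) / w + (Nat.log 2 N : ℕ) ≤ ε / 4 * (Y / l ^ 2) := by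
  have hs0 : 0 < Real.sqrt Y := Real.sqrt_pos.mpr (by linarith)
  have hl0 : 0 < l := by linarith
  have hY0 : (0 : ℝ) < Y := by linarith
  have a1 : ((Nat.sqrt Y : ℕ) : ℝ) ≤ Real.sqrt Y := Real.nat_sqrt_le_real_sqrt
  have a2 : (N : ℝ) / w ≤ 2 * Y / l ^ 4 := by
    have : (N : ℝ) ≤ 2 * Y := by exact_mod_cast hN
    gcongr
  have a3 : ((Nat.log 2 N : ℕ) : ℝ) ≤ Real.sqrt Y := by
    have b1 : 2 ^ (Nat.log 2 N) ≤ N := Nat.pow_log_le_self 2 (by omega)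
    have b2 : ((2 : ℝ)) ^ (Nat.log 2 N) ≤ 2 * Y := by
      calc ((2 : ℝ)) ^ (Nat.log 2 N) ≤ N := by exact_mod_cast b1
        _ ≤ 2 * Y := by exact_mod_cast hN
    have b3 : (Nat.log 2 N : ℕ) * Real.log 2 ≤ 2 * l := by
      rw [← Real.log_pow]
      calc Real.log ((2 : ℝ) ^ (Nat.log 2 N)) ≤ Real.log (Y * Y) := Real.log_le_log (by positivity) (b2.trans (by gcongr))
        _ = 2 * l := by rw [Real.log_mul (by linarith) (by linarith), hlY]; ring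
    have b4 : (0.5 : ℝ) ≤ Real.log 2 := by linarith [Real.log_two_gt_d9]
    have b5 : (0 : ℝ) ≤ (Nat.log 2 N : ℕ) := Nat.cast_nonneg _
    nlinarith
  have a4 : Real.sqrt Y ≤ ε / 16 * (Y / l ^ 2) := by
    have b1 : Real.sqrt Y * Real.sqrt Y = Y := Real.mul_self_sqrt hY0.le
    rw [← mul_div_assoc, le_div_iff₀ (by positivity)]
    nlinarith
  have a5 : 2 * Y / l ^ 4 ≤ ε / 8 * (Y / l ^ 2) := by
    rw [← mul_div_assoc, div_le_div_iff₀ (by positivity) (by positivity)]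
    have b1 : 16 * (Y * l ^ 2) ≤ (ε * l ^ 2) * (Y * l ^ 2) := by gcongr
    nlinarith
  linarith

/-- the integer root -/
private lemma bd7_root (Y n : ℕ) (hn : 1 ≤ n) : ∃ z : ℕ, z ^ n ≤ Y ∧ Y < (z + 1) ^ n := by
  classical
  have hex : ∃ z : ℕ, Y < (z + 1) ^ n := ⟨Y, by
    calc Y < Y + 1 := Nat.lt_succ_self Y
      _ = (Y + 1) ^ 1 := (pow_one _).symm
      _ ≤ (Y + 1) ^ n := Nat.pow_le_pow_right (by omega) hn⟩
  refine ⟨Nat.find hex, ?_, Nat.find_spec hex⟩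
  rcases Nat.eq_zero_or_pos (Nat.find hex) with h0 | h0
  · rw [h0, zero_pow (by omega)]
    exact Nat.zero_le _
  · have h1 := Nat.find_min hex (m := Nat.find hex - 1) (by omega)
    rw [not_lt, show Nat.find hex - 1 + 1 = Nat.find hex by omega] at h1
    exact h1

theorem bd7 (k c : ℕ) (hk : 2 ≤ k) (ε : ℝ) (hε : 0 < ε) : ∃ η : ℝ, 0 < η ∧ η < 1 ∧ ∃ y0 : ℝ, ∀ Y w w' N : ℕ, y0 ≤ Y →
    (Real.log Y) ^ 4 ≤ w → (w : ℝ) ≤ (Real.log Y) ^ c → w ≤ w' → w' ^ (4 * k) ≤ Y → (Real.log Y) ^ (1 - η) ≤ Real.log w' →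
      Y < N → N ≤ 2 * Y → Even N →
      |(TK k N : ℝ) - TT k w w' N| ≤ ε * (SS N * (Y / (Real.log Y) ^ 2 * (Real.log (Real.log Y)) ^ (k - 1))) := by
  obtain ⟨C, x0, hC, hsv⟩ := sv
  obtain ⟨n, hn4⟩ : ∃ n : ℕ, n = 4 * k := ⟨_, rfl⟩
  have hn : 1 ≤ n := by omega
  have hn1 : (1 : ℝ) ≤ n := by exact_mod_cast hn
  set ε' : ℝ := ε / (C * 64 * n ^ 2 * 2 ^ (k - 1)) with hε'def
  have hε' : 0 < ε' := by positivity
  obtain ⟨η, hη, hη1, y1, hmt⟩ := mt7 k c hk ε' hε'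
  refine ⟨η, hη, hη1, ?_⟩
  have e1 : ∀ᶠ y : ℝ in Filter.atTop, (2 : ℝ) * n + n * Real.log (x0 + 3) + 16 / ε ≤ Real.log y :=
    Real.tendsto_log_atTop.eventually_ge_atTop _
  have hLL : Filter.Tendsto (fun y : ℝ => Real.log (Real.log y)) Filter.atTop Filter.atTop :=
    Real.tendsto_log_atTop.comp Real.tendsto_log_atTop
  have e2 : ∀ᶠ y : ℝ in Filter.atTop, (1 : ℝ) ≤ Real.log (Real.log y) := hLL.eventually_ge_atTop _
  have e3 : ∀ᶠ y : ℝ in Filter.atTop, ‖(Real.log y) ^ 4‖ ≤ (min (ε ^ 2 / 256) (1 / 16)) * ‖y‖ :=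
    (Real.isLittleO_pow_log_id_atTop (n := 4)).bound (by positivity)
  have e4 : ∀ᶠ y : ℝ in Filter.atTop, ‖(Real.log y) ^ (c * n)‖ ≤ ((1 / 2) ^ n) * ‖y‖ :=
    (Real.isLittleO_pow_log_id_atTop (n := c * n)).bound (by positivity)
  obtain ⟨y2, hy2⟩ := Filter.eventually_atTop.mp (e1.and (e2.and (e3.and e4)))
  refine ⟨max (max y1 y2) 2, fun Y w w' N hY hw4 hwc hww hw'4 hη' hYN hN hNe => ?_⟩
  have hY1 : y1 ≤ Y := (le_max_left _ _).trans ((le_max_left _ _).trans hY)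
  obtain ⟨g1, g2, g3, g4⟩ := hy2 Y ((le_max_right _ _).trans ((le_max_left _ _).trans hY))
  have hY2 : (2 : ℝ) ≤ Y := (le_max_right _ _).trans hY
  set l : ℝ := Real.log Y with hldef
  set LL : ℝ := Real.log l with hLLdef
  have hx03 : 0 ≤ Real.log ((x0 : ℝ) + 3) := Real.log_nonneg (by have : (0 : ℝ) ≤ x0 := Nat.cast_nonneg _; linarith)
  have h16 : 0 < 16 / ε := by positivity
  have hl2 : 2 ≤ l := by nlinarith
  have hl0 : 0 < l := by linarith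
  have hs0 : 0 < Real.sqrt Y := Real.sqrt_pos.mpr (by linarith)
  -- square root
  rw [Real.norm_of_nonneg (by positivity), Real.norm_of_nonneg (by linarith)] at g3
  have s1 : 16 * l ^ 2 ≤ ε * Real.sqrt Y := by
    have h1 : l ^ 4 ≤ ε ^ 2 / 256 * Y := g3.trans (by gcongr; exact min_le_left _ _)
    have h2 : 16 * l ^ 2 / ε ≤ Real.sqrt Y := by
      apply Real.le_sqrt_of_sq_le
      calc (16 * l ^ 2 / ε) ^ 2 = 256 / ε ^ 2 * l ^ 4 := by ring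
        _ ≤ 256 / ε ^ 2 * (ε ^ 2 / 256 * Y) := by gcongr
        _ = Y := by field_simp
    rw [div_le_iff₀ hε] at h2
    linarith
  have s2 : 4 * l ≤ Real.sqrt Y := by
    have h1 : l ^ 4 ≤ 1 / 16 * Y := g3.trans (by gcongr; exact min_le_right _ _)
    apply Real.le_sqrt_of_sq_le
    have h2 : l ^ 2 ≤ l ^ 4 := pow_le_pow_right₀ (by linarith) (by norm_num)
    nlinarith
  have s3 : 16 ≤ ε * l ^ 2 := by
    have h1 : 16 / ε ≤ l := by
      have : 0 ≤ (n : ℝ) * Real.log (x0 + 3) := by positivity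
      linarith
    rw [div_le_iff₀ hε] at h1
    nlinarith
  -- the root
  obtain ⟨z, hz1, hz2⟩ := bd7_root Y n hn
  have hlw : l ≤ n * Real.log ((z : ℝ) + 1) := by
    have h1 : (Y : ℝ) ≤ ((z : ℝ) + 1) ^ n := by exact_mod_cast hz2.le
    calc l ≤ Real.log (((z : ℝ) + 1) ^ n) := Real.log_le_log (by linarith) h1
      _ = n * Real.log ((z : ℝ) + 1) := Real.log_pow _ _
  have hzx0 : x0 + 2 ≤ z := by
    have h1 : n * Real.log ((x0 : ℝ) + 3) ≤ n * Real.log ((z : ℝ) + 1) := by linarith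
    have h2 : Real.log ((x0 : ℝ) + 3) ≤ Real.log ((z : ℝ) + 1) := le_of_mul_le_mul_left h1 (by linarith)
    have h3 : (x0 : ℝ) + 3 ≤ (z : ℝ) + 1 := (Real.log_le_log_iff (by positivity) (by positivity)).mp h2
    have h4 : (x0 : ℝ) + 2 ≤ z := by linarith
    exact_mod_cast h4
  have hz11 : 1 ≤ z := by omega
  have hz1r : (1 : ℝ) ≤ z := by exact_mod_cast hz11
  have hlz : l / (2 * n) ≤ Real.log (z : ℝ) := by
    have h1 : Real.log ((z : ℝ) + 1) ≤ Real.log (z : ℝ) + 1 := by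
      calc Real.log ((z : ℝ) + 1) ≤ Real.log (2 * z) := Real.log_le_log (by linarith) (by linarith)
        _ = Real.log 2 + Real.log z := Real.log_mul (by norm_num) (by linarith)
        _ ≤ Real.log (z : ℝ) + 1 := by linarith [Real.log_two_lt_d9]
    rw [div_le_iff₀ (by linarith)]
    have h2 : l ≤ n * (Real.log (z : ℝ) + 1) := hlw.trans (by gcongr)
    nlinarith
  have hwpos : 1 ≤ w := by
    have h1 : (0 : ℝ) < w := lt_of_lt_of_le (by positivity) hw4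
    have h2 : 0 < w := by exact_mod_cast h1
    omega
  have hw1 : 1 ≤ w' := by omega
  have hZ : w' ^ k ≤ Nat.sqrt Y := by
    rw [Nat.le_sqrt]
    calc w' ^ k * w' ^ k = w' ^ (k + k) := (pow_add _ _ _).symm
      _ ≤ w' ^ (4 * k) := Nat.pow_le_pow_right hw1 (by omega)
      _ ≤ Y := hw'4
  have hZ' : z ^ k ≤ Nat.sqrt Y := by
    rw [Nat.le_sqrt]
    calc z ^ k * z ^ k = z ^ (k + k) := (pow_add _ _ _).symm
      _ ≤ z ^ n := Nat.pow_le_pow_right hz11 (by omega)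
      _ ≤ Y := hz1
  have hwz : w ≤ z := by
    rw [Real.norm_of_nonneg (by positivity), Real.norm_of_nonneg (by linarith)] at g4
    have h1 : (1 : ℝ) ≤ l ^ c := one_le_pow₀ (by linarith)
    have h2 : ((w : ℝ) + 1) ^ n ≤ Y := by
      calc ((w : ℝ) + 1) ^ n ≤ (2 * l ^ c) ^ n := by
            refine pow_le_pow_left₀ (by positivity) ?_ n
            linarith
        _ = 2 ^ n * l ^ (c * n) := by rw [mul_pow, ← pow_mul]
        _ ≤ 2 ^ n * ((1 / 2) ^ n * Y) := by gcongr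
        _ = Y := by rw [← mul_assoc, ← mul_pow]; norm_num
    have h3 : (w + 1) ^ n < (z + 1) ^ n := by
      have : (w + 1) ^ n ≤ Y := by exact_mod_cast h2
      omega
    have := lt_of_pow_lt_pow_left₀ n (by omega) h3
    omega
  obtain ⟨b1, b2⟩ := bd1 k w w' N (Nat.sqrt Y) z hk hwpos hww hZ hZ' hwz
  have hSS := Pool.Agent.Lib.G5.q8 N hNe
  have hN1 : 1 ≤ N := by omega
  -- the sum over `Q`
  have hsum : ∑ Q ∈ (QB (k - 1) w w' (N / z)).filter (fun Q => Nat.Coprime Q N), ((RR Q N).card : ℝ) ≤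
      ε / 2 * (SS N * (Y / l ^ 2 * LL ^ (k - 1))) := by
    have hb : (0 : ℝ) ≤ C * 16 * n ^ 2 * 2 ^ (k - 1) * SS N * N / l ^ 2 := by positivity
    calc ∑ Q ∈ (QB (k - 1) w w' (N / z)).filter (fun Q => Nat.Coprime Q N), ((RR Q N).card : ℝ)
        ≤ ∑ Q ∈ (QB (k - 1) w w' (N / z)).filter (fun Q => Nat.Coprime Q N),
            (C * 16 * n ^ 2 * 2 ^ (k - 1) * SS N * N / l ^ 2) * (1 / Q) := by
          apply Finset.sum_le_sum
          classical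
          intro Q hQ
          rw [mem_filter] at hQ
          obtain ⟨hQB, hco⟩ := hQ
          unfold QB at hQB
          rw [mem_filter, mem_Icc] at hQB
          exact bd7_term hC hsv hl0 hn (by omega) hlz hz11 hQB.1.1 hQB.1.2 hQB.2.1 hN1 hNe hco
      _ ≤ ∑ Q ∈ QB (k - 1) w w' (N / z), (C * 16 * n ^ 2 * 2 ^ (k - 1) * SS N * N / l ^ 2) * (1 / Q) := by
          apply Finset.sum_le_sum_of_subset_of_nonneg (filter_subset _ _)
          intro Q _ _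
          positivity
      _ = (C * 16 * n ^ 2 * 2 ^ (k - 1) * SS N * N / l ^ 2) * ∑ Q ∈ QB (k - 1) w w' (N / z), (1 : ℝ) / Q := by
          rw [Finset.mul_sum]
      _ ≤ (C * 16 * n ^ 2 * 2 ^ (k - 1) * SS N * N / l ^ 2) * (ε' * LL ^ (k - 1)) := by
          have h1 := rq (k - 2) w w' (N / z)
          rw [show k - 2 + 1 = k - 1 by omega] at h1
          have h2 := hmt Y w w' (N / z) hY1 hwc hη' ((Nat.div_le_self _ _).trans hN)
          exact mul_le_mul_of_nonneg_left (h1.trans h2) hb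
      _ ≤ (C * 16 * n ^ 2 * 2 ^ (k - 1) * SS N * (2 * Y) / l ^ 2) * (ε' * LL ^ (k - 1)) := by
          have h1 : (N : ℝ) ≤ 2 * Y := by exact_mod_cast hN
          have h2 : 0 ≤ LL := by linarith
          gcongr
      _ = ε / 2 * (SS N * (Y / l ^ 2 * LL ^ (k - 1))) := by
          rw [hε'def]
          field_simp
          ring
  have hsm := bd7_small (Y := Y) (w := w) (N := N) hε hl2 hY2 hldef s1 s2 s3 hw4 hYN hN
  have hlow : ε / 4 * (Y / l ^ 2) ≤ ε / 2 * (SS N * (Y / l ^ 2 * LL ^ (k - 1))) := by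
    have h1 : 1 ≤ LL ^ (k - 1) := one_le_pow₀ g2
    have h2 : 0 ≤ (Y : ℝ) / l ^ 2 := by positivity
    have h3 : (1 / 2) * (Y / l ^ 2 * 1) ≤ SS N * (Y / l ^ 2 * LL ^ (k - 1)) := by gcongr
    calc ε / 4 * (Y / l ^ 2) = ε / 2 * ((1 / 2) * (Y / l ^ 2 * 1)) := by ring
      _ ≤ _ := mul_le_mul_of_nonneg_left h3 (by positivity)
  have b1' : (TT k w w' N : ℝ) ≤ TK k N := by exact_mod_cast b1
  rw [abs_of_nonneg (by linarith)]
  calc (TK k N : ℝ) - TT k w w' N ≤ ((Nat.sqrt Y : ℕ) : ℝ) + (N : ℝ) / w + (Nat.log 2 N : ℕ) +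
        ∑ Q ∈ (QB (k - 1) w w' (N / z)).filter (fun Q => Nat.Coprime Q N), ((RR Q N).card : ℝ) := by linarith [b2]
    _ ≤ ε / 4 * (Y / l ^ 2) + ε / 2 * (SS N * (Y / l ^ 2 * LL ^ (k - 1))) := add_le_add hsm hsum
    _ ≤ ε / 2 * (SS N * (Y / l ^ 2 * LL ^ (k - 1))) + ε / 2 * (SS N * (Y / l ^ 2 * LL ^ (k - 1))) := by gcongr
    _ = ε * (SS N * (Y / l ^ 2 * LL ^ (k - 1))) := by ring

end Pool.Agent.Lib.G6
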