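import Pool.Agent.Lib.G6.GDefs
import Pool.Agent.Lib.G5.Q2
import Pool.Agent.Lib.G3.Mert5

/-!
# G6, row Mk: the main term: `sgK k w w'` is asymptotic to `(log log Y)^(k-1)/(k-1)!`

PROOF IN WORDS. `LL = log log Y`. `mert5` with `ε = 1` (`pi5 = PP`): `|sg1 w w' - log (log w'/log w)| ≤ 1` for `w ≥ z0`; `W/(2n) ≤ log w' ≤ W` (`W = log Y`; `w' + 1 ≥ Y^(1/n)`)
and `1 ≤ log w ≤ c LL`, so `|sg1 w w' - LL| ≤ 1 + log (2n) + log (c LL + 3)`; hence `σ := sg1 w w'` satisfies `(1 - δ) LL ≤ σ ≤ (1 + δ) LL` for `Y ≥ y(δ)`.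
`q2a` (G5/Q2.lean): `σ esy_j (1 - j/(w σ)) ≤ (j+1) esy_(j+1) ≤ σ esy_j`, `w ≥ log Y ≥ j/δ`, `σ ≥ 1`: by induction `σ^j/j! (1 - δ)^j ≤ esy_j ≤ σ^j/j!` for `j ≤ k - 2`.
`sgK = σ esy_(k-2)/(k-1)`, so `(1-δ)^(2k) LL^(k-1)/(k-1)! ≤ sgK ≤ (1+δ)^k LL^(k-1)/(k-1)!` and `(1+δ)^k - 1`, `1 - (1-δ)^(2k)` are `≤ ε` for small `δ` (for example by continuity).
-/

set_option autoImplicit false

open Finset

namespace Pool.Agent.Lib.G6

open Pool.Agent.Lib.G5 (PP sg1 esy sgK)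

/-- the elementary symmetric sums between powers of `sg1` -/
private lemma mk_esy (w w' m : ℕ) (δ : ℝ) (hδ1 : δ ≤ 1) (hw : 1 ≤ w) (hσ : 0 ≤ sg1 w w')
    (hd : (m : ℝ) / w ≤ δ * sg1 w w') : ∀ j : ℕ, j ≤ m →
      (1 - δ) ^ j * (sg1 w w') ^ j / (Nat.factorial j : ℝ) ≤ esy j w w' ∧ esy j w w' ≤ (sg1 w w') ^ j / (Nat.factorial j : ℝ) := by
  intro j
  induction j with
  | zero => intro _; simp [esy]
  | succ j ih =>
    intro hj
    obtain ⟨h1, h2⟩ := ih (by omega)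
    obtain ⟨h3, h4⟩ := Pool.Agent.Lib.G5.q2a j w w' hw
    have hw0 : (0 : ℝ) < w := by exact_mod_cast hw
    have hf : (0 : ℝ) < (Nat.factorial j : ℝ) := by exact_mod_cast Nat.factorial_pos j
    have hj0 : (0 : ℝ) < (j : ℝ) + 1 := by positivity
    have hδ0 : 0 ≤ 1 - δ := by linarith
    have he0 : 0 ≤ esy j w w' := le_trans (by positivity) h1
    have h5 : (j : ℝ) / w ≤ δ * sg1 w w' := by
      refine le_trans ?_ hd
      have : (j : ℝ) ≤ m := by exact_mod_cast (by omega : j ≤ m)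
      gcongr
    have h6 : (1 - δ) * sg1 w w' * esy j w w' ≤ ((j : ℝ) + 1) * esy (j + 1) w w' := by
      have := mul_le_mul_of_nonneg_right h5 he0
      nlinarith
    have h7 : ((j : ℝ) + 1) * esy (j + 1) w w' ≤ sg1 w w' * esy j w w' := by linarith
    rw [Nat.factorial_succ]
    push_cast
    constructor
    · rw [div_le_iff₀ (by positivity)]
      rw [div_le_iff₀ hf] at h1
      calc (1 - δ) ^ (j + 1) * sg1 w w' ^ (j + 1) = (1 - δ) * sg1 w w' * ((1 - δ) ^ j * sg1 w w' ^ j) := by ring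
        _ ≤ (1 - δ) * sg1 w w' * (esy j w w' * (Nat.factorial j : ℝ)) := by gcongr
        _ = ((1 - δ) * sg1 w w' * esy j w w') * (Nat.factorial j : ℝ) := by ring
        _ ≤ (((j : ℝ) + 1) * esy (j + 1) w w') * (Nat.factorial j : ℝ) := by gcongr
        _ = esy (j + 1) w w' * (((j : ℝ) + 1) * (Nat.factorial j : ℝ)) := by ring
    · rw [le_div_iff₀ (by positivity)]
      rw [le_div_iff₀ hf] at h2
      calc esy (j + 1) w w' * (((j : ℝ) + 1) * (Nat.factorial j : ℝ)) = (((j : ℝ) + 1) * esy (j + 1) w w') * (Nat.factorial j : ℝ) := by ring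
        _ ≤ (sg1 w w' * esy j w w') * (Nat.factorial j : ℝ) := by gcongr
        _ = sg1 w w' * (esy j w w' * (Nat.factorial j : ℝ)) := by ring
        _ ≤ sg1 w w' * sg1 w w' ^ j := by gcongr
        _ = sg1 w w' ^ (j + 1) := by ring

/-- a small `δ` -/
private lemma mk_delta (m : ℕ) (ε : ℝ) (hε : 0 < ε) : ∃ δ : ℝ, 0 < δ ∧ δ ≤ 1 ∧ (1 + δ) ^ (m + 1) ≤ 1 + ε ∧
    1 - ε ≤ (1 - δ) ^ m * (1 - δ) ^ (m + 1) := by
  have h1 : Filter.Tendsto (fun δ : ℝ => (1 + δ) ^ (m + 1)) (nhdsWithin 0 (Set.Ioi 0)) (nhds 1) := by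
    have : ContinuousAt (fun δ : ℝ => (1 + δ) ^ (m + 1)) 0 := by fun_prop
    have h := this.tendsto.mono_left (nhdsWithin_le_nhds (s := Set.Ioi 0))
    simpa using h
  have h2 : Filter.Tendsto (fun δ : ℝ => (1 - δ) ^ m * (1 - δ) ^ (m + 1)) (nhdsWithin 0 (Set.Ioi 0)) (nhds 1) := by
    have : ContinuousAt (fun δ : ℝ => (1 - δ) ^ m * (1 - δ) ^ (m + 1)) 0 := by fun_prop
    have h := this.tendsto.mono_left (nhdsWithin_le_nhds (s := Set.Ioi 0))
    simpa using h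
  have e1 := h1.eventually (ge_mem_nhds (show (1 : ℝ) < 1 + ε by linarith))
  have e2 := h2.eventually (le_mem_nhds (show 1 - ε < (1 : ℝ) by linarith))
  have e3 : ∀ᶠ δ : ℝ in nhdsWithin 0 (Set.Ioi 0), 0 < δ := self_mem_nhdsWithin
  have e4 : ∀ᶠ δ : ℝ in nhdsWithin 0 (Set.Ioi 0), δ ≤ 1 := by
    apply mem_nhdsWithin_of_mem_nhds
    exact ge_mem_nhds (by norm_num)
  obtain ⟨δ, a1, a2, a3, a4⟩ := (e1.and (e2.and (e3.and e4))).exists
  exact ⟨δ, a3, a4, a1, a2⟩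

theorem mk (k c n : ℕ) (hk : 2 ≤ k) (hn : 1 ≤ n) (ε : ℝ) (hε : 0 < ε) : ∃ y0 : ℝ, ∀ Y w w' : ℕ, y0 ≤ Y → Real.log Y ≤ w →
    (w : ℝ) ≤ (Real.log Y) ^ c → w ≤ w' → Y ≤ (w' + 1) ^ n → w' ≤ Y →
      |sgK k w w' - (Real.log (Real.log Y)) ^ (k - 1) / (Nat.factorial (k - 1) : ℝ)| ≤ ε * (Real.log (Real.log Y)) ^ (k - 1) := by
  obtain ⟨m, rfl⟩ : ∃ m, k = m + 2 := ⟨k - 2, by omega⟩
  obtain ⟨δ, hδ0, hδ1, hδa, hδb⟩ := mk_delta m ε hε
  obtain ⟨z, hz⟩ := Pool.Agent.Lib.G3.mert5 1 one_pos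
  set D : ℝ := Real.log (c + 3) + Real.log (2 * n) + 1 with hD
  have hn1 : (1 : ℝ) ≤ n := by exact_mod_cast hn
  have e1 : ∀ᶠ y : ℝ in Filter.atTop, (2 : ℝ) * n + n * Real.log 3 + z + 3 + m / δ ≤ Real.log y :=
    Real.tendsto_log_atTop.eventually_ge_atTop _
  have hLL : Filter.Tendsto (fun y : ℝ => Real.log (Real.log y)) Filter.atTop Filter.atTop :=
    Real.tendsto_log_atTop.comp Real.tendsto_log_atTop
  have e2 : ∀ᶠ y : ℝ in Filter.atTop, 3 + 2 * D / δ ≤ Real.log (Real.log y) :=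
    hLL.eventually_ge_atTop _
  have e3 : ∀ᶠ y : ℝ in Filter.atTop, D + 1 + Real.log (Real.log (Real.log y)) ≤ Real.log (Real.log y) := by
    have h1 : ∀ᶠ y : ℝ in Filter.atTop, ‖Real.log (Real.log (Real.log y))‖ ≤ (1 / 2 : ℝ) * ‖Real.log (Real.log y)‖ :=
      hLL.eventually (Real.isLittleO_log_id_atTop.bound (by positivity))
    have h2 : ∀ᶠ y : ℝ in Filter.atTop, 2 * (|D| + 1) ≤ Real.log (Real.log y) := hLL.eventually_ge_atTop _
    filter_upwards [h1, h2] with y h3 h4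
    have h5 : 0 ≤ Real.log (Real.log y) := le_trans (by positivity) h4
    rw [Real.norm_of_nonneg h5] at h3
    have h6 := (le_abs_self _).trans h3
    have h7 := le_abs_self D
    linarith
  have e4 : ∀ᶠ y : ℝ in Filter.atTop, ‖Real.log (Real.log (Real.log y))‖ ≤ (δ / 2) * ‖Real.log (Real.log y)‖ :=
    hLL.eventually (Real.isLittleO_log_id_atTop.bound (by positivity))
  obtain ⟨y0, hy0⟩ := Filter.eventually_atTop.mp (e1.and (e2.and (e3.and e4)))
  refine ⟨max y0 2, fun Y w w' hY hlw1 hwc hww' hw' hwY => ?_⟩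
  obtain ⟨g1, g2, g3, g4⟩ := hy0 Y ((le_max_left _ _).trans hY)
  have hY2 : (2 : ℝ) ≤ Y := (le_max_right _ _).trans hY
  set l : ℝ := Real.log Y with hl
  set LL : ℝ := Real.log l with hLLdef
  have hc0 : (0 : ℝ) ≤ c := Nat.cast_nonneg _
  have hz0 : (0 : ℝ) ≤ z := Nat.cast_nonneg _
  have hc3 : 0 ≤ Real.log ((c : ℝ) + 3) := Real.log_nonneg (by linarith)
  have h2n : 0 ≤ Real.log (2 * (n : ℝ)) := Real.log_nonneg (by linarith)
  have hl3 : 0 ≤ Real.log (3 : ℝ) := Real.log_nonneg (by norm_num)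
  have hD0 : 0 < D := by rw [hD]; linarith
  have hDδ : 0 < 2 * D / δ := by positivity
  have hmδ : 0 ≤ (m : ℝ) / δ := by positivity
  have hnl3 : 0 ≤ (n : ℝ) * Real.log 3 := by positivity
  have hlz : (z : ℝ) ≤ l := by linarith
  have hl2 : 2 ≤ l := by linarith
  have hlm : (m : ℝ) / δ ≤ l := by linarith
  have hln : 2 * (n : ℝ) + n * Real.log 3 ≤ l := by linarith
  have hLL3 : 3 ≤ LL := by linarith
  have hLL0 : 0 < LL := by linarith
  have hl0 : 0 < l := by linarith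
  have hwl : l ≤ w := hlw1
  have hw1 : 1 ≤ w := by
    have : (1 : ℝ) ≤ w := by linarith
    exact_mod_cast this
  have hzw : z ≤ w := by
    have : (z : ℝ) ≤ w := by linarith
    exact_mod_cast this
  -- the logarithm of w
  have hlogw0 : 1 ≤ Real.log (w : ℝ) := by
    have h1 : LL ≤ Real.log (w : ℝ) := Real.log_le_log hl0 hwl
    linarith
  have hlogw : Real.log (w : ℝ) ≤ (c + 3) * LL := by
    calc Real.log (w : ℝ) ≤ Real.log (l ^ c) := Real.log_le_log (by linarith) hwc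
      _ = c * LL := Real.log_pow _ _
      _ ≤ (c + 3) * LL := by gcongr; linarith
  -- the logarithm of w'
  have hlw : l ≤ n * Real.log ((w' : ℝ) + 1) := by
    have h1 : (Y : ℝ) ≤ ((w' : ℝ) + 1) ^ n := by exact_mod_cast hw'
    calc l ≤ Real.log (((w' : ℝ) + 1) ^ n) := Real.log_le_log (by linarith) h1
      _ = n * Real.log ((w' : ℝ) + 1) := Real.log_pow _ _
  have hww1 : (w : ℝ) ≤ w' := by exact_mod_cast hww'
  have hw2 : (2 : ℝ) ≤ w' := by linarith
  have hlw' : l / (2 * n) ≤ Real.log (w' : ℝ) := by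
    have h1 : Real.log ((w' : ℝ) + 1) ≤ Real.log (w' : ℝ) + 1 := by
      calc Real.log ((w' : ℝ) + 1) ≤ Real.log (2 * w') := Real.log_le_log (by linarith) (by linarith)
        _ = Real.log 2 + Real.log w' := Real.log_mul (by norm_num) (by linarith)
        _ ≤ Real.log (w' : ℝ) + 1 := by linarith [Real.log_two_lt_d9]
    rw [div_le_iff₀ (by linarith)]
    have h2 : l ≤ n * (Real.log (w' : ℝ) + 1) := hlw.trans (by gcongr)
    nlinarith
  have hlogw' : Real.log (w' : ℝ) ≤ l := Real.log_le_log (by linarith) (by exact_mod_cast hwY)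
  have hlogw'0 : 0 < Real.log (w' : ℝ) := Real.log_pos (by linarith)
  -- the two bounds for sg1
  have hm := abs_le.mp (hz w w' hzw hww')
  have hrfl : sg1 w w' = ∑ p ∈ Pool.Agent.Lib.G3.pi5 w w', (1 : ℝ) / p := rfl
  rw [← hrfl] at hm
  obtain ⟨hm1, hm2⟩ := hm
  have hup : Real.log (Real.log w' / Real.log w) ≤ LL := by
    apply Real.log_le_log (by positivity)
    exact (div_le_self hlogw'0.le hlogw0).trans hlogw'
  have hlow : LL - Real.log (2 * n) - Real.log (c + 3) - Real.log LL ≤ Real.log (Real.log w' / Real.log w) := by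
    have h1 : l / (2 * n) / ((c + 3) * LL) ≤ Real.log w' / Real.log w := by
      have : 0 < Real.log (w : ℝ) := by linarith
      gcongr
    have h2 : Real.log (l / (2 * n) / ((c + 3) * LL)) = LL - Real.log (2 * n) - (Real.log (c + 3) + Real.log LL) := by
      have h3 : Real.log (((c : ℝ) + 3) * LL) = Real.log ((c : ℝ) + 3) + Real.log LL := Real.log_mul (by positivity) (by positivity)
      rw [Real.log_div (by positivity) (by positivity), Real.log_div (by positivity) (by positivity), h3]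
    have h3 := Real.log_le_log (by positivity) h1
    linarith
  have hδD : D ≤ δ / 2 * LL := by
    have h1 : 2 * D / δ ≤ LL := by linarith
    rw [div_le_iff₀ hδ0] at h1
    linarith
  have hLg : Real.log LL ≤ δ / 2 * LL := by
    rw [Real.norm_of_nonneg hLL0.le] at g4
    exact (le_abs_self _).trans g4
  have hLg0 : 0 ≤ Real.log LL := Real.log_nonneg (by linarith)
  set σ : ℝ := sg1 w w' with hσ
  have hσ1 : 1 ≤ σ := by rw [hD] at g3; linarith
  have hσlow : (1 - δ) * LL ≤ σ := by rw [hD] at hδD; linarith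
  have hσup : σ ≤ (1 + δ) * LL := by
    have h1 : (1 : ℝ) ≤ D := by rw [hD]; linarith
    nlinarith
  -- the symmetric sum
  have hd : (m : ℝ) / w ≤ δ * σ := by
    have hwm : (m : ℝ) / δ ≤ w := by linarith
    have h1 : (m : ℝ) / w ≤ δ := by
      rw [div_le_iff₀ (by linarith)]
      rw [div_le_iff₀ hδ0] at hwm
      linarith
    nlinarith
  obtain ⟨b1, b2⟩ := mk_esy w w' m δ hδ1 hw1 (by linarith) hd m le_rfl
  rw [← hσ] at b1 b2
  have hf : (0 : ℝ) < (Nat.factorial m : ℝ) := by exact_mod_cast Nat.factorial_pos m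
  have hf1 : (1 : ℝ) ≤ (Nat.factorial (m + 1) : ℝ) := by exact_mod_cast Nat.factorial_pos (m + 1)
  have hfs : (Nat.factorial (m + 1) : ℝ) = ((m : ℝ) + 1) * (Nat.factorial m : ℝ) := by
    rw [Nat.factorial_succ]; push_cast; ring
  have hm0 : (0 : ℝ) < (m : ℝ) + 1 := by positivity
  have hδ' : 0 ≤ 1 - δ := by linarith
  have hsg : sgK (m + 2) w w' * (Nat.factorial (m + 1) : ℝ) = σ * (esy m w w' * (Nat.factorial m : ℝ)) := by
    unfold sgK
    rw [hfs, show m + 2 - 2 = m by omega, ← hσ]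
    push_cast
    have : ((m : ℝ) + 2 - 1) = (m : ℝ) + 1 := by ring
    rw [this]
    field_simp
  have hb1 : (1 - δ) ^ m * σ ^ m ≤ esy m w w' * (Nat.factorial m : ℝ) := by
    rw [div_le_iff₀ hf] at b1; exact b1
  have hb2 : esy m w w' * (Nat.factorial m : ℝ) ≤ σ ^ m := by
    rw [le_div_iff₀ hf] at b2; exact b2
  have hA1 : sgK (m + 2) w w' * (Nat.factorial (m + 1) : ℝ) ≤ (1 + ε) * LL ^ (m + 1) := by
    rw [hsg]
    calc σ * (esy m w w' * (Nat.factorial m : ℝ)) ≤ σ * σ ^ m := by gcongr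
      _ = σ ^ (m + 1) := by ring
      _ ≤ ((1 + δ) * LL) ^ (m + 1) := by gcongr
      _ = (1 + δ) ^ (m + 1) * LL ^ (m + 1) := mul_pow _ _ _
      _ ≤ (1 + ε) * LL ^ (m + 1) := by gcongr
  have hA2 : (1 - ε) * LL ^ (m + 1) ≤ sgK (m + 2) w w' * (Nat.factorial (m + 1) : ℝ) := by
    rw [hsg]
    calc (1 - ε) * LL ^ (m + 1) ≤ ((1 - δ) ^ m * (1 - δ) ^ (m + 1)) * LL ^ (m + 1) := by gcongr
      _ = (1 - δ) ^ m * ((1 - δ) * LL) ^ (m + 1) := by rw [mul_pow]; ring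
      _ ≤ (1 - δ) ^ m * σ ^ (m + 1) := by gcongr
      _ = σ * ((1 - δ) ^ m * σ ^ m) := by ring
      _ ≤ σ * (esy m w w' * (Nat.factorial m : ℝ)) := by gcongr
  have hfin : |sgK (m + 2) w w' * (Nat.factorial (m + 1) : ℝ) - LL ^ (m + 1)| ≤ ε * LL ^ (m + 1) := by
    rw [abs_le]
    constructor <;> linarith
  have hkk : m + 2 - 1 = m + 1 := by omega
  rw [hkk]
  have hF0 : (0 : ℝ) < (Nat.factorial (m + 1) : ℝ) := by linarith
  have heq : sgK (m + 2) w w' - LL ^ (m + 1) / (Nat.factorial (m + 1) : ℝ) =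
      (sgK (m + 2) w w' * (Nat.factorial (m + 1) : ℝ) - LL ^ (m + 1)) / (Nat.factorial (m + 1) : ℝ) := by
    field_simp
  rw [heq, abs_div, abs_of_pos hF0]
  exact (div_le_self (abs_nonneg _) hf1).trans hfin

end Pool.Agent.Lib.G6
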