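import Pool.Agent.Lib.G6.GDefs

/-!
# G6, row Nn: `Y/(log Y)^2 (log log Y)^(k-1)` against the same at `N`, `Y < N ≤ Y + √Y`

PROOF IN WORDS. `1 ≤ N/Y ≤ 1 + 1/√Y`, `log Y ≤ log N ≤ log Y + 1/√Y`, `log log Y ≤ log log N ≤ log log Y + 1/√Y` (`log (1 + t) ≤ t`, `log Y ≥ 1`).
With `η = 1/√Y`: each of the factors `N/Y`, `log N/log Y`, `log log N/log log Y` is in `[1, 1 + η]` (`log log Y ≥ 1`), so the quotient of the two sides is in
`[(1 + η)^(-2), (1 + η)^k]`, and `η → 0`. (`q7_ab` in `G5/Q7.lean` is the case without `log log`.)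
-/

set_option autoImplicit false

open Finset

namespace Pool.Agent.Lib.G6

theorem nn (k : ℕ) (ε : ℝ) (hε : 0 < ε) : ∃ y0 : ℝ, ∀ Y N : ℕ, y0 ≤ Y → Y < N → (N : ℝ) ≤ Y + Real.sqrt Y →
    |Y / (Real.log Y) ^ 2 * (Real.log (Real.log Y)) ^ (k - 1) - N / (Real.log N) ^ 2 * (Real.log (Real.log N)) ^ (k - 1)| ≤
      ε * (N / (Real.log N) ^ 2 * (Real.log (Real.log N)) ^ (k - 1)) := by
  set j := k - 1 with hj
  have h1 : Filter.Tendsto (fun y : ℝ => (1 + 1 / Real.sqrt y) ^ (j + 3)) Filter.atTop (nhds 1) := by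
    have h2 : Filter.Tendsto (fun y : ℝ => 1 / Real.sqrt y) Filter.atTop (nhds 0) := by
      simp_rw [one_div]
      exact Real.tendsto_sqrt_atTop.inv_tendsto_atTop
    have h3 := (h2.const_add 1).pow (j + 3)
    simpa using h3
  have h4 : ∀ᶠ y : ℝ in Filter.atTop, (1 + 1 / Real.sqrt y) ^ (j + 3) < 1 + ε :=
    h1.eventually_lt_const (by linarith)
  have h5 : ∀ᶠ y : ℝ in Filter.atTop, 1 ≤ Real.log (Real.log y) :=
    (Real.tendsto_log_atTop.comp Real.tendsto_log_atTop).eventually_ge_atTop 1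
  have h6 : ∀ᶠ y : ℝ in Filter.atTop, 1 ≤ Real.log y := Real.tendsto_log_atTop.eventually_ge_atTop 1
  obtain ⟨y0, hy0⟩ := Filter.eventually_atTop.1 (h4.and (h5.and (h6.and (Filter.eventually_ge_atTop 1))))
  refine ⟨y0, fun Y N hY hYN hN => ?_⟩
  obtain ⟨ha, hb, hc, hd⟩ := hy0 Y hY
  have hY0 : (0 : ℝ) < Y := by linarith
  have hs0 : 0 < Real.sqrt Y := Real.sqrt_pos.2 hY0
  set η := 1 / Real.sqrt Y with hη
  have hη0 : 0 < η := by positivity
  have hYN' : (Y : ℝ) < N := by exact_mod_cast hYN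
  have hN0 : (0 : ℝ) < N := hY0.trans hYN'
  have hNle : (N : ℝ) ≤ (1 + η) * Y := by
    have : Real.sqrt Y = η * Y := by
      rw [hη, one_div, inv_mul_eq_div, eq_div_iff hs0.ne']
      exact Real.mul_self_sqrt hY0.le
    linarith
  have hlog1 : Real.log (1 + η) ≤ η := by
    have := Real.log_le_sub_one_of_pos (show 0 < 1 + η by linarith)
    linarith
  have hL1 : Real.log Y ≤ Real.log N := Real.log_le_log hY0 hYN'.le
  have hL2 : Real.log N ≤ (1 + η) * Real.log Y := by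
    have e1 := Real.log_le_log hN0 hNle
    rw [Real.log_mul (by linarith) hY0.ne'] at e1
    nlinarith
  have hLY : 0 < Real.log Y := by linarith
  have hLN : 0 < Real.log N := by linarith
  have hM1 : Real.log (Real.log Y) ≤ Real.log (Real.log N) := Real.log_le_log hLY hL1
  have hM2 : Real.log (Real.log N) ≤ (1 + η) * Real.log (Real.log Y) := by
    have e1 := Real.log_le_log hLN hL2
    rw [Real.log_mul (by linarith) hLY.ne'] at e1
    nlinarith
  have hMY : 0 < Real.log (Real.log Y) := by linarith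
  have hMN : 0 < Real.log (Real.log N) := by linarith
  set LY := Real.log (Y : ℝ) with hLYd
  set LN := Real.log (N : ℝ) with hLNd
  set MY := Real.log LY with hMYd
  set MN := Real.log LN with hMNd
  have h1η : 1 ≤ 1 + η := by linarith
  have hA'0 : 0 < (N : ℝ) / LN ^ 2 * MN ^ j := by positivity
  have hA0 : 0 < (Y : ℝ) / LY ^ 2 * MY ^ j := by positivity
  -- first comparison
  have c1 : (Y : ℝ) / LY ^ 2 * MY ^ j ≤ (1 + η) ^ 2 * ((N : ℝ) / LN ^ 2 * MN ^ j) := by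
    have e1 : (Y : ℝ) / LY ^ 2 ≤ (1 + η) ^ 2 * (N / LN ^ 2) := by
      rw [div_le_iff₀ (by positivity)]
      have e2 : LN ^ 2 ≤ ((1 + η) * LY) ^ 2 := pow_le_pow_left₀ hLN.le hL2 2
      have e3 : (Y : ℝ) ≤ N := hYN'.le
      have e4 : (1 + η) ^ 2 * (N / LN ^ 2) * LY ^ 2 = N * (((1 + η) * LY) ^ 2 / LN ^ 2) := by
        field_simp
      rw [e4]
      have e5 : 1 ≤ ((1 + η) * LY) ^ 2 / LN ^ 2 := by
        rw [le_div_iff₀ (by positivity)]
        linarith
      nlinarith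
    have e6 : MY ^ j ≤ MN ^ j := pow_le_pow_left₀ hMY.le hM1 j
    calc (Y : ℝ) / LY ^ 2 * MY ^ j ≤ ((1 + η) ^ 2 * (N / LN ^ 2)) * MN ^ j :=
          mul_le_mul e1 e6 (by positivity) (by positivity)
      _ = _ := by ring
  have c2 : (N : ℝ) / LN ^ 2 * MN ^ j ≤ (1 + η) ^ (j + 1) * ((Y : ℝ) / LY ^ 2 * MY ^ j) := by
    have e1 : (N : ℝ) / LN ^ 2 ≤ (1 + η) * (Y / LY ^ 2) := by
      have e2 : LY ^ 2 ≤ LN ^ 2 := pow_le_pow_left₀ hLY.le hL1 2
      calc (N : ℝ) / LN ^ 2 ≤ (1 + η) * Y / LY ^ 2 := by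
            apply div_le_div₀ (by positivity) hNle (by positivity) e2
        _ = _ := by ring
    have e6 : MN ^ j ≤ ((1 + η) * MY) ^ j := pow_le_pow_left₀ hMN.le hM2 j
    calc (N : ℝ) / LN ^ 2 * MN ^ j ≤ ((1 + η) * (Y / LY ^ 2)) * ((1 + η) * MY) ^ j :=
          mul_le_mul e1 e6 (by positivity) (by positivity)
      _ = _ := by rw [mul_pow]; ring
  have d1 : (1 + η) ^ 2 ≤ 1 + ε := (pow_le_pow_right₀ h1η (by omega)).trans ha.le
  have d2 : (1 + η) ^ (j + 1) ≤ 1 + ε := (pow_le_pow_right₀ h1η (by omega)).trans ha.le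
  set A := (Y : ℝ) / LY ^ 2 * MY ^ j with hA
  set A' := (N : ℝ) / LN ^ 2 * MN ^ j with hA'
  rw [abs_le]
  constructor
  · have e1 : A' ≤ (1 + ε) * A := c2.trans (mul_le_mul_of_nonneg_right d2 hA0.le)
    -- A' - A ≤ ε A ≤ ε A' or A ≥ A'
    rcases le_total A A' with h | h
    · nlinarith
    · nlinarith
  · have e1 : A ≤ (1 + ε) * A' := c1.trans (mul_le_mul_of_nonneg_right d1 hA'0.le)
    linarith

end Pool.Agent.Lib.G6
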