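import Pool.Agent.Lib.G5.R6
import Pool.Agent.Lib.G6.Bd
import Pool.Agent.Lib.G6.Mk
import Pool.Agent.Lib.G6.Nn
import Pool.Agent.Lib.G3.FinA

/-!
# G6, row Fin6: the full count
-/

set_option autoImplicit false

open Finset

namespace Pool.Agent.Lib.G6

open Pool.Agent.Lib.G3 (SS fin_cover)
open Pool.Agent.Lib.G5 (TT PP sgK r6 Rg2 q8)

private theorem f6_ev (C n : ℕ) (δ : ℝ) (hδ : 0 < δ) (hδ1 : δ ≤ 1) (hn : 4 ≤ δ * n) : ∃ X0 : ℕ, ∀ X : ℕ, X0 ≤ X →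
    16 ≤ (X : ℝ) ∧ 4 ≤ Real.log X ∧ 2 * ((X : ℝ) ^ (δ / 3) + 1) ≤ Real.sqrt X ∧ (X : ℝ) ^ (δ / 3) + 1 ≤ (X : ℝ) ^ δ ∧
    ∀ Y : ℕ, X ≤ Y → Y ≤ 2 * X → (Y : ℝ) ^ (1 / (n : ℝ)) * (Real.log Y) ^ C ≤ (X : ℝ) ^ (δ / 3) := by
  have hlog : ∀ᶠ x : ℝ in Filter.atTop, (Real.log x) ^ (C : ℝ) ≤ (1 / (2 * 2 ^ C)) * x ^ (δ / 12) := by
    have h1 := (isLittleO_log_rpow_rpow_atTop (s := δ / 12) (C : ℝ) (by positivity)).bound
      (c := 1 / (2 * 2 ^ C)) (by positivity)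
    filter_upwards [h1, Filter.eventually_ge_atTop (1 : ℝ)] with x hx hx1
    rwa [Real.norm_of_nonneg (Real.rpow_nonneg (Real.log_nonneg hx1) _), Real.norm_of_nonneg (by positivity)] at hx
  have hl4 : ∀ᶠ x : ℝ in Filter.atTop, 4 ≤ Real.log x := Real.tendsto_log_atTop.eventually (Filter.eventually_ge_atTop _)
  have hp : ∀ᶠ x : ℝ in Filter.atTop, (8 : ℝ) ≤ x ^ (δ / 6) := (tendsto_rpow_atTop (by positivity)).eventually (Filter.eventually_ge_atTop _)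
  have hp6 : ∀ᶠ x : ℝ in Filter.atTop, (8 : ℝ) ≤ x ^ (1 / 6 : ℝ) := (tendsto_rpow_atTop (by positivity)).eventually (Filter.eventually_ge_atTop _)
  obtain ⟨x1, hx1⟩ := Filter.eventually_atTop.1 ((hlog.and (hl4.and (hp.and hp6))).and (Filter.eventually_ge_atTop (16 : ℝ)))
  refine ⟨⌈x1⌉₊, fun X hX => ?_⟩
  have hX' : x1 ≤ X := (Nat.le_ceil _).trans (by exact_mod_cast hX)
  obtain ⟨⟨h1, h2, h3, h4⟩, h5⟩ := hx1 X hX'
  have hX0 : (0 : ℝ) < X := by linarith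
  have hX1 : (1 : ℝ) ≤ X := by linarith
  have e3 : (1 : ℝ) ≤ (X : ℝ) ^ (δ / 3) := Real.one_le_rpow hX1 (by positivity)
  refine ⟨h5, h2, ?_, ?_, ?_⟩
  · have a1 : (X : ℝ) ^ (δ / 3) ≤ (X : ℝ) ^ (1 / 3 : ℝ) := Real.rpow_le_rpow_of_exponent_le hX1 (by linarith)
    have a2 : Real.sqrt X = (X : ℝ) ^ (1 / 3 : ℝ) * (X : ℝ) ^ (1 / 6 : ℝ) := by
      rw [Real.sqrt_eq_rpow, ← Real.rpow_add hX0]
      norm_num
    rw [a2]
    have a3 : (1 : ℝ) ≤ (X : ℝ) ^ (1 / 3 : ℝ) := Real.one_le_rpow hX1 (by norm_num)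
    nlinarith
  · have a2 : (X : ℝ) ^ δ = (X : ℝ) ^ (δ / 3) * ((X : ℝ) ^ (δ / 6) * (X : ℝ) ^ (δ / 2)) := by
      rw [← Real.rpow_add hX0, ← Real.rpow_add hX0]
      congr 1
      ring
    have a3 : (1 : ℝ) ≤ (X : ℝ) ^ (δ / 2) := Real.one_le_rpow hX1 (by positivity)
    rw [a2]
    nlinarith [mul_le_mul h3 a3 (by norm_num) (by positivity)]
  · intro Y hY1 hY2
    have hY1' : (X : ℝ) ≤ Y := by exact_mod_cast hY1
    have hY2' : (Y : ℝ) ≤ 2 * X := by exact_mod_cast hY2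
    have hY0 : (0 : ℝ) < Y := by linarith
    have hn0 : (0 : ℝ) < n := by
      by_contra h
      have h' : (n : ℝ) ≤ 0 := not_lt.mp h
      nlinarith
    have hn4 : 1 / (n : ℝ) ≤ δ / 4 := by
      rw [div_le_div_iff₀ hn0 (by norm_num)]
      linarith
    have hn1 : 1 / (n : ℝ) ≤ 1 := by linarith
    have b1 : (Y : ℝ) ^ (1 / (n : ℝ)) ≤ 2 * (X : ℝ) ^ (δ / 4) := by
      calc (Y : ℝ) ^ (1 / (n : ℝ)) ≤ (2 * X) ^ (1 / (n : ℝ)) := Real.rpow_le_rpow hY0.le hY2' (by positivity)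
        _ = 2 ^ (1 / (n : ℝ)) * (X : ℝ) ^ (1 / (n : ℝ)) := Real.mul_rpow (by norm_num) hX0.le
        _ ≤ 2 * (X : ℝ) ^ (δ / 4) := by
            refine mul_le_mul ?_ (Real.rpow_le_rpow_of_exponent_le hX1 hn4) (by positivity) (by norm_num)
            calc (2 : ℝ) ^ (1 / (n : ℝ)) ≤ 2 ^ (1 : ℝ) := Real.rpow_le_rpow_of_exponent_le (by norm_num) hn1
              _ = 2 := Real.rpow_one 2
    have b2 : Real.log Y ≤ 2 * Real.log X := by
      have e1 : Real.log Y ≤ Real.log (2 * X) := Real.log_le_log hY0 hY2'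
      rw [Real.log_mul (by norm_num) hX0.ne'] at e1
      have e2 : Real.log 2 ≤ Real.log X := Real.log_le_log (by norm_num) (by linarith)
      linarith
    have b3 : 0 ≤ Real.log Y := Real.log_nonneg (by linarith)
    have b4 : (Real.log Y) ^ C ≤ 2 ^ C * (Real.log X) ^ C := by
      rw [← mul_pow]
      exact pow_le_pow_left₀ b3 b2 C
    have b5 : (Real.log X) ^ C ≤ (1 / (2 * 2 ^ C)) * (X : ℝ) ^ (δ / 12) := by
      rw [← Real.rpow_natCast]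
      exact h1
    have b6 : (X : ℝ) ^ (δ / 3) = (X : ℝ) ^ (δ / 4) * (X : ℝ) ^ (δ / 12) := by
      rw [← Real.rpow_add hX0]
      congr 1
      ring
    calc (Y : ℝ) ^ (1 / (n : ℝ)) * (Real.log Y) ^ C ≤ (2 * (X : ℝ) ^ (δ / 4)) * (2 ^ C * ((1 / (2 * 2 ^ C)) * (X : ℝ) ^ (δ / 12))) := by
          refine mul_le_mul b1 (b4.trans ?_) (by positivity) (by positivity)
          exact mul_le_mul_of_nonneg_left b5 (by positivity)
      _ = (X : ℝ) ^ (δ / 3) := by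
          rw [b6]
          field_simp

/-- the parameters `w`, `w'` at `Y` -/
private theorem f6_par (c n : ℕ) (hn : 1 ≤ n) : ∃ y0 : ℝ, ∀ Y : ℕ, y0 ≤ Y → ∃ w w' : ℕ, (Real.log Y) ^ c ≤ w ∧
    (w : ℝ) ≤ (Real.log Y) ^ (c + 1) ∧ w ≤ w' ∧ w' ^ n ≤ Y ∧ Y ≤ (w' + 1) ^ n ∧ (w' : ℝ) ≤ (Y : ℝ) ^ (1 / (n : ℝ)) ∧ w' ≤ Y := by
  have hn0 : (0 : ℝ) < n := by exact_mod_cast hn
  have hlog : ∀ᶠ x : ℝ in Filter.atTop, (Real.log x) ^ ((c + 1 : ℕ) : ℝ) ≤ (1 / 2) * x ^ (1 / (n : ℝ)) := by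
    have h1 := (isLittleO_log_rpow_rpow_atTop (s := 1 / (n : ℝ)) ((c + 1 : ℕ) : ℝ) (by positivity)).bound
      (c := 1 / 2) (by positivity)
    filter_upwards [h1, Filter.eventually_ge_atTop (1 : ℝ)] with x hx hx1
    rwa [Real.norm_of_nonneg (Real.rpow_nonneg (Real.log_nonneg hx1) _), Real.norm_of_nonneg (by positivity)] at hx
  have hl4 : ∀ᶠ x : ℝ in Filter.atTop, 4 ≤ Real.log x := Real.tendsto_log_atTop.eventually (Filter.eventually_ge_atTop _)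
  have hp : ∀ᶠ x : ℝ in Filter.atTop, (2 : ℝ) ≤ x ^ (1 / (n : ℝ)) := (tendsto_rpow_atTop (by positivity)).eventually (Filter.eventually_ge_atTop _)
  obtain ⟨x1, hx1⟩ := Filter.eventually_atTop.1 ((hlog.and (hl4.and hp)).and (Filter.eventually_ge_atTop (16 : ℝ)))
  refine ⟨x1, fun Y hY => ?_⟩
  obtain ⟨⟨h1, h2, h3⟩, h5⟩ := hx1 Y hY
  have hY0 : (0 : ℝ) < Y := by linarith
  rw [Real.rpow_natCast] at h1
  have hc1 : (1 : ℝ) ≤ (Real.log Y) ^ c := one_le_pow₀ (by linarith)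
  have a1 := Nat.ceil_lt_add_one (show 0 ≤ (Real.log Y) ^ c by positivity)
  have a2 : ((⌈(Real.log Y) ^ c⌉₊ : ℕ) : ℝ) ≤ (Real.log Y) ^ (c + 1) := by
    rw [pow_succ]
    nlinarith
  have hy : (0 : ℝ) ≤ (Y : ℝ) ^ (1 / (n : ℝ)) := by positivity
  have b1 : ((⌊(Y : ℝ) ^ (1 / (n : ℝ))⌋₊ : ℕ) : ℝ) ≤ (Y : ℝ) ^ (1 / (n : ℝ)) := Nat.floor_le hy
  have b2 : (Y : ℝ) ^ (1 / (n : ℝ)) < (⌊(Y : ℝ) ^ (1 / (n : ℝ))⌋₊ : ℝ) + 1 := Nat.lt_floor_add_one _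
  have e1 : ((Y : ℝ) ^ (1 / (n : ℝ))) ^ n = Y := by
    rw [← Real.rpow_natCast, ← Real.rpow_mul hY0.le]
    rw [one_div, inv_mul_cancel₀ hn0.ne', Real.rpow_one]
  have c1 : (⌊(Y : ℝ) ^ (1 / (n : ℝ))⌋₊) ^ n ≤ Y := by
    have h : ((⌊(Y : ℝ) ^ (1 / (n : ℝ))⌋₊ : ℕ) : ℝ) ^ n ≤ Y := by
      calc ((⌊(Y : ℝ) ^ (1 / (n : ℝ))⌋₊ : ℕ) : ℝ) ^ n ≤ ((Y : ℝ) ^ (1 / (n : ℝ))) ^ n := pow_le_pow_left₀ (Nat.cast_nonneg _) b1 n
        _ = Y := e1
    exact_mod_cast h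
  refine ⟨⌈(Real.log Y) ^ c⌉₊, ⌊(Y : ℝ) ^ (1 / (n : ℝ))⌋₊, Nat.le_ceil _, a2, ?_, c1, ?_, b1, ?_⟩
  · have : ((⌈(Real.log Y) ^ c⌉₊ : ℕ) : ℝ) ≤ (⌊(Y : ℝ) ^ (1 / (n : ℝ))⌋₊ : ℝ) := by linarith
    exact_mod_cast this
  · have h : (Y : ℝ) ≤ ((⌊(Y : ℝ) ^ (1 / (n : ℝ))⌋₊ : ℝ) + 1) ^ n := by
      calc (Y : ℝ) = ((Y : ℝ) ^ (1 / (n : ℝ))) ^ n := e1.symm
        _ ≤ _ := pow_le_pow_left₀ hy b2.le n
    exact_mod_cast h
  · exact (Nat.le_self_pow (by omega) _).trans c1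

/-- the comparison at one `N` -/
private theorem f6_cmp {S sg L b a T TKN f ε ε2 : ℝ} (hS : 0 ≤ S) (hb : 0 ≤ b) (hL : 1 ≤ L) (hf : 1 ≤ f) (ha : 0 ≤ a)
    (hε : 0 < ε) (hε1 : ε ≤ 1) (hε2 : ε2 * f = ε / 32) (_hsg0 : 0 ≤ 1 + sg) (h6 : |T - S * sg * b| ≤ ε2 * (S * (1 + sg) * b))
    (hsg : |sg - L / f| ≤ ε2 * L) (hbd : |TKN - T| ≤ ε2 * (S * (b * L))) (hnn : |b * L - a| ≤ ε / 4 * a) :
    |TKN - S * (a / f)| ≤ ε * (S * (a / f)) := by
  have hf0 : 0 < f := by linarith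
  have h20 : 0 < ε2 := by
    by_contra h
    have h' : ε2 ≤ 0 := not_lt.mp h
    nlinarith
  have h21 : ε2 ≤ 1 / 32 := by nlinarith
  obtain ⟨n1, n2⟩ := abs_le.1 hnn
  have hB : b * L ≤ 2 * a := by nlinarith
  have hB0 : 0 ≤ b * L := by positivity
  have hLf : L / f ≤ L := div_le_self (by linarith) hf
  have hsg1 : 1 + sg ≤ 3 * L := by
    have := (abs_le.1 hsg).2
    nlinarith
  have t1 : ε2 * (S * (1 + sg) * b) ≤ ε2 * (6 * (S * a)) := by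
    refine mul_le_mul_of_nonneg_left ?_ h20.le
    calc S * (1 + sg) * b ≤ S * (3 * L) * b := by gcongr
      _ = 3 * (S * (b * L)) := by ring
      _ ≤ 3 * (S * (2 * a)) := by gcongr
      _ = 6 * (S * a) := by ring
  have t2 : |S * b * (sg - L / f)| ≤ ε2 * (2 * (S * a)) := by
    rw [abs_mul, abs_of_nonneg (mul_nonneg hS hb)]
    calc S * b * |sg - L / f| ≤ S * b * (ε2 * L) := mul_le_mul_of_nonneg_left hsg (mul_nonneg hS hb)
      _ = ε2 * (S * (b * L)) := by ring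
      _ ≤ ε2 * (S * (2 * a)) := by gcongr
      _ = ε2 * (2 * (S * a)) := by ring
  have t3 : |S / f * (b * L - a)| ≤ ε / 4 * (S * (a / f)) := by
    rw [abs_mul, abs_of_nonneg (by positivity : (0 : ℝ) ≤ S / f)]
    calc S / f * |b * L - a| ≤ S / f * (ε / 4 * a) := mul_le_mul_of_nonneg_left hnn (by positivity)
      _ = ε / 4 * (S * (a / f)) := by ring
  have t4 : |TKN - T| ≤ ε2 * (2 * (S * a)) := by
    refine hbd.trans ?_
    refine mul_le_mul_of_nonneg_left ?_ h20.le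
    calc S * (b * L) ≤ S * (2 * a) := by gcongr
      _ = 2 * (S * a) := by ring
  have e : TKN - S * (a / f) = (TKN - T) + (T - S * sg * b) + S * b * (sg - L / f) + S / f * (b * L - a) := by
    field_simp
    ring
  have h2f : ε2 * (10 * (S * a)) = ε * (10 / 32) * (S * (a / f)) := by
    have : ε2 = ε / 32 / f := by
      rw [eq_div_iff hf0.ne']
      exact hε2
    rw [this]
    field_simp
  rw [e]
  refine (abs_add_le _ _).trans ?_
  have u1 := abs_add_le ((TKN - T) + (T - S * sg * b)) (S * b * (sg - L / f))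
  have u2 := abs_add_le (TKN - T) (T - S * sg * b)
  have hSa : 0 ≤ S * (a / f) := by positivity
  nlinarith [mul_nonneg hε.le hSa]

theorem g6 (k A : ℕ) (hk : 2 ≤ k) (δ ε : ℝ) (hδ : 0 < δ) (hε : 0 < ε) : ∃ X₀ : ℕ, ∀ X H : ℕ, X₀ ≤ X → (X : ℝ) ^ δ ≤ H → H ≤ X →
    (((Ioc X (X + H)).filter fun N => Even N ∧ ε * MK k N < |(TK k N : ℝ) - MK k N|).card : ℝ) ≤ H / (Real.log X) ^ A := by
  classical
  obtain ⟨c10, h6⟩ := r6 k (A + 1) hk
  obtain ⟨C, h6⟩ := h6 c10 le_rfl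
  obtain ⟨f, hf⟩ : ∃ f : ℝ, f = (Nat.factorial (k - 1) : ℝ) := ⟨_, rfl⟩
  have hf1 : 1 ≤ f := by
    rw [hf]
    exact_mod_cast Nat.one_le_iff_ne_zero.mpr (Nat.factorial_ne_zero _)
  obtain ⟨ε', hε'⟩ : ∃ ε' : ℝ, ε' = min ε 1 := ⟨_, rfl⟩
  have hε'0 : 0 < ε' := by rw [hε']; exact lt_min hε one_pos
  have hε'1 : ε' ≤ 1 := by rw [hε']; exact min_le_right _ _
  have hε'ε : ε' ≤ ε := by rw [hε']; exact min_le_left _ _
  obtain ⟨ε2, hε2⟩ : ∃ ε2 : ℝ, ε2 = ε' / (32 * f) := ⟨_, rfl⟩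
  have hε20 : 0 < ε2 := by rw [hε2]; positivity
  have hε2f : ε2 * f = ε' / 32 := by
    rw [hε2]
    field_simp
  obtain ⟨δ', hδ'⟩ : ∃ δ' : ℝ, δ' = min δ 1 := ⟨_, rfl⟩
  have hδ'0 : 0 < δ' := by rw [hδ']; exact lt_min hδ one_pos
  have hδ'1 : δ' ≤ 1 := by rw [hδ']; exact min_le_right _ _
  have hδ'δ : δ' ≤ δ := by rw [hδ']; exact min_le_left _ _
  obtain ⟨M, x0, h6⟩ := h6 ε2 hε20
  obtain ⟨n, hn⟩ : ∃ n : ℕ, n = M + 4 * k + ⌈4 / δ'⌉₊ := ⟨_, rfl⟩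
  have hn1 : 1 ≤ n := by omega
  have hnM : M ≤ n := by omega
  have hnk : 4 * k ≤ n := by omega
  have hnδ : 4 ≤ δ' * n := by
    have h1 : 4 / δ' ≤ ⌈4 / δ'⌉₊ := Nat.le_ceil _
    have h2 : ((⌈4 / δ'⌉₊ : ℕ) : ℝ) ≤ n := by exact_mod_cast (by omega : ⌈4 / δ'⌉₊ ≤ n)
    have h3 := h1.trans h2
    rwa [div_le_iff₀' hδ'0] at h3
  obtain ⟨X1, hX1⟩ := f6_ev C n δ' hδ'0 hδ'1 hnδ
  obtain ⟨y1, hy1⟩ := f6_par (c10 + 4) n hn1
  obtain ⟨y2, hy2⟩ := mk k (c10 + 5) n hk hn1 ε2 hε20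
  obtain ⟨y3, hy3⟩ := bd k (c10 + 5) n hk hn1 ε2 hε20
  obtain ⟨y4, hy4⟩ := nn k (ε' / 4) (by positivity)
  obtain ⟨y5, hy5⟩ := Filter.eventually_atTop.1 ((Real.tendsto_log_atTop.comp Real.tendsto_log_atTop).eventually
    (Filter.eventually_ge_atTop (1 : ℝ)))
  refine ⟨max X1 (max ⌈x0⌉₊ (max ⌈y1⌉₊ (max ⌈y2⌉₊ (max ⌈y3⌉₊ (max ⌈y4⌉₊ ⌈y5⌉₊))))), ?_⟩
  intro X H hX hH1 hH2
  have hXa : X1 ≤ X := (le_max_left _ _).trans hX
  have hX' := (le_max_right _ _).trans hX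
  have hXb : x0 ≤ X := (Nat.le_ceil _).trans (by exact_mod_cast (le_max_left _ _).trans hX')
  have hX' := (le_max_right _ _).trans hX'
  have hXc : y1 ≤ X := (Nat.le_ceil _).trans (by exact_mod_cast (le_max_left _ _).trans hX')
  have hX' := (le_max_right _ _).trans hX'
  have hXd : y2 ≤ X := (Nat.le_ceil _).trans (by exact_mod_cast (le_max_left _ _).trans hX')
  have hX' := (le_max_right _ _).trans hX'
  have hXe : y3 ≤ X := (Nat.le_ceil _).trans (by exact_mod_cast (le_max_left _ _).trans hX')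
  have hX' := (le_max_right _ _).trans hX'
  have hXf : y4 ≤ X := (Nat.le_ceil _).trans (by exact_mod_cast (le_max_left _ _).trans hX')
  have hXg : y5 ≤ X := (Nat.le_ceil _).trans (by exact_mod_cast (le_max_right _ _).trans hX')
  obtain ⟨g1, g2, g3, g4, g5⟩ := hX1 X hXa
  obtain ⟨l, hl⟩ : ∃ l : ℝ, l = Real.log X := ⟨_, rfl⟩
  rw [← hl] at g2 ⊢
  have hX0 : (0 : ℝ) < X := by linarith
  have hXone : (1 : ℝ) ≤ X := by linarith
  obtain ⟨h, hh⟩ : ∃ h : ℕ, h = ⌈(X : ℝ) ^ (δ' / 3)⌉₊ := ⟨_, rfl⟩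
  have hh1 : (X : ℝ) ^ (δ' / 3) ≤ h := by rw [hh]; exact Nat.le_ceil _
  have hh2 : (h : ℝ) ≤ (X : ℝ) ^ (δ' / 3) + 1 := by rw [hh]; exact (Nat.ceil_lt_add_one (by positivity)).le
  have hh0 : 1 ≤ h := by
    have : (1 : ℝ) ≤ h := (Real.one_le_rpow hXone (by positivity)).trans hh1
    exact_mod_cast this
  have hhH : h ≤ H := by
    have : (h : ℝ) ≤ H := by
      calc (h : ℝ) ≤ (X : ℝ) ^ (δ' / 3) + 1 := hh2
        _ ≤ (X : ℝ) ^ δ' := g4
        _ ≤ (X : ℝ) ^ δ := Real.rpow_le_rpow_of_exponent_le hXone hδ'δ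
        _ ≤ H := hH1
    exact_mod_cast this
  have hcov := fin_cover (fun N : ℕ => Even N ∧ ε * MK k N < |(TK k N : ℝ) - MK k N|) (X := X) (H := H) (h := h)
    (S := (H : ℝ) + h) (ε := 1 / l ^ (A + 1)) hh0 hhH (by positivity) le_rfl ?_
  · refine hcov.trans ?_
    have h7 : l ^ (A + 1) = l ^ A * l := pow_succ _ _
    have h8 : 0 < l ^ A := by positivity
    rw [h7, mul_one_div, div_le_div_iff₀ (by positivity) h8]
    have : (0 : ℝ) ≤ H := Nat.cast_nonneg _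
    nlinarith [mul_nonneg this h8.le]
  · intro Y hY1 hY2
    have hY1' : (X : ℝ) ≤ Y := by exact_mod_cast hY1
    have hY2' : (Y : ℝ) ≤ 2 * X := by
      have : (H : ℝ) ≤ X := by exact_mod_cast hH2
      linarith
    have hY2n : Y ≤ 2 * X := by exact_mod_cast hY2'
    have hY0 : (0 : ℝ) < Y := by linarith
    have hlY1 : l ≤ Real.log Y := by rw [hl]; exact Real.log_le_log hX0 hY1'
    obtain ⟨w, w', p1, p2, p3, p4, p5, p6, p7⟩ := hy1 Y (hXc.trans hY1')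
    have hlY0 : 1 ≤ Real.log Y := by linarith
    have hw'0 : 1 ≤ w' := by
      have h1 : (1 : ℝ) ≤ w := (one_le_pow₀ hlY0).trans p1
      have h2 : 1 ≤ w := by exact_mod_cast h1
      omega
    have hRg : Rg2 Y w w' c10 M := by
      refine ⟨(pow_le_pow_right₀ hlY0 (by omega)).trans p1, p3, ?_⟩
      exact (Nat.pow_le_pow_right hw'0 hnM).trans p4
    have hhY : (w' : ℝ) * (Real.log Y) ^ C ≤ h := by
      refine le_trans ?_ hh1
      refine le_trans (mul_le_mul_of_nonneg_right p6 (by positivity)) (g5 Y hY1 hY2n)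
    have hsq : Real.sqrt X ≤ Real.sqrt Y := Real.sqrt_le_sqrt hY1'
    have hhs : 2 * (h : ℝ) ≤ Real.sqrt Y := by linarith
    have h9 := h6 Y (hXb.trans hY1') w w' hRg h hhY hhs
    have hLL : 1 ≤ Real.log (Real.log Y) := hy5 Y (hXg.trans hY1')
    have hmk := hy2 Y w w' (hXd.trans hY1') (by
      calc Real.log Y = (Real.log Y) ^ 1 := (pow_one _).symm
        _ ≤ (Real.log Y) ^ (c10 + 4) := pow_le_pow_right₀ hlY0 (by omega)
        _ ≤ w := p1) p2 p3 p5 p7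
    refine le_trans ?_ (h9.trans ?_)
    · have hsub : ((Ioc Y (Y + h)).filter fun N : ℕ => Even N ∧ ε * MK k N < |(TK k N : ℝ) - MK k N|) ⊆
          ((Ioc Y (Y + h)).filter fun N => Even N ∧ ε2 * (SS N * (1 + sgK k w w') * (Y / (Real.log Y) ^ 2)) <
            |(TT k w w' N : ℝ) - SS N * sgK k w w' * (Y / (Real.log Y) ^ 2)|) := by
        intro N hN
        rw [mem_filter, mem_Ioc] at hN ⊢
        obtain ⟨⟨hN1, hN2⟩, hev, hN3⟩ := hN
        refine ⟨⟨hN1, hN2⟩, hev, ?_⟩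
        by_contra hcon
        rw [not_lt] at hcon
        have hN2' : (N : ℝ) ≤ Y + h := by exact_mod_cast hN2
        have hNs : (N : ℝ) ≤ Y + Real.sqrt Y := by
          have : (0 : ℝ) ≤ h := Nat.cast_nonneg _
          linarith
        have hN2Y : N ≤ 2 * Y := by
          have h1 : Real.sqrt Y ≤ Y := by
            rw [Real.sqrt_le_left hY0.le]
            nlinarith
          have h2 : (N : ℝ) ≤ 2 * Y := by linarith
          exact_mod_cast h2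
        have hbd := hy3 Y w w' N (hXe.trans hY1') ((pow_le_pow_right₀ hlY0 (by omega)).trans p1) p2 p3
          ((Nat.pow_le_pow_right hw'0 hnk).trans p4) p5 hN1 hN2Y hev
        have hnn := hy4 Y N (hXf.trans hY1') hN1 hNs
        have hSS : 0 ≤ SS N := by
          have := q8 N hev
          linarith
        have hNr : (Y : ℝ) ≤ N := by exact_mod_cast hN1.le
        have hlN : Real.log Y ≤ Real.log N := Real.log_le_log hY0 hNr
        have hLN : 0 ≤ Real.log (Real.log N) := Real.log_nonneg (by linarith)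
        have hsg0 : 0 ≤ 1 + sgK k w w' := by
          have : 0 ≤ sgK k w w' := by
            unfold sgK Pool.Agent.Lib.G5.sg1 Pool.Agent.Lib.G5.esy
            have hk1 : (0 : ℝ) ≤ (k : ℝ) - 1 := by
              have : (2 : ℝ) ≤ k := by exact_mod_cast hk
              linarith
            refine div_nonneg (mul_nonneg (sum_nonneg fun p _ => by positivity) (sum_nonneg fun s _ => prod_nonneg fun p _ => by positivity)) hk1
          linarith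
        have hkey := f6_cmp (S := SS N) (sg := sgK k w w') (L := (Real.log (Real.log Y)) ^ (k - 1)) (b := Y / (Real.log Y) ^ 2)
          (a := N / (Real.log N) ^ 2 * (Real.log (Real.log N)) ^ (k - 1)) (T := TT k w w' N) (TKN := TK k N) (f := f) (ε := ε') (ε2 := ε2)
          hSS (by positivity) (one_le_pow₀ hLL) hf1 (by positivity) hε'0 hε'1 hε2f hsg0 hcon (by rw [hf]; exact hmk) hbd hnn
        have hM : MK k N = SS N * (N / (Real.log N) ^ 2 * (Real.log (Real.log N)) ^ (k - 1) / f) := by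
          unfold MK
          rw [hf]
          ring
        rw [← hM] at hkey
        have hM0 : 0 ≤ MK k N := by
          rw [hM]
          positivity
        have := mul_le_mul_of_nonneg_right hε'ε hM0
        linarith
      exact_mod_cast card_le_card hsub
    · rw [mul_one_div]
      apply div_le_div_of_nonneg_left (Nat.cast_nonneg _) (by positivity)
      exact pow_le_pow_left₀ (by linarith) hlY1 _

end Pool.Agent.Lib.G6
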