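import Pool.Agent.Lib.G5.R6
import Pool.Agent.Lib.G6.Bd7
import Pool.Agent.Lib.G6.Mk7
import Pool.Agent.Lib.G6.Nn
import Pool.Agent.Lib.G3.FinA

/-!
# G6, row Fin7: the full count in windows of length `exp((log X)^(1-η))`
-/

set_option autoImplicit false

open Finset

namespace Pool.Agent.Lib.G6

open Pool.Agent.Lib.G3 (SS fin_cover)
open Pool.Agent.Lib.G5 (TT PP sgK r6 Rg2 q8)

/-- facts about a large `l` -/
private theorem f7_l (C c n : ℕ) (η : ℝ) (hη : 0 < η) (hη1 : η < 1) : ∃ l0 : ℝ, ∀ l : ℝ, l0 ≤ l →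
    4 ≤ l ∧ l ^ (1 - η) + 1 ≤ l ^ (1 - η / 2) ∧ n * l ^ (1 - η / 2) ≤ l ∧ (c + 1) * Real.log l + 1 ≤ l ^ (1 - η / 2) ∧
    C * (Real.log 2 + Real.log l) ≤ l ^ (1 - η / 2) ∧ 3 * l ^ (1 - η / 2) ≤ l ^ (1 - η / 4) ∧ 8 * l ^ (1 - η / 4) ≤ l ∧
    l ^ (1 - η / 4) + 1 ≤ l ^ (1 - η / 8) := by
  have e1 : ∀ᶠ l : ℝ in Filter.atTop, (2 : ℝ) ≤ l ^ (η / 2) := (tendsto_rpow_atTop (by positivity)).eventually (Filter.eventually_ge_atTop _)
  have e2 : ∀ᶠ l : ℝ in Filter.atTop, (n : ℝ) ≤ l ^ (η / 2) := (tendsto_rpow_atTop (by positivity)).eventually (Filter.eventually_ge_atTop _)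
  have e3 : ∀ᶠ l : ℝ in Filter.atTop, (8 : ℝ) ≤ l ^ (η / 4) := (tendsto_rpow_atTop (by positivity)).eventually (Filter.eventually_ge_atTop _)
  have e4 : ∀ᶠ l : ℝ in Filter.atTop, (2 : ℝ) ≤ l ^ (η / 8) := (tendsto_rpow_atTop (by positivity)).eventually (Filter.eventually_ge_atTop _)
  have e5 : ∀ᶠ l : ℝ in Filter.atTop, Real.log l ≤ (1 / (4 * (C + c + 2))) * l ^ (1 - η / 2) := by
    have h1 := (isLittleO_log_rpow_atTop (r := 1 - η / 2) (by linarith)).bound (c := 1 / (4 * (C + c + 2))) (by positivity)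
    filter_upwards [h1, Filter.eventually_ge_atTop (1 : ℝ)] with x hx hx1
    rwa [Real.norm_of_nonneg (Real.log_nonneg hx1), Real.norm_of_nonneg (by positivity)] at hx
  have e6 : ∀ᶠ l : ℝ in Filter.atTop, (4 * (C + 1) : ℝ) ≤ l ^ (1 - η / 2) :=
    (tendsto_rpow_atTop (by linarith)).eventually (Filter.eventually_ge_atTop _)
  obtain ⟨l0, hl0⟩ := Filter.eventually_atTop.1 (((e1.and e2).and (e3.and e4)).and ((e5.and e6).and (Filter.eventually_ge_atTop (4 : ℝ))))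
  refine ⟨l0, fun l hl => ?_⟩
  obtain ⟨⟨⟨a1, a2⟩, ⟨a3, a4⟩⟩, ⟨⟨a5, a6⟩, a7⟩⟩ := hl0 l hl
  have hl0' : 0 < l := by linarith
  have hl1 : 1 ≤ l := by linarith
  have p1 : (1 : ℝ) ≤ l ^ (1 - η) := Real.one_le_rpow hl1 (by linarith)
  have p2 : (1 : ℝ) ≤ l ^ (1 - η / 4) := Real.one_le_rpow hl1 (by linarith)
  have q0 : 0 < l ^ (1 - η / 2) := by positivity
  have q1 : l ^ (1 - η / 2) = l ^ (1 - η) * l ^ (η / 2) := by
    rw [← Real.rpow_add hl0']
    congr 1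
    ring
  have q2 : l = l ^ (1 - η / 2) * l ^ (η / 2) := by
    rw [← Real.rpow_add hl0']
    have : 1 - η / 2 + η / 2 = 1 := by ring
    rw [this, Real.rpow_one]
  have q3 : l ^ (1 - η / 4) = l ^ (1 - η / 2) * l ^ (η / 4) := by
    rw [← Real.rpow_add hl0']
    congr 1
    ring
  have q4 : l = l ^ (1 - η / 4) * l ^ (η / 4) := by
    rw [← Real.rpow_add hl0']
    have : 1 - η / 4 + η / 4 = 1 := by ring
    rw [this, Real.rpow_one]
  have q5 : l ^ (1 - η / 8) = l ^ (1 - η / 4) * l ^ (η / 8) := by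
    rw [← Real.rpow_add hl0']
    congr 1
    ring
  have hlog0 : 0 ≤ Real.log l := Real.log_nonneg hl1
  have hC0 : (0 : ℝ) ≤ C := Nat.cast_nonneg _
  have hc0 : (0 : ℝ) ≤ c := Nat.cast_nonneg _
  have a5' : (4 * (C + c + 2)) * Real.log l ≤ l ^ (1 - η / 2) := by
    have := mul_le_mul_of_nonneg_left a5 (by positivity : (0 : ℝ) ≤ 4 * (C + c + 2))
    refine this.trans (le_of_eq ?_)
    field_simp
  refine ⟨a7, ?_, ?_, ?_, ?_, ?_, ?_, ?_⟩
  · rw [q1]
    nlinarith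
  · calc (n : ℝ) * l ^ (1 - η / 2) ≤ l ^ (η / 2) * l ^ (1 - η / 2) := mul_le_mul_of_nonneg_right a2 q0.le
      _ = l := by rw [mul_comm, ← q2]
  · nlinarith [mul_nonneg hC0 hlog0, mul_nonneg hc0 hlog0]
  · have h2 := Real.log_two_lt_d9
    have h20 := Real.log_two_gt_d9
    nlinarith [mul_nonneg hC0 hlog0, mul_nonneg hc0 hlog0]
  · rw [q3]
    nlinarith
  · calc 8 * l ^ (1 - η / 4) ≤ l ^ (η / 4) * l ^ (1 - η / 4) := mul_le_mul_of_nonneg_right a3 (by positivity)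
      _ = l := by rw [mul_comm, ← q4]
  · rw [q5]
    nlinarith

private theorem f7_ev (C : ℕ) (η : ℝ) (hη : 0 < η) (hη1 : η < 1) : ∃ X0 : ℕ, ∀ X : ℕ, X0 ≤ X →
    16 ≤ (X : ℝ) ∧ 4 ≤ Real.log X ∧ 2 * (Real.exp ((Real.log X) ^ (1 - η / 4)) + 1) ≤ Real.sqrt X ∧
    Real.exp ((Real.log X) ^ (1 - η / 4)) + 1 ≤ Real.exp ((Real.log X) ^ (1 - η / 8)) ∧
    ∀ Y : ℕ, X ≤ Y → Y ≤ 2 * X → Real.exp ((Real.log Y) ^ (1 - η / 2)) * (Real.log Y) ^ C ≤ Real.exp ((Real.log X) ^ (1 - η / 4)) := by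
  obtain ⟨l0, hl0⟩ := f7_l C 0 0 η hη hη1
  obtain ⟨x1, hx1⟩ := Filter.eventually_atTop.1 ((Real.tendsto_log_atTop.eventually (Filter.eventually_ge_atTop (max l0 8))).and
    (Filter.eventually_ge_atTop (16 : ℝ)))
  refine ⟨⌈x1⌉₊, fun X hX => ?_⟩
  have hX' : x1 ≤ X := (Nat.le_ceil _).trans (by exact_mod_cast hX)
  obtain ⟨h1, h2⟩ := hx1 X hX'
  have hX0 : (0 : ℝ) < X := by linarith
  obtain ⟨l, hl⟩ : ∃ l : ℝ, l = Real.log X := ⟨_, rfl⟩
  rw [← hl] at h1 ⊢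
  have hl8 : 8 ≤ l := (le_max_right _ _).trans h1
  obtain ⟨b1, b2, b3, b4, b5, b6, b7, b8⟩ := hl0 l ((le_max_left _ _).trans h1)
  have hXe : (X : ℝ) = Real.exp l := by rw [hl, Real.exp_log hX0]
  have hl1 : (1 : ℝ) ≤ l := by linarith
  have hl00 : (0 : ℝ) < l := by linarith
  have p2 : (1 : ℝ) ≤ l ^ (1 - η / 4) := Real.one_le_rpow hl1 (by linarith)
  refine ⟨h2, b1, ?_, ?_, ?_⟩
  · have hs : Real.sqrt X = Real.exp (l / 2) := by
      rw [hXe, Real.sqrt_eq_rpow, ← Real.exp_mul]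
      congr 1
      ring
    rw [hs]
    have c1 : Real.exp (l ^ (1 - η / 4)) ≤ Real.exp (l / 8) := Real.exp_le_exp.mpr (by linarith)
    have c2 : Real.exp (l / 2) = Real.exp (l / 8) * Real.exp (3 * l / 8) := by
      rw [← Real.exp_add]
      congr 1
      ring
    have c3 : (4 : ℝ) ≤ Real.exp (3 * l / 8) := by
      have : 3 * l / 8 + 1 ≤ Real.exp (3 * l / 8) := Real.add_one_le_exp _
      linarith
    have c4 : (1 : ℝ) ≤ Real.exp (l / 8) := Real.one_le_exp (by positivity)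
    rw [c2]
    nlinarith
  · have c1 : Real.exp (l ^ (1 - η / 4) + 1) ≤ Real.exp (l ^ (1 - η / 8)) := Real.exp_le_exp.mpr b8
    have c2 : Real.exp (l ^ (1 - η / 4) + 1) = Real.exp (l ^ (1 - η / 4)) * Real.exp 1 := Real.exp_add _ _
    have c3 : (2 : ℝ) ≤ Real.exp 1 := by
      have := Real.exp_one_gt_d9
      linarith
    have c4 : (1 : ℝ) ≤ Real.exp (l ^ (1 - η / 4)) := Real.one_le_exp (by positivity)
    nlinarith
  · intro Y hY1 hY2
    have hY1' : (X : ℝ) ≤ Y := by exact_mod_cast hY1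
    have hY2' : (Y : ℝ) ≤ 2 * X := by exact_mod_cast hY2
    have hY0 : (0 : ℝ) < Y := by linarith
    have d0 : l ≤ Real.log Y := by rw [hl]; exact Real.log_le_log hX0 hY1'
    have d1 : Real.log Y ≤ 2 * l := by
      have e1 : Real.log Y ≤ Real.log (2 * X) := Real.log_le_log hY0 hY2'
      rw [Real.log_mul (by norm_num) hX0.ne', ← hl] at e1
      have e2 := Real.log_two_lt_d9
      linarith
    have d2 : 0 < Real.log Y := by linarith
    have d3 : (Real.log Y) ^ (1 - η / 2) ≤ 2 * l ^ (1 - η / 2) := by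
      calc (Real.log Y) ^ (1 - η / 2) ≤ (2 * l) ^ (1 - η / 2) := Real.rpow_le_rpow d2.le d1 (by linarith)
        _ = 2 ^ (1 - η / 2) * l ^ (1 - η / 2) := Real.mul_rpow (by norm_num) hl00.le
        _ ≤ 2 * l ^ (1 - η / 2) := by
            refine mul_le_mul_of_nonneg_right ?_ (by positivity)
            calc (2 : ℝ) ^ (1 - η / 2) ≤ 2 ^ (1 : ℝ) := Real.rpow_le_rpow_of_exponent_le (by norm_num) (by linarith)
              _ = 2 := Real.rpow_one 2
    have d4 : (Real.log Y) ^ C = Real.exp (C * Real.log (Real.log Y)) := by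
      rw [mul_comm, Real.exp_mul, Real.exp_log d2, Real.rpow_natCast]
    have d5 : Real.log (Real.log Y) ≤ Real.log 2 + Real.log l := by
      rw [← Real.log_mul (by norm_num) hl00.ne']
      exact Real.log_le_log d2 d1
    rw [d4, ← Real.exp_add]
    refine Real.exp_le_exp.mpr ?_
    have d6 : (C : ℝ) * Real.log (Real.log Y) ≤ C * (Real.log 2 + Real.log l) := mul_le_mul_of_nonneg_left d5 (Nat.cast_nonneg _)
    linarith

/-- the parameters `w`, `w'` at `Y` -/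
private theorem f7_par (c n : ℕ) (η : ℝ) (hη : 0 < η) (hη1 : η < 1) : ∃ y0 : ℝ, ∀ Y : ℕ, y0 ≤ Y → ∃ w w' : ℕ, (Real.log Y) ^ c ≤ w ∧
    (w : ℝ) ≤ (Real.log Y) ^ (c + 1) ∧ w ≤ w' ∧ w' ^ n ≤ Y ∧ (Real.log Y) ^ (1 - η) ≤ Real.log w' ∧
    (w' : ℝ) ≤ Real.exp ((Real.log Y) ^ (1 - η / 2)) ∧ w' ≤ Y := by
  obtain ⟨l0, hl0⟩ := f7_l 0 c (n + 1) η hη hη1
  obtain ⟨x1, hx1⟩ := Filter.eventually_atTop.1 ((Real.tendsto_log_atTop.eventually (Filter.eventually_ge_atTop (max l0 8))).and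
    (Filter.eventually_ge_atTop (16 : ℝ)))
  refine ⟨x1, fun Y hY => ?_⟩
  obtain ⟨h1, h2⟩ := hx1 Y hY
  have hY0 : (0 : ℝ) < Y := by linarith
  obtain ⟨l, hl⟩ : ∃ l : ℝ, l = Real.log Y := ⟨_, rfl⟩
  rw [← hl] at h1 ⊢
  obtain ⟨b1, b2, b3, b4, b5, b6, b7, b8⟩ := hl0 l ((le_max_left _ _).trans h1)
  have hYe : (Y : ℝ) = Real.exp l := by rw [hl, Real.exp_log hY0]
  have hl1 : (1 : ℝ) ≤ l := by linarith
  have hl00 : (0 : ℝ) < l := by linarith
  obtain ⟨E, hE⟩ : ∃ E : ℝ, E = Real.exp (l ^ (1 - η / 2)) := ⟨_, rfl⟩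
  rw [← hE]
  have p1 : (1 : ℝ) ≤ l ^ (1 - η) := Real.one_le_rpow hl1 (by linarith)
  have hE2 : (2 : ℝ) ≤ E := by
    rw [hE]
    have := Real.add_one_le_exp (l ^ (1 - η / 2))
    linarith
  have hc1 : (1 : ℝ) ≤ l ^ c := one_le_pow₀ hl1
  have a1 := Nat.ceil_lt_add_one (show 0 ≤ l ^ c by positivity)
  have a2 : ((⌈l ^ c⌉₊ : ℕ) : ℝ) ≤ l ^ (c + 1) := by
    rw [pow_succ]
    nlinarith
  have f1 : ((⌊E⌋₊ : ℕ) : ℝ) ≤ E := Nat.floor_le (by linarith)
  have f2 : E < (⌊E⌋₊ : ℝ) + 1 := Nat.lt_floor_add_one _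
  have f3 : E / 2 ≤ (⌊E⌋₊ : ℝ) := by linarith
  have f4 : l ^ (c + 1) ≤ E / 2 := by
    have g1 : l ^ (c + 1) = Real.exp (((c + 1 : ℕ) : ℝ) * Real.log l) := by
      rw [mul_comm, Real.exp_mul, Real.exp_log hl00, Real.rpow_natCast]
    have g2 : Real.exp (((c + 1 : ℕ) : ℝ) * Real.log l + 1) ≤ E := by
      rw [hE]
      refine Real.exp_le_exp.mpr ?_
      push_cast
      linarith
    rw [Real.exp_add, ← g1] at g2
    have g3 : (2 : ℝ) ≤ Real.exp 1 := by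
      have := Real.exp_one_gt_d9
      linarith
    have g4 : (0 : ℝ) < l ^ (c + 1) := by positivity
    nlinarith
  have c1 : (⌊E⌋₊) ^ (n + 1) ≤ Y := by
    have h : ((⌊E⌋₊ : ℕ) : ℝ) ^ (n + 1) ≤ Y := by
      calc ((⌊E⌋₊ : ℕ) : ℝ) ^ (n + 1) ≤ E ^ (n + 1) := pow_le_pow_left₀ (Nat.cast_nonneg _) f1 _
        _ = Real.exp (((n + 1 : ℕ) : ℝ) * l ^ (1 - η / 2)) := by
            rw [hE, ← Real.exp_nat_mul]
        _ ≤ Real.exp l := Real.exp_le_exp.mpr b3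
        _ = Y := hYe.symm
    exact_mod_cast h
  have hw1 : 1 ≤ ⌊E⌋₊ := Nat.le_floor (by rw [Nat.cast_one]; linarith)
  refine ⟨⌈l ^ c⌉₊, ⌊E⌋₊, Nat.le_ceil _, a2, ?_, (Nat.pow_le_pow_right hw1 (by omega)).trans c1, ?_, f1, ?_⟩
  · have : ((⌈l ^ c⌉₊ : ℕ) : ℝ) ≤ (⌊E⌋₊ : ℝ) := by linarith
    exact_mod_cast this
  · have g1 : Real.log (E / 2) ≤ Real.log (⌊E⌋₊ : ℝ) := Real.log_le_log (by linarith) f3
    have g2 : Real.log (E / 2) = l ^ (1 - η / 2) - Real.log 2 := by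
      rw [Real.log_div (by linarith) (by norm_num), hE, Real.log_exp]
    have g3 := Real.log_two_lt_d9
    linarith
  · exact (Nat.le_self_pow (by omega) _).trans c1

/-- the comparison at one `N` -/
private theorem f7_cmp {S sg L b a T TKN f ε ε2 : ℝ} (hS : 0 ≤ S) (hb : 0 ≤ b) (hL : 1 ≤ L) (hf : 1 ≤ f) (ha : 0 ≤ a)
    (hε : 0 < ε) (hε1 : ε ≤ 1) (hε2 : ε2 * f = ε / 32) (_hsg0 : 0 ≤ 1 + sg) (h6 : |T - S * sg * b| ≤ ε2 * (S * (1 + sg) * b))
    (hsg : |sg - L / f| ≤ ε2 * L) (hbd : |TKN - T| ≤ ε2 * (S * (b * L))) (hnn : |b * L - a| ≤ ε / 4 * a) :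
    |TKN - S * (a / f)| ≤ ε * (S * (a / f)) := by
  have hf0 : 0 < f := by linarith
  have h20 : 0 < ε2 := by
    by_contra h
    have h' : ε2 ≤ 0 := not_lt.mp h
    nlinarith
  have h21 : ε2 ≤ 1 / 32 := by nlinarith
  obtain ⟨n1, n2⟩ := abs_le.1 hnn
  have hB : b * L ≤ 2 * a := by nlinarith
  have hB0 : 0 ≤ b * L := by positivity
  have hLf : L / f ≤ L := div_le_self (by linarith) hf
  have hsg1 : 1 + sg ≤ 3 * L := by
    have := (abs_le.1 hsg).2
    nlinarith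
  have t1 : ε2 * (S * (1 + sg) * b) ≤ ε2 * (6 * (S * a)) := by
    refine mul_le_mul_of_nonneg_left ?_ h20.le
    calc S * (1 + sg) * b ≤ S * (3 * L) * b := by gcongr
      _ = 3 * (S * (b * L)) := by ring
      _ ≤ 3 * (S * (2 * a)) := by gcongr
      _ = 6 * (S * a) := by ring
  have t2 : |S * b * (sg - L / f)| ≤ ε2 * (2 * (S * a)) := by
    rw [abs_mul, abs_of_nonneg (mul_nonneg hS hb)]
    calc S * b * |sg - L / f| ≤ S * b * (ε2 * L) := mul_le_mul_of_nonneg_left hsg (mul_nonneg hS hb)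
      _ = ε2 * (S * (b * L)) := by ring
      _ ≤ ε2 * (S * (2 * a)) := by gcongr
      _ = ε2 * (2 * (S * a)) := by ring
  have t3 : |S / f * (b * L - a)| ≤ ε / 4 * (S * (a / f)) := by
    rw [abs_mul, abs_of_nonneg (by positivity : (0 : ℝ) ≤ S / f)]
    calc S / f * |b * L - a| ≤ S / f * (ε / 4 * a) := mul_le_mul_of_nonneg_left hnn (by positivity)
      _ = ε / 4 * (S * (a / f)) := by ring
  have t4 : |TKN - T| ≤ ε2 * (2 * (S * a)) := by
    refine hbd.trans ?_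
    refine mul_le_mul_of_nonneg_left ?_ h20.le
    calc S * (b * L) ≤ S * (2 * a) := by gcongr
      _ = 2 * (S * a) := by ring
  have e : TKN - S * (a / f) = (TKN - T) + (T - S * sg * b) + S * b * (sg - L / f) + S / f * (b * L - a) := by
    field_simp
    ring
  have h2f : ε2 * (10 * (S * a)) = ε * (10 / 32) * (S * (a / f)) := by
    have : ε2 = ε / 32 / f := by
      rw [eq_div_iff hf0.ne']
      exact hε2
    rw [this]
    field_simp
  rw [e]
  refine (abs_add_le _ _).trans ?_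
  have u1 := abs_add_le ((TKN - T) + (T - S * sg * b)) (S * b * (sg - L / f))
  have u2 := abs_add_le (TKN - T) (T - S * sg * b)
  have hSa : 0 ≤ S * (a / f) := by positivity
  nlinarith [mul_nonneg hε.le hSa]

theorem g7 (k A : ℕ) (hk : 2 ≤ k) (ε : ℝ) (hε : 0 < ε) : ∃ η : ℝ, 0 < η ∧ η < 1 ∧ ∃ X₀ : ℕ, ∀ X H : ℕ, X₀ ≤ X →
    Real.exp ((Real.log X) ^ (1 - η)) ≤ H → H ≤ X →
    (((Ioc X (X + H)).filter fun N => Even N ∧ ε * MK k N < |(TK k N : ℝ) - MK k N|).card : ℝ) ≤ H / (Real.log X) ^ A := by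
  classical
  obtain ⟨c10, h6⟩ := r6 k (A + 1) hk
  obtain ⟨C, h6⟩ := h6 c10 le_rfl
  obtain ⟨f, hf⟩ : ∃ f : ℝ, f = (Nat.factorial (k - 1) : ℝ) := ⟨_, rfl⟩
  have hf1 : 1 ≤ f := by
    rw [hf]
    exact_mod_cast Nat.one_le_iff_ne_zero.mpr (Nat.factorial_ne_zero _)
  obtain ⟨ε', hε'⟩ : ∃ ε' : ℝ, ε' = min ε 1 := ⟨_, rfl⟩
  have hε'0 : 0 < ε' := by rw [hε']; exact lt_min hε one_pos
  have hε'1 : ε' ≤ 1 := by rw [hε']; exact min_le_right _ _
  have hε'ε : ε' ≤ ε := by rw [hε']; exact min_le_left _ _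
  obtain ⟨ε2, hε2⟩ : ∃ ε2 : ℝ, ε2 = ε' / (32 * f) := ⟨_, rfl⟩
  have hε20 : 0 < ε2 := by rw [hε2]; positivity
  have hε2f : ε2 * f = ε' / 32 := by
    rw [hε2]
    field_simp
  obtain ⟨M, x0, h6⟩ := h6 ε2 hε20
  obtain ⟨n, hn⟩ : ∃ n : ℕ, n = M + 4 * k := ⟨_, rfl⟩
  have hnM : M ≤ n := by omega
  have hnk : 4 * k ≤ n := by omega
  obtain ⟨η2, hη2, hη21, y2, hy2⟩ := mk7 k (c10 + 5) hk ε2 hε20
  obtain ⟨η3, hη3, hη31, y3, hy3⟩ := bd7 k (c10 + 5) hk ε2 hε20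
  obtain ⟨η, hη⟩ : ∃ η : ℝ, η = min η2 η3 := ⟨_, rfl⟩
  have hη0 : 0 < η := by rw [hη]; exact lt_min hη2 hη3
  have hηa : η ≤ η2 := by rw [hη]; exact min_le_left _ _
  have hηb : η ≤ η3 := by rw [hη]; exact min_le_right _ _
  have hη1 : η < 1 := by linarith
  obtain ⟨X1, hX1⟩ := f7_ev C η hη0 hη1
  obtain ⟨y1, hy1⟩ := f7_par (c10 + 4) n η hη0 hη1
  obtain ⟨y4, hy4⟩ := nn k (ε' / 4) (by positivity)
  obtain ⟨y5, hy5⟩ := Filter.eventually_atTop.1 ((Real.tendsto_log_atTop.comp Real.tendsto_log_atTop).eventually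
    (Filter.eventually_ge_atTop (1 : ℝ)))
  refine ⟨η / 8, by positivity, by linarith, max X1 (max ⌈x0⌉₊ (max ⌈y1⌉₊ (max ⌈y2⌉₊ (max ⌈y3⌉₊ (max ⌈y4⌉₊ ⌈y5⌉₊))))), ?_⟩
  intro X H hX hH1 hH2
  have hXa : X1 ≤ X := (le_max_left _ _).trans hX
  have hX' := (le_max_right _ _).trans hX
  have hXb : x0 ≤ X := (Nat.le_ceil _).trans (by exact_mod_cast (le_max_left _ _).trans hX')
  have hX' := (le_max_right _ _).trans hX'
  have hXc : y1 ≤ X := (Nat.le_ceil _).trans (by exact_mod_cast (le_max_left _ _).trans hX')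
  have hX' := (le_max_right _ _).trans hX'
  have hXd : y2 ≤ X := (Nat.le_ceil _).trans (by exact_mod_cast (le_max_left _ _).trans hX')
  have hX' := (le_max_right _ _).trans hX'
  have hXe : y3 ≤ X := (Nat.le_ceil _).trans (by exact_mod_cast (le_max_left _ _).trans hX')
  have hX' := (le_max_right _ _).trans hX'
  have hXf : y4 ≤ X := (Nat.le_ceil _).trans (by exact_mod_cast (le_max_left _ _).trans hX')
  have hXg : y5 ≤ X := (Nat.le_ceil _).trans (by exact_mod_cast (le_max_right _ _).trans hX')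
  obtain ⟨g1, g2, g3, g4, g5⟩ := hX1 X hXa
  obtain ⟨l, hl⟩ : ∃ l : ℝ, l = Real.log X := ⟨_, rfl⟩
  rw [← hl] at g2 g3 g4 g5 hH1 ⊢
  have hX0 : (0 : ℝ) < X := by linarith
  have hXone : (1 : ℝ) ≤ X := by linarith
  obtain ⟨h, hh⟩ : ∃ h : ℕ, h = ⌈Real.exp (l ^ (1 - η / 4))⌉₊ := ⟨_, rfl⟩
  have hh1 : Real.exp (l ^ (1 - η / 4)) ≤ h := by rw [hh]; exact Nat.le_ceil _
  have hh2 : (h : ℝ) ≤ Real.exp (l ^ (1 - η / 4)) + 1 := by rw [hh]; exact (Nat.ceil_lt_add_one (by positivity)).le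
  have hh0 : 1 ≤ h := by
    have : (1 : ℝ) ≤ h := (Real.one_le_exp (by positivity)).trans hh1
    exact_mod_cast this
  have hhH : h ≤ H := by
    have : (h : ℝ) ≤ H := by
      calc (h : ℝ) ≤ Real.exp (l ^ (1 - η / 4)) + 1 := hh2
        _ ≤ Real.exp (l ^ (1 - η / 8)) := g4
        _ ≤ H := hH1
    exact_mod_cast this
  have hcov := fin_cover (fun N : ℕ => Even N ∧ ε * MK k N < |(TK k N : ℝ) - MK k N|) (X := X) (H := H) (h := h)
    (S := (H : ℝ) + h) (ε := 1 / l ^ (A + 1)) hh0 hhH (by positivity) le_rfl ?_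
  · refine hcov.trans ?_
    have h7 : l ^ (A + 1) = l ^ A * l := pow_succ _ _
    have h8 : 0 < l ^ A := by positivity
    rw [h7, mul_one_div, div_le_div_iff₀ (by positivity) h8]
    have : (0 : ℝ) ≤ H := Nat.cast_nonneg _
    nlinarith [mul_nonneg this h8.le]
  · intro Y hY1 hY2
    have hY1' : (X : ℝ) ≤ Y := by exact_mod_cast hY1
    have hY2' : (Y : ℝ) ≤ 2 * X := by
      have : (H : ℝ) ≤ X := by exact_mod_cast hH2
      linarith
    have hY2n : Y ≤ 2 * X := by exact_mod_cast hY2'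
    have hY0 : (0 : ℝ) < Y := by linarith
    have hlY1 : l ≤ Real.log Y := by rw [hl]; exact Real.log_le_log hX0 hY1'
    obtain ⟨w, w', p1, p2, p3, p4, p5, p6, p7⟩ := hy1 Y (hXc.trans hY1')
    have hlY0 : 1 ≤ Real.log Y := by linarith
    have hw'0 : 1 ≤ w' := by
      have h1 : (1 : ℝ) ≤ w := (one_le_pow₀ hlY0).trans p1
      have h2 : 1 ≤ w := by exact_mod_cast h1
      omega
    have hRg : Rg2 Y w w' c10 M := by
      refine ⟨(pow_le_pow_right₀ hlY0 (by omega)).trans p1, p3, ?_⟩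
      exact (Nat.pow_le_pow_right hw'0 hnM).trans p4
    have hhY : (w' : ℝ) * (Real.log Y) ^ C ≤ h := by
      refine le_trans ?_ hh1
      refine le_trans (mul_le_mul_of_nonneg_right p6 (by positivity)) (g5 Y hY1 hY2n)
    have hsq : Real.sqrt X ≤ Real.sqrt Y := Real.sqrt_le_sqrt hY1'
    have hhs : 2 * (h : ℝ) ≤ Real.sqrt Y := by linarith
    have h9 := h6 Y (hXb.trans hY1') w w' hRg h hhY hhs
    have hLL : 1 ≤ Real.log (Real.log Y) := hy5 Y (hXg.trans hY1')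
    have p5a : (Real.log Y) ^ (1 - η2) ≤ Real.log w' := (Real.rpow_le_rpow_of_exponent_le hlY0 (by linarith)).trans p5
    have p5b : (Real.log Y) ^ (1 - η3) ≤ Real.log w' := (Real.rpow_le_rpow_of_exponent_le hlY0 (by linarith)).trans p5
    have hmk := hy2 Y w w' (hXd.trans hY1') (by
      calc Real.log Y = (Real.log Y) ^ 1 := (pow_one _).symm
        _ ≤ (Real.log Y) ^ (c10 + 4) := pow_le_pow_right₀ hlY0 (by omega)
        _ ≤ w := p1) p2 p3 p5a p7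
    refine le_trans ?_ (h9.trans ?_)
    · have hsub : ((Ioc Y (Y + h)).filter fun N : ℕ => Even N ∧ ε * MK k N < |(TK k N : ℝ) - MK k N|) ⊆
          ((Ioc Y (Y + h)).filter fun N => Even N ∧ ε2 * (SS N * (1 + sgK k w w') * (Y / (Real.log Y) ^ 2)) <
            |(TT k w w' N : ℝ) - SS N * sgK k w w' * (Y / (Real.log Y) ^ 2)|) := by
        intro N hN
        rw [mem_filter, mem_Ioc] at hN ⊢
        obtain ⟨⟨hN1, hN2⟩, hev, hN3⟩ := hN
        refine ⟨⟨hN1, hN2⟩, hev, ?_⟩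
        by_contra hcon
        rw [not_lt] at hcon
        have hN2' : (N : ℝ) ≤ Y + h := by exact_mod_cast hN2
        have hNs : (N : ℝ) ≤ Y + Real.sqrt Y := by
          have : (0 : ℝ) ≤ h := Nat.cast_nonneg _
          linarith
        have hN2Y : N ≤ 2 * Y := by
          have h1 : Real.sqrt Y ≤ Y := by
            rw [Real.sqrt_le_left hY0.le]
            nlinarith
          have h2 : (N : ℝ) ≤ 2 * Y := by linarith
          exact_mod_cast h2
        have hbd := hy3 Y w w' N (hXe.trans hY1') ((pow_le_pow_right₀ hlY0 (by omega)).trans p1) p2 p3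
          ((Nat.pow_le_pow_right hw'0 hnk).trans p4) p5b hN1 hN2Y hev
        have hnn := hy4 Y N (hXf.trans hY1') hN1 hNs
        have hSS : 0 ≤ SS N := by
          have := q8 N hev
          linarith
        have hNr : (Y : ℝ) ≤ N := by exact_mod_cast hN1.le
        have hlN : Real.log Y ≤ Real.log N := Real.log_le_log hY0 hNr
        have hLN : 0 ≤ Real.log (Real.log N) := Real.log_nonneg (by linarith)
        have hsg0 : 0 ≤ 1 + sgK k w w' := by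
          have : 0 ≤ sgK k w w' := by
            unfold sgK Pool.Agent.Lib.G5.sg1 Pool.Agent.Lib.G5.esy
            have hk1 : (0 : ℝ) ≤ (k : ℝ) - 1 := by
              have : (2 : ℝ) ≤ k := by exact_mod_cast hk
              linarith
            refine div_nonneg (mul_nonneg (sum_nonneg fun p _ => by positivity) (sum_nonneg fun s _ => prod_nonneg fun p _ => by positivity)) hk1
          linarith
        have hkey := f7_cmp (S := SS N) (sg := sgK k w w') (L := (Real.log (Real.log Y)) ^ (k - 1)) (b := Y / (Real.log Y) ^ 2)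
          (a := N / (Real.log N) ^ 2 * (Real.log (Real.log N)) ^ (k - 1)) (T := TT k w w' N) (TKN := TK k N) (f := f) (ε := ε') (ε2 := ε2)
          hSS (by positivity) (one_le_pow₀ hLL) hf1 (by positivity) hε'0 hε'1 hε2f hsg0 hcon (by rw [hf]; exact hmk) hbd hnn
        have hM : MK k N = SS N * (N / (Real.log N) ^ 2 * (Real.log (Real.log N)) ^ (k - 1) / f) := by
          unfold MK
          rw [hf]
          ring
        rw [← hM] at hkey
        have hM0 : 0 ≤ MK k N := by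
          rw [hM]
          positivity
        have := mul_le_mul_of_nonneg_right hε'ε hM0
        linarith
      exact_mod_cast card_le_card hsub
    · rw [mul_one_div]
      apply div_le_div_of_nonneg_left (Nat.cast_nonneg _) (by positivity)
      exact pow_le_pow_left₀ (by linarith) hlY1 _

end Pool.Agent.Lib.G6
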