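import Pool.Agent.Lib.G6.GDefs
import Pool.Agent.Lib.G5.Q2
import Pool.Agent.Lib.G3.Mert5

/-!
# G6, row Mw: `sgK` for general real thresholds

PROOF IN WORDS. `σ = log (log w'/log w) ≥ 0`, `u = ⌊w⌋`, `v = ⌊w'⌋`, `σ1 = sg1 u v`. `mert5` (G3/Mert5.lean, `pi5 u v = PP u v` by definition): `|σ1 - log (log v/log u)| ≤ ε'` for
`u ≥ z0`. `log w - 1/u ≤ log u ≤ log w` (`w ≤ u + 1`, `log (1 + 1/u) ≤ 1/u`), so `|log (log v/log u) - σ| ≤ 2/u ≤ ε'` for large `w` (`log u ≥ 1`). So `|σ1 - σ| ≤ 2 ε'`.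
`q2a` (G5/Q2.lean): `|(j+1) esy_(j+1) - σ1 esy_j| ≤ (j/u) esy_j`. By induction on `j`: for every `ε > 0` there is `w0` with `|esy_j u v - σ^j/j!| ≤ ε (1 + σ)^j`
(`esy_0 = 1`; step: `esy_j ≤ 2 (1+σ)^j`, `|(j+1) esy_(j+1) - σ^(j+1)/j!| ≤ |σ1 - σ| esy_j + σ |esy_j - σ^j/j!| + (j/u) esy_j ≤ (4ε' + ε'' + 2j/u)(1+σ)^(j+1)`).
Finally `sgK = σ1 esy_(k-2)/(k-1)` in the same way, `(k-1) (k-2)! = (k-1)!`.
-/

set_option autoImplicit false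

open Finset

namespace Pool.Agent.Lib.G6

open Pool.Agent.Lib.G5 (PP sg1 esy sgK)

/-- the double logarithm of the integer part -/
private theorem mw_fl (x : ℝ) (hx : 3 ≤ x) : 0 ≤ Real.log (Real.log x) - Real.log (Real.log (⌊x⌋₊ : ℝ)) ∧
    Real.log (Real.log x) - Real.log (Real.log (⌊x⌋₊ : ℝ)) ≤ 1 / (⌊x⌋₊ : ℝ) := by
  have hu3 : 3 ≤ ⌊x⌋₊ := Nat.le_floor (by exact_mod_cast hx)
  have hu : (3 : ℝ) ≤ (⌊x⌋₊ : ℝ) := by exact_mod_cast hu3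
  set u : ℝ := (⌊x⌋₊ : ℝ) with hudef
  have hux : u ≤ x := Nat.floor_le (by linarith)
  have hxu : x ≤ u + 1 := (Nat.lt_floor_add_one x).le
  have hlu : 1 ≤ Real.log u := by
    rw [Real.le_log_iff_exp_le (by linarith)]
    exact (Real.exp_one_lt_d9.le.trans (by norm_num)).trans hu
  have hlx : Real.log u ≤ Real.log x := Real.log_le_log (by linarith) hux
  constructor
  · have := Real.log_le_log (by linarith) hlx
    linarith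
  · have h1 : Real.log x - Real.log u ≤ 1 / u := by
      rw [← Real.log_div (by linarith) (by linarith)]
      have h2 := Real.log_le_sub_one_of_pos (show 0 < x / u by
        apply div_pos <;> linarith)
      have h3 : x / u - 1 ≤ 1 / u := by
        rw [div_sub_one (by linarith)]
        gcongr
        linarith
      linarith
    rw [← Real.log_div (by linarith) (by linarith)]
    have h2 := Real.log_le_sub_one_of_pos (show 0 < Real.log x / Real.log u by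
      apply div_pos <;> linarith)
    have h3 : Real.log x / Real.log u - 1 ≤ 1 / u := by
      rw [div_sub_one (by linarith), div_le_iff₀ (by linarith)]
      have h4 : 1 / u ≤ 1 / u * Real.log u := by
        apply le_mul_of_one_le_right _ hlu
        exact div_nonneg zero_le_one (by linarith)
      linarith
    linarith

/-- `sg1` for real thresholds -/
private theorem mw_sg (ε : ℝ) (hε : 0 < ε) : ∃ w0 : ℝ, ∀ w w' : ℝ, w0 ≤ w → w ≤ w' →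
    |sg1 ⌊w⌋₊ ⌊w'⌋₊ - Real.log (Real.log w' / Real.log w)| ≤ ε := by
  obtain ⟨z0, hz0⟩ := Pool.Agent.Lib.G3.mert5 (ε / 2) (by linarith)
  refine ⟨max z0 (max 3 (4 / ε + 1)), fun w w' hw hww' => ?_⟩
  have h1 : (z0 : ℝ) ≤ w := (le_max_left _ _).trans hw
  have h3 : 3 ≤ w := (le_max_left _ _).trans ((le_max_right _ _).trans hw)
  have h4 : 4 / ε + 1 ≤ w := (le_max_right _ _).trans ((le_max_right _ _).trans hw)
  have hm := hz0 ⌊w⌋₊ ⌊w'⌋₊ (Nat.le_floor h1) (Nat.floor_mono hww')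
  have hrfl : sg1 ⌊w⌋₊ ⌊w'⌋₊ = ∑ p ∈ Pool.Agent.Lib.G3.pi5 ⌊w⌋₊ ⌊w'⌋₊, (1 : ℝ) / p := rfl
  rw [← hrfl] at hm
  have hsmall : ∀ x : ℝ, w ≤ x → 1 / (⌊x⌋₊ : ℝ) ≤ ε / 4 := by
    intro x hx
    have h5 : 4 / ε ≤ (⌊x⌋₊ : ℝ) := by
      have := Nat.lt_floor_add_one x
      linarith
    have h6 : 0 < 4 / ε := by positivity
    calc 1 / (⌊x⌋₊ : ℝ) ≤ 1 / (4 / ε) := one_div_le_one_div_of_le h6 h5
      _ = ε / 4 := by rw [one_div_div]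
  obtain ⟨a1, a2⟩ := mw_fl w h3
  obtain ⟨b1, b2⟩ := mw_fl w' (h3.trans hww')
  have a3 := a2.trans (hsmall w le_rfl)
  have b3 := b2.trans (hsmall w' hww')
  have hpos : ∀ x : ℝ, 3 ≤ x → 0 < Real.log x ∧ 0 < Real.log (⌊x⌋₊ : ℝ) := by
    intro x hx
    have hu3 : 3 ≤ ⌊x⌋₊ := Nat.le_floor (by exact_mod_cast hx)
    have hu : (3 : ℝ) ≤ (⌊x⌋₊ : ℝ) := by exact_mod_cast hu3
    exact ⟨Real.log_pos (by linarith), Real.log_pos (by linarith)⟩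
  obtain ⟨p1, p2⟩ := hpos w h3
  obtain ⟨p3, p4⟩ := hpos w' (h3.trans hww')
  rw [Real.log_div p4.ne' p2.ne'] at hm
  rw [Real.log_div p3.ne' p1.ne']
  rw [abs_le] at hm ⊢
  constructor <;> linarith [hm.1, hm.2]

private theorem mw_core {σ s1 A B θ δ1 δ2 δ3 P : ℝ} (hσ : 0 ≤ σ) (hP : 0 ≤ P) (hδ1 : 0 ≤ δ1) (hδ2 : 0 ≤ δ2)
    (hδ3 : 0 ≤ δ3) (h1 : |s1 - σ| ≤ δ2) (h2 : |A - B| ≤ δ1 * P) (hA : 0 ≤ A) (hA2 : A ≤ 2 * P) (hθ0 : 0 ≤ θ)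
    (hθ : θ ≤ δ3 * A) : |s1 * A - θ - σ * B| ≤ (2 * δ2 + δ1 + 2 * δ3) * (P * (1 + σ)) := by
  have e : s1 * A - θ - σ * B = (s1 - σ) * A + σ * (A - B) + -θ := by ring
  have h3 : |(s1 - σ) * A| ≤ δ2 * (2 * P) := by
    rw [abs_mul, abs_of_nonneg hA]
    exact mul_le_mul h1 hA2 hA hδ2
  have h4 : |σ * (A - B)| ≤ σ * (δ1 * P) := by
    rw [abs_mul, abs_of_nonneg hσ]
    exact mul_le_mul_of_nonneg_left h2 hσ
  have h5 : |(-θ)| ≤ δ3 * (2 * P) := by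
    rw [abs_neg, abs_of_nonneg hθ0]
    exact hθ.trans (mul_le_mul_of_nonneg_left hA2 hδ3)
  rw [e]
  refine (abs_add_three _ _ _).trans ?_
  have h6 : 0 ≤ P * σ := mul_nonneg hP hσ
  have h7 : 0 ≤ δ2 * (P * σ) := mul_nonneg hδ2 h6
  have h8 : 0 ≤ δ3 * (P * σ) := mul_nonneg hδ3 h6
  have h9 : 0 ≤ δ1 * P := mul_nonneg hδ1 hP
  have e2 : (2 * δ2 + δ1 + 2 * δ3) * (P * (1 + σ)) = δ2 * (2 * P) + σ * (δ1 * P) + δ3 * (2 * P) + δ1 * P +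
      2 * (δ2 * (P * σ)) + 2 * (δ3 * (P * σ)) := by ring
  rw [e2]
  linarith

private theorem mw_esy0 (j u v : ℕ) : 0 ≤ esy j u v :=
  sum_nonneg fun s _ => prod_nonneg fun p _ => by positivity

private theorem mw_sig {w w' : ℝ} (hw : 3 ≤ w) (hww' : w ≤ w') : 0 ≤ Real.log (Real.log w' / Real.log w) := by
  have h1 : 0 < Real.log w := Real.log_pos (by linarith)
  refine Real.log_nonneg ?_
  rw [one_le_div h1]
  exact Real.log_le_log (by linarith) hww'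

private theorem mw_pow {σ : ℝ} (hσ : 0 ≤ σ) (j : ℕ) : σ ^ j / (Nat.factorial j : ℝ) ≤ (1 + σ) ^ j := by
  have h1 : (1 : ℝ) ≤ (Nat.factorial j : ℝ) := by exact_mod_cast Nat.factorial_pos j
  exact (div_le_self (by positivity) h1).trans (by gcongr; linarith)

/-- the elementary symmetric sums -/
private theorem mw_esy (j : ℕ) : ∀ ε : ℝ, 0 < ε → ∃ w0 : ℝ, ∀ w w' : ℝ, w0 ≤ w → w ≤ w' →
    |esy j ⌊w⌋₊ ⌊w'⌋₊ - (Real.log (Real.log w' / Real.log w)) ^ j / (Nat.factorial j : ℝ)| ≤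
      ε * (1 + Real.log (Real.log w' / Real.log w)) ^ j := by
  induction j with
  | zero =>
    intro ε hε
    refine ⟨0, fun w w' _ _ => ?_⟩
    simp [esy, hε.le]
  | succ j ih =>
    intro ε hε
    obtain ⟨w1, hw1⟩ := ih (min (ε / 4) 1) (by positivity)
    obtain ⟨w2, hw2⟩ := mw_sg (ε / 8) (by positivity)
    refine ⟨max (max w1 w2) (max 3 (8 * j / ε + 1)), fun w w' hw hww' => ?_⟩
    have k1 : w1 ≤ w := (le_max_left _ _).trans ((le_max_left _ _).trans hw)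
    have k2 : w2 ≤ w := (le_max_right _ _).trans ((le_max_left _ _).trans hw)
    have k3 : 3 ≤ w := (le_max_left _ _).trans ((le_max_right _ _).trans hw)
    have k4 : 8 * j / ε + 1 ≤ w := (le_max_right _ _).trans ((le_max_right _ _).trans hw)
    have m1 := hw1 w w' k1 hww'
    have m2 := hw2 w w' k2 hww'
    have hσ := mw_sig k3 hww'
    have hpw := mw_pow hσ j
    set σ : ℝ := Real.log (Real.log w' / Real.log w) with hσd
    have hu3 : 3 ≤ ⌊w⌋₊ := Nat.le_floor (by exact_mod_cast k3)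
    have hu : (3 : ℝ) ≤ (⌊w⌋₊ : ℝ) := by exact_mod_cast hu3
    obtain ⟨q1, q2⟩ := Pool.Agent.Lib.G5.q2a j ⌊w⌋₊ ⌊w'⌋₊ (by omega)
    have hP : 0 ≤ (1 + σ) ^ j := by positivity
    have hA := mw_esy0 j ⌊w⌋₊ ⌊w'⌋₊
    have hA2 : esy j ⌊w⌋₊ ⌊w'⌋₊ ≤ 2 * (1 + σ) ^ j := by
      have h1 := (abs_le.1 m1).2
      have h2 : min (ε / 4) 1 * (1 + σ) ^ j ≤ 1 * (1 + σ) ^ j :=
        mul_le_mul_of_nonneg_right (min_le_right _ _) hP
      linarith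
    have hju : (j : ℝ) / (⌊w⌋₊ : ℝ) ≤ ε / 8 := by
      have h1 := Nat.lt_floor_add_one w
      have h2 : 8 * j / ε ≤ (⌊w⌋₊ : ℝ) := by linarith
      rw [div_le_iff₀ hε] at h2
      rw [div_le_iff₀ (by linarith)]
      linarith
    have hc := mw_core (θ := sg1 ⌊w⌋₊ ⌊w'⌋₊ * esy j ⌊w⌋₊ ⌊w'⌋₊ - (j + 1) * esy (j + 1) ⌊w⌋₊ ⌊w'⌋₊) hσ hP
      (by positivity : 0 ≤ min (ε / 4) 1) (by positivity : 0 ≤ ε / 8) (by positivity : 0 ≤ ε / 8) m2 m1 hA hA2 q1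
      (q2.trans (mul_le_mul_of_nonneg_right hju hA))
    have hf : (0 : ℝ) < (Nat.factorial j : ℝ) := by exact_mod_cast Nat.factorial_pos j
    have hj1 : (0 : ℝ) < (j : ℝ) + 1 := by positivity
    have e1 : sg1 ⌊w⌋₊ ⌊w'⌋₊ * esy j ⌊w⌋₊ ⌊w'⌋₊ -
        (sg1 ⌊w⌋₊ ⌊w'⌋₊ * esy j ⌊w⌋₊ ⌊w'⌋₊ - (j + 1) * esy (j + 1) ⌊w⌋₊ ⌊w'⌋₊) -
        σ * (σ ^ j / (Nat.factorial j : ℝ)) =
        ((j : ℝ) + 1) * (esy (j + 1) ⌊w⌋₊ ⌊w'⌋₊ - σ ^ (j + 1) / (Nat.factorial (j + 1) : ℝ)) := by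
      rw [Nat.factorial_succ]
      push_cast
      field_simp
      ring
    rw [e1, abs_mul, abs_of_pos hj1] at hc
    have h5 : |esy (j + 1) ⌊w⌋₊ ⌊w'⌋₊ - σ ^ (j + 1) / (Nat.factorial (j + 1) : ℝ)| ≤
        ((j : ℝ) + 1) * |esy (j + 1) ⌊w⌋₊ ⌊w'⌋₊ - σ ^ (j + 1) / (Nat.factorial (j + 1) : ℝ)| := by
      apply le_mul_of_one_le_left (abs_nonneg _)
      have : (0 : ℝ) ≤ j := Nat.cast_nonneg j
      linarith
    refine h5.trans (hc.trans ?_)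
    rw [pow_succ]
    have h6 : min (ε / 4) 1 ≤ ε / 4 := min_le_left _ _
    have h7 : 0 ≤ (1 + σ) ^ j * (1 + σ) := by positivity
    apply mul_le_mul_of_nonneg_right _ h7
    linarith

theorem mw (k : ℕ) (hk : 2 ≤ k) (ε : ℝ) (hε : 0 < ε) : ∃ w0 : ℝ, ∀ w w' : ℝ, w0 ≤ w → w ≤ w' →
    |sgK k ⌊w⌋₊ ⌊w'⌋₊ - (Real.log (Real.log w' / Real.log w)) ^ (k - 1) / (Nat.factorial (k - 1) : ℝ)| ≤
      ε * (1 + Real.log (Real.log w' / Real.log w)) ^ (k - 1) := by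
  obtain ⟨m, rfl⟩ : ∃ m, k = m + 2 := ⟨k - 2, by omega⟩
  obtain ⟨w1, hw1⟩ := mw_esy m (min (ε / 4) 1) (by positivity)
  obtain ⟨w2, hw2⟩ := mw_sg (ε / 8) (by positivity)
  refine ⟨max (max w1 w2) 3, fun w w' hw hww' => ?_⟩
  have k1 : w1 ≤ w := (le_max_left _ _).trans ((le_max_left _ _).trans hw)
  have k2 : w2 ≤ w := (le_max_right _ _).trans ((le_max_left _ _).trans hw)
  have k3 : 3 ≤ w := (le_max_right _ _).trans hw
  have m1 := hw1 w w' k1 hww'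
  have m2 := hw2 w w' k2 hww'
  have hσ := mw_sig k3 hww'
  have hpw := mw_pow hσ m
  set σ : ℝ := Real.log (Real.log w' / Real.log w) with hσd
  have hP : 0 ≤ (1 + σ) ^ m := by positivity
  have hA := mw_esy0 m ⌊w⌋₊ ⌊w'⌋₊
  have hA2 : esy m ⌊w⌋₊ ⌊w'⌋₊ ≤ 2 * (1 + σ) ^ m := by
    have h1 := (abs_le.1 m1).2
    have h2 : min (ε / 4) 1 * (1 + σ) ^ m ≤ 1 * (1 + σ) ^ m :=
      mul_le_mul_of_nonneg_right (min_le_right _ _) hP
    linarith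
  have hc := mw_core (θ := 0) (δ3 := 0) hσ hP (by positivity : 0 ≤ min (ε / 4) 1) (by positivity : 0 ≤ ε / 8) le_rfl m2 m1
    hA hA2 le_rfl (by rw [zero_mul])
  have hf : (0 : ℝ) < (Nat.factorial m : ℝ) := by exact_mod_cast Nat.factorial_pos m
  have hm1 : (0 : ℝ) < (m : ℝ) + 1 := by positivity
  have hkk : m + 2 - 1 = m + 1 := by omega
  have e1 : sg1 ⌊w⌋₊ ⌊w'⌋₊ * esy m ⌊w⌋₊ ⌊w'⌋₊ - 0 - σ * (σ ^ m / (Nat.factorial m : ℝ)) =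
      ((m : ℝ) + 1) * (sgK (m + 2) ⌊w⌋₊ ⌊w'⌋₊ - σ ^ (m + 1) / (Nat.factorial (m + 1) : ℝ)) := by
    unfold sgK
    rw [Nat.factorial_succ, show m + 2 - 2 = m by omega]
    push_cast
    have : ((m : ℝ) + 2 - 1) = (m : ℝ) + 1 := by ring
    rw [this]
    field_simp
    ring
  rw [e1, abs_mul, abs_of_pos hm1] at hc
  rw [hkk]
  have h5 : |sgK (m + 2) ⌊w⌋₊ ⌊w'⌋₊ - σ ^ (m + 1) / (Nat.factorial (m + 1) : ℝ)| ≤
      ((m : ℝ) + 1) * |sgK (m + 2) ⌊w⌋₊ ⌊w'⌋₊ - σ ^ (m + 1) / (Nat.factorial (m + 1) : ℝ)| := by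
    apply le_mul_of_one_le_left (abs_nonneg _)
    have : (0 : ℝ) ≤ m := Nat.cast_nonneg m
    linarith
  refine h5.trans (hc.trans ?_)
  rw [pow_succ]
  have h6 : min (ε / 4) 1 ≤ ε / 4 := min_le_left _ _
  have h7 : 0 ≤ (1 + σ) ^ m * (1 + σ) := by positivity
  apply mul_le_mul_of_nonneg_right _ h7
  linarith

end Pool.Agent.Lib.G6
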