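import Pool.Agent.Lib.G5.R6
import Pool.Agent.Lib.G6.Mw
import Pool.Agent.Lib.G6.Nn
import Pool.Agent.Lib.G3.FinA

/-!
# G6, row Fin8: the asymptotic formula with general thresholds `w < w'` and windows `H ≥ w' (log X)^C`
-/

set_option autoImplicit false

open Finset

namespace Pool.Agent.Lib.G6

open Pool.Agent.Lib.G3 (SS fin_cover)
open Pool.Agent.Lib.G5 (TT PP sgK r6 Rg2 q8)

private theorem f8_ev (C c M : ℕ) : ∃ X0 : ℕ, ∀ X : ℕ, X0 ≤ X → 16 ≤ (X : ℝ) ∧ 2 ^ (C + c + 2) + 4 ≤ Real.log X ∧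
    2 * ((X : ℝ) ^ (1 / (M + 8) : ℝ) * (Real.log X) ^ (C + 1) + 1) ≤ Real.sqrt X := by
  have hlog : ∀ᶠ x : ℝ in Filter.atTop, (Real.log x) ^ ((C + 1 : ℕ) : ℝ) ≤ (1 / 4) * x ^ (1 / 4 : ℝ) := by
    have h1 := (isLittleO_log_rpow_rpow_atTop (s := 1 / 4) ((C + 1 : ℕ) : ℝ) (by norm_num)).bound
      (c := 1 / 4) (by norm_num)
    filter_upwards [h1, Filter.eventually_ge_atTop (1 : ℝ)] with x hx hx1
    rwa [Real.norm_of_nonneg (Real.rpow_nonneg (Real.log_nonneg hx1) _), Real.norm_of_nonneg (by positivity)] at hx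
  have hl4 : ∀ᶠ x : ℝ in Filter.atTop, (2 : ℝ) ^ (C + c + 2) + 4 ≤ Real.log x :=
    Real.tendsto_log_atTop.eventually (Filter.eventually_ge_atTop _)
  obtain ⟨x1, hx1⟩ := Filter.eventually_atTop.1 ((hlog.and hl4).and (Filter.eventually_ge_atTop (256 : ℝ)))
  refine ⟨⌈x1⌉₊, fun X hX => ?_⟩
  have hX' : x1 ≤ X := (Nat.le_ceil _).trans (by exact_mod_cast hX)
  obtain ⟨⟨h1, h2⟩, h3⟩ := hx1 X hX'
  rw [Real.rpow_natCast] at h1
  have hX0 : (0 : ℝ) < X := by linarith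
  have hX1 : (1 : ℝ) ≤ X := by linarith
  refine ⟨by linarith, h2, ?_⟩
  have e1 : Real.sqrt X = (X : ℝ) ^ (1 / 4 : ℝ) * (X : ℝ) ^ (1 / 4 : ℝ) := by
    rw [Real.sqrt_eq_rpow, ← Real.rpow_add hX0]
    norm_num
  have e2 : (X : ℝ) ^ (1 / (M + 8) : ℝ) ≤ (X : ℝ) ^ (1 / 4 : ℝ) := by
    refine Real.rpow_le_rpow_of_exponent_le hX1 ?_
    rw [div_le_div_iff₀ (by positivity) (by norm_num)]
    have : (0 : ℝ) ≤ M := Nat.cast_nonneg _
    linarith
  have e3 : (4 : ℝ) ≤ (X : ℝ) ^ (1 / 4 : ℝ) := by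
    calc (4 : ℝ) = (256 : ℝ) ^ (1 / 4 : ℝ) := by
          rw [show (256 : ℝ) = 4 ^ (4 : ℝ) by norm_num, ← Real.rpow_mul (by norm_num)]
          norm_num
      _ ≤ _ := Real.rpow_le_rpow (by norm_num) h3 (by norm_num)
  rw [e1]
  have e4 : (X : ℝ) ^ (1 / (M + 8) : ℝ) * (Real.log X) ^ (C + 1) ≤ (X : ℝ) ^ (1 / 4 : ℝ) * (1 / 4 * (X : ℝ) ^ (1 / 4 : ℝ)) := by
    refine mul_le_mul e2 h1 ?_ (by positivity)
    exact pow_nonneg (Real.log_nonneg hX1) _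
  nlinarith

/-- the comparison at one `N` -/
private theorem f8_cmp {S sg m E b a T ε ε2 : ℝ} (hS : 0 ≤ S) (hb : 0 ≤ b) (ha : 0 ≤ a) (hE : 1 ≤ E) (hm : m ≤ E) (hm0 : 0 ≤ m)
    (hε : 0 < ε) (hε1 : ε ≤ 1) (hε2 : ε2 = ε / 16) (h6 : |T - S * sg * b| ≤ ε2 * (S * (1 + sg) * b))
    (hsg : |sg - m| ≤ ε2 * E) (hnn : |b - a| ≤ ε2 * a) :
    |T - S * m * a| ≤ ε * (S * E * a) := by
  have h20 : 0 < ε2 := by rw [hε2]; positivity
  have h21 : ε2 ≤ 1 / 16 := by rw [hε2]; linarith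
  obtain ⟨n1, n2⟩ := abs_le.1 hnn
  have hB : b ≤ 2 * a := by nlinarith
  have hsg1 : 1 + sg ≤ 3 * E := by
    have := (abs_le.1 hsg).2
    nlinarith
  have t1 : ε2 * (S * (1 + sg) * b) ≤ ε2 * (6 * (S * E * a)) := by
    refine mul_le_mul_of_nonneg_left ?_ h20.le
    calc S * (1 + sg) * b ≤ S * (3 * E) * b := by gcongr
      _ ≤ S * (3 * E) * (2 * a) := by gcongr
      _ = 6 * (S * E * a) := by ring
  have t2 : |S * b * (sg - m)| ≤ ε2 * (2 * (S * E * a)) := by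
    rw [abs_mul, abs_of_nonneg (mul_nonneg hS hb)]
    calc S * b * |sg - m| ≤ S * b * (ε2 * E) := mul_le_mul_of_nonneg_left hsg (mul_nonneg hS hb)
      _ ≤ S * (2 * a) * (ε2 * E) := by gcongr
      _ = ε2 * (2 * (S * E * a)) := by ring
  have t3 : |S * m * (b - a)| ≤ ε2 * (S * E * a) := by
    rw [abs_mul, abs_of_nonneg (mul_nonneg hS hm0)]
    calc S * m * |b - a| ≤ S * m * (ε2 * a) := mul_le_mul_of_nonneg_left hnn (mul_nonneg hS hm0)
      _ ≤ S * E * (ε2 * a) := by gcongr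
      _ = ε2 * (S * E * a) := by ring
  have e : T - S * m * a = (T - S * sg * b) + S * b * (sg - m) + S * m * (b - a) := by ring
  rw [e]
  refine (abs_add_le _ _).trans ?_
  have u1 := abs_add_le (T - S * sg * b) (S * b * (sg - m))
  have hSa : 0 ≤ S * E * a := by positivity
  rw [hε2] at h6 t1 t2 t3
  nlinarith [mul_nonneg hε.le hSa]

theorem g6w (k A : ℕ) (hk : 2 ≤ k) : ∃ c₀ C : ℕ, ∀ ε : ℝ, 0 < ε → ∃ η : ℝ, 0 < η ∧ ∃ X₀ : ℕ, ∀ X H : ℕ, ∀ w w' : ℝ, X₀ ≤ X →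
    (Real.log X) ^ c₀ ≤ w → w ≤ w' → w' ≤ (X : ℝ) ^ η → w' * (Real.log X) ^ C ≤ H → H ≤ X →
      (((Ioc X (X + H)).filter fun N => Even N ∧
        ε * (SS N * (1 + Real.log (Real.log w' / Real.log w)) ^ (k - 1) * (N / (Real.log N) ^ 2)) <
        |(TT k ⌊w⌋₊ ⌊w'⌋₊ N : ℝ) - SS N * ((Real.log (Real.log w' / Real.log w)) ^ (k - 1) / (Nat.factorial (k - 1) : ℝ)) *
          (N / (Real.log N) ^ 2)|).card : ℝ) ≤ H / (Real.log X) ^ A := by
  classical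
  obtain ⟨c10, h6⟩ := r6 k (A + 1) hk
  obtain ⟨C1, h6⟩ := h6 c10 le_rfl
  refine ⟨c10 + 3, C1 + 2, fun ε hε => ?_⟩
  obtain ⟨ε', hε'⟩ : ∃ ε' : ℝ, ε' = min ε 1 := ⟨_, rfl⟩
  have hε'0 : 0 < ε' := by rw [hε']; exact lt_min hε one_pos
  have hε'1 : ε' ≤ 1 := by rw [hε']; exact min_le_right _ _
  have hε'ε : ε' ≤ ε := by rw [hε']; exact min_le_left _ _
  obtain ⟨ε2, hε2⟩ : ∃ ε2 : ℝ, ε2 = ε' / 16 := ⟨_, rfl⟩
  have hε20 : 0 < ε2 := by rw [hε2]; positivity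
  obtain ⟨M, x0, h6⟩ := h6 ε2 hε20
  obtain ⟨X1, hX1⟩ := f8_ev C1 c10 M
  obtain ⟨w0, hw0⟩ := mw k hk ε2 hε20
  obtain ⟨y4, hy4⟩ := nn 1 ε2 hε20
  refine ⟨1 / (M + 8), by positivity, max X1 (max ⌈x0⌉₊ (max ⌈y4⌉₊ (max ⌈Real.exp (max w0 4)⌉₊ 16))), ?_⟩
  intro X H w w' hX hw1 hww hw2 hH1 hH2
  have hXa : X1 ≤ X := (le_max_left _ _).trans hX
  have hX' := (le_max_right _ _).trans hX
  have hXb : x0 ≤ X := (Nat.le_ceil _).trans (by exact_mod_cast (le_max_left _ _).trans hX')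
  have hX' := (le_max_right _ _).trans hX'
  have hXc : y4 ≤ X := (Nat.le_ceil _).trans (by exact_mod_cast (le_max_left _ _).trans hX')
  have hX' := (le_max_right _ _).trans hX'
  have hXd : Real.exp (max w0 4) ≤ X := (Nat.le_ceil _).trans (by exact_mod_cast (le_max_left _ _).trans hX')
  obtain ⟨g1, g2, g3⟩ := hX1 X hXa
  obtain ⟨l, hl⟩ : ∃ l : ℝ, l = Real.log X := ⟨_, rfl⟩
  rw [← hl] at g2 g3 hw1 hH1 ⊢
  have hX0 : (0 : ℝ) < X := by linarith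
  have hXone : (1 : ℝ) ≤ X := by linarith
  have p2 : (0 : ℝ) < 2 ^ (C1 + c10 + 2) := by positivity
  have hl4 : 4 ≤ l := by linarith
  have hlw : max w0 4 ≤ l := by
    rw [hl, Real.le_log_iff_exp_le hX0]
    exact hXd
  have hlc : l ≤ l ^ (c10 + 3) := by
    calc l = l ^ 1 := (pow_one l).symm
      _ ≤ l ^ (c10 + 3) := pow_le_pow_right₀ (by linarith) (by omega)
  have hw4 : 4 ≤ w := by
    have := (le_max_right w0 (4 : ℝ)).trans hlw
    linarith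
  have hww0 : w0 ≤ w := by
    have := (le_max_left w0 (4 : ℝ)).trans hlw
    linarith
  have hw'4 : 4 ≤ w' := by linarith
  obtain ⟨σ, hσ⟩ : ∃ σ : ℝ, σ = Real.log (Real.log w' / Real.log w) := ⟨_, rfl⟩
  have hlw1 : 1 ≤ Real.log w := by
    rw [Real.le_log_iff_exp_le (by linarith)]
    have := Real.exp_one_lt_d9
    linarith
  have hσ0 : 0 ≤ σ := by
    rw [hσ]
    refine Real.log_nonneg ?_
    rw [le_div_iff₀ (by linarith), one_mul]
    exact Real.log_le_log (by linarith) hww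
  have hmw := hw0 w w' hww0 hww
  rw [← hσ] at hmw ⊢
  obtain ⟨h, hh⟩ : ∃ h : ℕ, h = ⌈w' * l ^ (C1 + 1)⌉₊ := ⟨_, rfl⟩
  have hlC : (1 : ℝ) ≤ l ^ (C1 + 1) := one_le_pow₀ (by linarith)
  have hh1 : w' * l ^ (C1 + 1) ≤ h := by rw [hh]; exact Nat.le_ceil _
  have hh2 : (h : ℝ) ≤ w' * l ^ (C1 + 1) + 1 := by rw [hh]; exact (Nat.ceil_lt_add_one (by positivity)).le
  have hh0 : 1 ≤ h := by
    have : (1 : ℝ) ≤ h := by nlinarith
    exact_mod_cast this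
  have hhH : h ≤ H := by
    rw [hh, Nat.ceil_le]
    refine le_trans ?_ hH1
    refine mul_le_mul_of_nonneg_left ?_ (by linarith)
    exact pow_le_pow_right₀ (by linarith) (by omega)
  have hcov := fin_cover (fun N : ℕ => Even N ∧ ε * (SS N * (1 + σ) ^ (k - 1) * (N / (Real.log N) ^ 2)) <
        |(TT k ⌊w⌋₊ ⌊w'⌋₊ N : ℝ) - SS N * (σ ^ (k - 1) / (Nat.factorial (k - 1) : ℝ)) * (N / (Real.log N) ^ 2)|)
    (X := X) (H := H) (h := h) (S := (H : ℝ) + h) (ε := 1 / l ^ (A + 1)) hh0 hhH (by positivity) le_rfl ?_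
  · refine hcov.trans ?_
    have h7 : l ^ (A + 1) = l ^ A * l := pow_succ _ _
    have h8 : 0 < l ^ A := by positivity
    rw [h7, mul_one_div, div_le_div_iff₀ (by positivity) h8]
    have : (0 : ℝ) ≤ H := Nat.cast_nonneg _
    nlinarith [mul_nonneg this h8.le]
  · intro Y hY1 hY2
    have hY1' : (X : ℝ) ≤ Y := by exact_mod_cast hY1
    have hY2' : (Y : ℝ) ≤ 2 * X := by
      have : (H : ℝ) ≤ X := by exact_mod_cast hH2
      linarith
    have hY0 : (0 : ℝ) < Y := by linarith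
    have hlY1 : l ≤ Real.log Y := by rw [hl]; exact Real.log_le_log hX0 hY1'
    have hlY2 : Real.log Y ≤ 2 * l := by
      have e1 : Real.log Y ≤ Real.log (2 * X) := Real.log_le_log hY0 hY2'
      rw [Real.log_mul (by norm_num) hX0.ne', ← hl] at e1
      have e2 := Real.log_two_lt_d9
      linarith
    have hlY0 : 1 ≤ Real.log Y := by linarith
    have hRg : Rg2 Y ⌊w⌋₊ ⌊w'⌋₊ c10 M := by
      refine ⟨?_, Nat.floor_le_floor hww, ?_⟩
      · have e1 : (Real.log Y) ^ (c10 + 1) ≤ l ^ (c10 + 2) := by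
          calc (Real.log Y) ^ (c10 + 1) ≤ (2 * l) ^ (c10 + 1) := pow_le_pow_left₀ (by linarith) hlY2 _
            _ = 2 ^ (c10 + 1) * l ^ (c10 + 1) := mul_pow _ _ _
            _ ≤ l * l ^ (c10 + 1) := by
                refine mul_le_mul_of_nonneg_right ?_ (by positivity)
                have : (2 : ℝ) ^ (c10 + 1) ≤ 2 ^ (C1 + c10 + 2) := pow_le_pow_right₀ (by norm_num) (by omega)
                linarith
            _ = l ^ (c10 + 2) := by ring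
        have e2 : l ^ (c10 + 2) + 1 ≤ l ^ (c10 + 3) := by
          have e3 : (1 : ℝ) ≤ l ^ (c10 + 2) := one_le_pow₀ (by linarith)
          have e4 : l ^ (c10 + 3) = l ^ (c10 + 2) * l := pow_succ _ _
          nlinarith
        have e6 : w < (⌊w⌋₊ : ℝ) + 1 := Nat.lt_floor_add_one _
        linarith
      · have e1 : ((⌊w'⌋₊ : ℕ) : ℝ) ≤ w' := Nat.floor_le (by linarith)
        have e2 : ((⌊w'⌋₊ : ℕ) : ℝ) ^ M ≤ Y := by
          calc ((⌊w'⌋₊ : ℕ) : ℝ) ^ M ≤ ((X : ℝ) ^ (1 / (M + 8) : ℝ)) ^ M := pow_le_pow_left₀ (Nat.cast_nonneg _) (e1.trans hw2) M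
            _ = (X : ℝ) ^ ((1 / (M + 8) : ℝ) * M) := by rw [← Real.rpow_natCast, ← Real.rpow_mul hX0.le]
            _ ≤ (X : ℝ) ^ (1 : ℝ) := by
                refine Real.rpow_le_rpow_of_exponent_le hXone ?_
                rw [one_div_mul_eq_div, div_le_one (by positivity)]
                linarith
            _ = X := Real.rpow_one _
            _ ≤ Y := hY1'
        exact_mod_cast e2
    have hhY : ((⌊w'⌋₊ : ℕ) : ℝ) * (Real.log Y) ^ C1 ≤ h := by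
      refine le_trans ?_ hh1
      have e1 : ((⌊w'⌋₊ : ℕ) : ℝ) ≤ w' := Nat.floor_le (by linarith)
      have e2 : (Real.log Y) ^ C1 ≤ l ^ (C1 + 1) := by
        calc (Real.log Y) ^ C1 ≤ (2 * l) ^ C1 := pow_le_pow_left₀ (by linarith) hlY2 _
          _ = 2 ^ C1 * l ^ C1 := mul_pow _ _ _
          _ ≤ l * l ^ C1 := by
              refine mul_le_mul_of_nonneg_right ?_ (by positivity)
              have : (2 : ℝ) ^ C1 ≤ 2 ^ (C1 + c10 + 2) := pow_le_pow_right₀ (by norm_num) (by omega)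
              linarith
          _ = l ^ (C1 + 1) := by ring
      exact mul_le_mul e1 e2 (by positivity) (by linarith)
    have hsq : Real.sqrt X ≤ Real.sqrt Y := Real.sqrt_le_sqrt hY1'
    have hhs : 2 * (h : ℝ) ≤ Real.sqrt Y := by
      have e1 : w' * l ^ (C1 + 1) ≤ (X : ℝ) ^ (1 / (M + 8) : ℝ) * l ^ (C1 + 1) := mul_le_mul_of_nonneg_right hw2 (by positivity)
      linarith
    have h9 := h6 Y (hXb.trans hY1') ⌊w⌋₊ ⌊w'⌋₊ hRg h hhY hhs
    refine le_trans ?_ (h9.trans ?_)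
    · have hsub : ((Ioc Y (Y + h)).filter fun N : ℕ => Even N ∧ ε * (SS N * (1 + σ) ^ (k - 1) * (N / (Real.log N) ^ 2)) <
          |(TT k ⌊w⌋₊ ⌊w'⌋₊ N : ℝ) - SS N * (σ ^ (k - 1) / (Nat.factorial (k - 1) : ℝ)) * (N / (Real.log N) ^ 2)|) ⊆
          ((Ioc Y (Y + h)).filter fun N => Even N ∧ ε2 * (SS N * (1 + sgK k ⌊w⌋₊ ⌊w'⌋₊) * (Y / (Real.log Y) ^ 2)) <
            |(TT k ⌊w⌋₊ ⌊w'⌋₊ N : ℝ) - SS N * sgK k ⌊w⌋₊ ⌊w'⌋₊ * (Y / (Real.log Y) ^ 2)|) := by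
        intro N hN
        rw [mem_filter, mem_Ioc] at hN ⊢
        obtain ⟨⟨hN1, hN2⟩, hev, hN3⟩ := hN
        refine ⟨⟨hN1, hN2⟩, hev, ?_⟩
        by_contra hcon
        rw [not_lt] at hcon
        have hN2' : (N : ℝ) ≤ Y + h := by exact_mod_cast hN2
        have hNs : (N : ℝ) ≤ Y + Real.sqrt Y := by
          have : (0 : ℝ) ≤ h := Nat.cast_nonneg _
          linarith
        have hnn := hy4 Y N (hXc.trans hY1') hN1 hNs
        simp only [Nat.sub_self, pow_zero, mul_one] at hnn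
        have hSS : 0 ≤ SS N := by
          have := q8 N hev
          linarith
        have hfac : (1 : ℝ) ≤ (Nat.factorial (k - 1) : ℝ) := by exact_mod_cast Nat.one_le_iff_ne_zero.mpr (Nat.factorial_ne_zero _)
        have hm : σ ^ (k - 1) / (Nat.factorial (k - 1) : ℝ) ≤ (1 + σ) ^ (k - 1) := by
          refine (div_le_self (by positivity) hfac).trans ?_
          exact pow_le_pow_left₀ hσ0 (by linarith) _
        have hkey := f8_cmp (S := SS N) (sg := sgK k ⌊w⌋₊ ⌊w'⌋₊) (m := σ ^ (k - 1) / (Nat.factorial (k - 1) : ℝ)) (E := (1 + σ) ^ (k - 1))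
          (b := Y / (Real.log Y) ^ 2) (a := N / (Real.log N) ^ 2) (T := TT k ⌊w⌋₊ ⌊w'⌋₊ N) (ε := ε') (ε2 := ε2)
          hSS (by positivity) (by positivity) (one_le_pow₀ (by linarith)) hm (by positivity) hε'0 hε'1 hε2 hcon hmw hnn
        have hM0 : 0 ≤ SS N * (1 + σ) ^ (k - 1) * (N / (Real.log N) ^ 2) := by positivity
        have := mul_le_mul_of_nonneg_right hε'ε hM0
        linarith
      exact_mod_cast card_le_card hsub
    · rw [mul_one_div]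
      apply div_le_div_of_nonneg_left (Nat.cast_nonneg _) (by positivity)
      exact pow_le_pow_left₀ (by linarith) hlY1 _

end Pool.Agent.Lib.G6
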