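import Pool.Agent.Lib.G5.QIx
import Mathlib.NumberTheory.ArithmeticFunction.Misc

/-!
# G6: the number of ALL representations `N = p + n`, `n` with exactly `k` prime factors: definitions
-/

set_option autoImplicit false

open Finset

namespace Pool.Agent.Lib.G6

open Pool.Agent.Lib.G3 (SS)
open Pool.Agent.Lib.G5 (TT PP sg1 esy sgK)

/-- number of representations `N = p + n`, `p` prime, `n` with exactly `k` prime factors (counted with multiplicity) -/
def TK (k N : ℕ) : ℕ := ((range N).filter fun p => p.Prime ∧ ArithmeticFunction.cardFactors (N - p) = k).card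

/-- the main term -/
noncomputable def MK (k N : ℕ) : ℝ :=
  SS N * (N / (Real.log N) ^ 2 * ((Real.log (Real.log N)) ^ (k - 1) / (Nat.factorial (k - 1) : ℝ)))

open Classical in
/-- the numbers `Q ≤ x` with exactly `j` prime factors (with multiplicity), one of them `≤ w` or `> w'` -/
noncomputable def QB (j w w' x : ℕ) : Finset ℕ := (Icc 1 x).filter fun Q => ArithmeticFunction.cardFactors Q = j ∧
  ∃ q : ℕ, q.Prime ∧ q ∣ Q ∧ (q ≤ w ∨ w' < q)

/-- the primes `r ≤ N / Q` with `N - Q r` prime -/
def RR (Q N : ℕ) : Finset ℕ := (Icc 1 (N / Q)).filter fun r => r.Prime ∧ Q * r < N ∧ (N - Q * r).Prime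

end Pool.Agent.Lib.G6
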